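import Mathlib

/-!
Structure of the low `p`-adic digits of a unit `u`: at a suitable scale there are `W` offsets at
which `u` has no good rational approximation, and the long runs in between are explained by one
small denominator.
-/

namespace Pool.Agent.MP_5a7e96_nt.H37

open Finset

/-- Offset `i` at scale `M` is bad. -/
def Bad (p : ℕ) (u : ℤ) (M i : ℕ) : Prop :=
  ∃ (q : ℕ) (B : ℤ), 0 < q ∧ IsCoprime (q : ℤ) B ∧ q ≤ p ^ M ∧
    |B| * (p : ℤ) ^ (7 * M) ≤ (p : ℤ) ^ (8 * M * i) ∧ (p : ℤ) ^ (8 * M * i + 7 * M) ∣ q * u - B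

/-- Long rational approximations that start before position `P`. -/
def InL (p : ℕ) (u : ℤ) (H P q : ℕ) (B : ℤ) : Prop :=
  0 < q ∧ IsCoprime (q : ℤ) B ∧ q ≤ p ^ H ∧ ∃ S : ℕ, |B| ≤ (p : ℤ) ^ S ∧
    (p : ℤ) ^ (S + 2 * (2 * H + 2)) ∣ q * u - B ∧ S + (2 * H + 2) ≤ P

lemma glue {p : ℕ} (hp : 2 ≤ p) {u : ℤ} {q q' : ℕ} {B B' : ℤ} (hq : 0 < q) (hq' : 0 < q')
    (hc : IsCoprime (q : ℤ) B) (hc' : IsCoprime (q' : ℤ) B') {H S S' E E' : ℕ}
    (h1 : q ≤ p ^ H) (h1' : q' ≤ p ^ H) (h2 : |B| ≤ (p : ℤ) ^ S) (h2' : |B'| ≤ (p : ℤ) ^ S')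
    (h3 : (p : ℤ) ^ E ∣ q * u - B) (h3' : (p : ℤ) ^ E' ∣ q' * u - B')
    (h : max S S' + H + 2 ≤ min E E') : q = q' ∧ B = B' := by
  have hp1 : (1 : ℤ) ≤ p := by exact_mod_cast (by omega : 1 ≤ p)
  have hp2 : (2 : ℤ) ≤ p := by exact_mod_cast hp
  set T := max S S' with hT
  have b1 : |B| ≤ (p : ℤ) ^ T := h2.trans (pow_le_pow_right₀ hp1 (le_max_left _ _))
  have b2 : |B'| ≤ (p : ℤ) ^ T := h2'.trans (pow_le_pow_right₀ hp1 (le_max_right _ _))
  have d1 : (p : ℤ) ^ (T + H + 2) ∣ q * u - B :=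
    (pow_dvd_pow _ (h.trans (min_le_left _ _))).trans h3
  have d2 : (p : ℤ) ^ (T + H + 2) ∣ q' * u - B' :=
    (pow_dvd_pow _ (h.trans (min_le_right _ _))).trans h3'
  have d3 : (p : ℤ) ^ (T + H + 2) ∣ q * B' - q' * B := by
    have : (q : ℤ) * B' - q' * B = q' * (q * u - B) - q * (q' * u - B') := by ring
    rw [this]
    exact dvd_sub (d1.mul_left _) (d2.mul_left _)
  have a1 : (q : ℤ) ≤ (p : ℤ) ^ H := by exact_mod_cast h1
  have a2 : (q' : ℤ) ≤ (p : ℤ) ^ H := by exact_mod_cast h1'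
  have hz : (q : ℤ) * B' - q' * B = 0 := by
    apply Int.eq_zero_of_abs_lt_dvd d3
    have e1 : |(q : ℤ) * B'| ≤ (p : ℤ) ^ H * (p : ℤ) ^ T := by
      rw [abs_mul, abs_of_nonneg (by positivity : (0 : ℤ) ≤ q)]
      exact mul_le_mul a1 b2 (abs_nonneg _) (by positivity)
    have e2 : |(q' : ℤ) * B| ≤ (p : ℤ) ^ H * (p : ℤ) ^ T := by
      rw [abs_mul, abs_of_nonneg (by positivity : (0 : ℤ) ≤ q')]
      exact mul_le_mul a2 b1 (abs_nonneg _) (by positivity)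
    have e3 : (0 : ℤ) < (p : ℤ) ^ H * (p : ℤ) ^ T := by positivity
    have e4 : (p : ℤ) ^ (T + H + 2) = ((p : ℤ) ^ H * (p : ℤ) ^ T) * (p * p) := by ring
    have e5 : (4 : ℤ) ≤ p * p := by nlinarith
    have e6 := abs_sub ((q : ℤ) * B') (q' * B)
    rw [e4]
    nlinarith
  have hqq : (q : ℤ) ∣ q' := hc.dvd_of_dvd_mul_right ⟨B', by linarith⟩
  have hqq' : (q' : ℤ) ∣ q := hc'.dvd_of_dvd_mul_right ⟨B, by linarith⟩
  have e : q = q' := Nat.dvd_antisymm (by exact_mod_cast hqq) (by exact_mod_cast hqq')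
  subst e
  refine ⟨rfl, ?_⟩
  have : (q : ℤ) * (B' - B) = 0 := by linarith
  rcases mul_eq_zero.1 this with h0 | h0
  · exact absurd h0 (by exact_mod_cast hq.ne')
  · linarith

lemma not_dvd_of_cop {p : ℕ} (hp : p.Prime) {u : ℤ} {q : ℕ} {B : ℤ}
    (hc : IsCoprime (q : ℤ) B) {E : ℕ} (hE : 1 ≤ E) (h : (p : ℤ) ^ E ∣ q * u - B) : ¬ p ∣ q := by
  intro hq
  have h1 : (p : ℤ) ∣ q := by exact_mod_cast hq
  have h2 : (p : ℤ) ∣ q * u - B := (dvd_pow_self _ (by omega)).trans h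
  have h3 : (p : ℤ) ∣ B := by
    have := dvd_sub (h1.mul_right u) h2
    simpa using this
  have := hc.isUnit_of_dvd' h1 h3
  rw [Int.isUnit_iff] at this
  have := hp.two_le
  omega

lemma not_bad_zero {p : ℕ} (hp : p.Prime) {u : ℤ} (hu : ¬ (p : ℤ) ∣ u) {M : ℕ} (hM : 1 ≤ M) :
    ¬ Bad p u M 0 := by
  rintro ⟨q, B, hq, hc, -, h1, h2⟩
  have hp2 : (2 : ℤ) ≤ p := by exact_mod_cast hp.two_le
  have h3 : (2 : ℤ) ≤ (p : ℤ) ^ (7 * M) :=
    hp2.trans (le_self_pow₀ (by linarith) (by omega))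
  have hB : B = 0 := by
    by_contra hB
    have : 1 ≤ |B| := Int.one_le_abs hB
    simp only [mul_zero, pow_zero] at h1
    nlinarith
  subst hB
  have hq1 : (q : ℤ) = 1 := by
    have := isCoprime_zero_right.1 hc
    rw [Int.isUnit_iff] at this
    omega
  rw [hq1] at h2
  apply hu
  have := (dvd_pow_self (p : ℤ) (by omega : 8 * M * 0 + 7 * M ≠ 0)).trans h2
  simpa using this

lemma bad_abs {p : ℕ} (hp : 2 ≤ p) {B : ℤ} {M S T : ℕ} (h : |B| * (p : ℤ) ^ M ≤ (p : ℤ) ^ T)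
    (hT : T ≤ S + M) : |B| ≤ (p : ℤ) ^ S := by
  have hp1 : (1 : ℤ) ≤ p := by exact_mod_cast (by omega : 1 ≤ p)
  have h2 : (p : ℤ) ^ T ≤ (p : ℤ) ^ S * (p : ℤ) ^ M := by
    rw [← pow_add]; exact pow_le_pow_right₀ hp1 hT
  exact le_of_mul_le_mul_right (h.trans h2) (by positivity)

lemma gap {p : ℕ} (hp : 2 ≤ p) {u : ℤ} {M : ℕ} (hM : 1 ≤ M) (i : ℕ) : ∀ n : ℕ,
    (∀ k, i + 1 ≤ k → k ≤ i + 1 + n → Bad p u M k) →
    ∃ (q : ℕ) (B : ℤ), 0 < q ∧ IsCoprime (q : ℤ) B ∧ q ≤ p ^ M ∧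
      |B| ≤ (p : ℤ) ^ (8 * M * i + M) ∧ (p : ℤ) ^ (8 * M * (i + 1 + n) + 7 * M) ∣ q * u - B := by
  intro n
  induction n with
  | zero =>
    intro h
    obtain ⟨q, B, hq, hc, h1, h2, h3⟩ := h (i + 1) le_rfl le_rfl
    exact ⟨q, B, hq, hc, h1, bad_abs hp h2 (by ring_nf; omega), h3⟩
  | succ n ih =>
    intro h
    obtain ⟨q, B, hq, hc, h1, h2, h3⟩ := ih (fun k a b => h k a (by omega))
    obtain ⟨q', B', hq', hc', h1', h2', h3'⟩ := h (i + 1 + (n + 1)) (by omega) le_rfl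
    have h4 : |B'| ≤ (p : ℤ) ^ (8 * M * (i + 1 + n) + M) := bad_abs hp h2' (by ring_nf; omega)
    obtain ⟨rfl, rfl⟩ := glue hp hq hq' hc hc' h1 h1' h2 h4 h3 h3' (by
      have e1 : 8 * M * (i + 1 + n) = 8 * M * i + 8 * M * n + 8 * M := by ring
      have e2 : 8 * M * (i + 1 + (n + 1)) = 8 * M * i + 8 * M * n + 16 * M := by ring
      rw [e1, e2]
      omega)
    exact ⟨q, B, hq, hc, h1, h2, h3'⟩

lemma InL.mono {p : ℕ} {u : ℤ} {H P P' q : ℕ} {B : ℤ} (h : InL p u H P q B) (hP : P ≤ P') :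
    InL p u H P' q B := by
  obtain ⟨a, b, c, S, d, e, f⟩ := h
  exact ⟨a, b, c, S, d, e, f.trans hP⟩

lemma inL_step {p : ℕ} (hp : 2 ≤ p) {u : ℤ} {M H : ℕ} (hM : 1 ≤ M) (hMH : 3 * M ≤ H) {i j : ℕ}
    (hb : ∀ k, i < k → k < j → Bad p u M k) {q q' : ℕ} {B B' : ℤ}
    (h1 : InL p u H (8 * M * j) q B) (h1' : InL p u H (8 * M * j) q' B')
    (h2 : ¬ InL p u H (8 * M * i) q B) (h2' : ¬ InL p u H (8 * M * i) q' B') :
    q = q' ∧ B = B' := by
  obtain ⟨a, b, c, S, d, e, f⟩ := h1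
  obtain ⟨a', b', c', S', d', e', f'⟩ := h1'
  have g : 8 * M * i < S + (2 * H + 2) := by
    by_contra g
    exact h2 ⟨a, b, c, S, d, e, by omega⟩
  have g' : 8 * M * i < S' + (2 * H + 2) := by
    by_contra g
    exact h2' ⟨a', b', c', S', d', e', by omega⟩
  by_cases hl : 8 * M * j ≤ 8 * M * i + 3 * H + 2
  · exact glue hp a a' b b' c c' d d' e e' (by omega)
  · obtain ⟨n, rfl⟩ : ∃ n, j = i + 1 + n + 1 := by
      refine ⟨j - (i + 2), ?_⟩
      have : ¬ j ≤ i + 1 := by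
        intro hj
        have h3 : 8 * M * j ≤ 8 * M * (i + 1) := Nat.mul_le_mul_left _ hj
        have : 8 * M * (i + 1) = 8 * M * i + 8 * M := by ring
        omega
      omega
    obtain ⟨q0, B0, a0, b0, c0, d0, e0⟩ := gap hp hM i n (fun k x y => hb k (by omega) (by omega))
    have c1 : q0 ≤ p ^ H := c0.trans (Nat.pow_le_pow_right (by omega) (by omega))
    have e1 : 8 * M * (i + 1 + n + 1) = 8 * M * (i + 1 + n) + 8 * M := by ring
    obtain ⟨x1, x2⟩ := glue hp a a0 b b0 c c1 d d0 e e0 (by omega)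
    obtain ⟨y1, y2⟩ := glue hp a' a0 b' b0 c' c1 d' d0 e' e0 (by omega)
    exact ⟨x1.trans y1.symm, x2.trans y2.symm⟩

lemma next_good {p : ℕ} (hp : p.Prime) {u : ℤ} {M D : ℕ} (hM : 1 ≤ M) (J : ℕ)
    (hTL : ∀ (q : ℕ) (B : ℤ), ¬ p ∣ q → q ≤ p ^ (8 * M * J + M) →
      |B| ≤ (p : ℤ) ^ (8 * M * J + M) → ¬ (p : ℤ) ^ (D * (8 * M * J + M)) ∣ q * u - B) :
    ∃ j, J < j ∧ j + 1 ≤ (D + 3) * (J + 1) ∧ ¬ Bad p u M j ∧ ∀ k, J < k → k < j → Bad p u M k := by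
  classical
  have hex : ∃ j, J < j ∧ j + 1 ≤ (D + 3) * (J + 1) ∧ ¬ Bad p u M j := by
    by_contra hne
    push Not at hne
    obtain ⟨q, B, a, b, c, d, e⟩ := gap (u := u) hp.two_le hM J (D * (J + 1)) (fun k x y =>
      hne k (by omega) (by
        have : (D + 3) * (J + 1) = D * (J + 1) + 3 * J + 3 := by ring
        omega))
    refine hTL q B (not_dvd_of_cop hp b (by omega) e)
      (c.trans (Nat.pow_le_pow_right hp.pos (by omega))) d ((pow_dvd_pow _ ?_).trans e)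
    have e1 : 8 * M * (J + 1 + D * (J + 1)) =
        D * (8 * M * J + M) + (8 * M * (J + 1) + 7 * (D * M)) := by ring
    omega
  refine ⟨Nat.find hex, (Nat.find_spec hex).1, (Nat.find_spec hex).2.1, (Nat.find_spec hex).2.2,
    fun k x y => ?_⟩
  have h1 := Nat.find_min hex y
  have h2 := (Nat.find_spec hex).2.1
  by_contra hk
  exact h1 ⟨x, by omega, hk⟩

lemma run_sum {p : ℕ} (hp : 2 ≤ p) {M : ℕ} (hM : 1 ≤ M) (i j : ℕ) {X : ℝ} {Q : ℝ} (hQ : 0 ≤ Q)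
    (hX : X ≤ Q * (p : ℝ) ^ (8 * M * i + M)) :
    ∑ k ∈ Ico (i + 2) j, X * (p : ℝ) ^ (8 * M) / (p : ℝ) ^ (k * (8 * M)) ≤ 2 * Q := by
  have hp2 : (2 : ℝ) ≤ p := by exact_mod_cast hp
  have h1 : ∀ k ∈ Ico (i + 2) j, X * (p : ℝ) ^ (8 * M) / (p : ℝ) ^ (k * (8 * M)) ≤
      Q * (1 / 2 : ℝ) ^ (k - (i + 2)) := by
    intro k hk
    obtain ⟨n, rfl⟩ : ∃ n, k = i + 2 + n := ⟨k - (i + 2), by have := (mem_Ico.1 hk).1; omega⟩
    rw [Nat.add_sub_cancel_left, div_le_iff₀ (by positivity)]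
    have e1 : (p : ℝ) ^ (8 * M * i + M) * (p : ℝ) ^ (8 * M) * 2 ^ n ≤
        (p : ℝ) ^ ((i + 2 + n) * (8 * M)) := by
      calc _ ≤ (p : ℝ) ^ (8 * M * i + M) * (p : ℝ) ^ (8 * M) * (p : ℝ) ^ n := by gcongr
        _ = (p : ℝ) ^ (8 * M * i + M + 8 * M + n) := by ring
        _ ≤ _ := pow_le_pow_right₀ (by linarith) (by
            have : (i + 2 + n) * (8 * M) = 8 * M * i + 16 * M + 8 * (n * M) := by ring
            have : n ≤ n * M := Nat.le_mul_of_pos_right _ hM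
            omega)
    calc X * (p : ℝ) ^ (8 * M) ≤ Q * (p : ℝ) ^ (8 * M * i + M) * (p : ℝ) ^ (8 * M) := by gcongr
      _ = Q * (1 / 2 : ℝ) ^ n * ((p : ℝ) ^ (8 * M * i + M) * (p : ℝ) ^ (8 * M) * 2 ^ n) := by
          rw [one_div, inv_pow]; field_simp
      _ ≤ _ := by gcongr
  refine (sum_le_sum h1).trans ?_
  rw [← mul_sum, sum_Ico_eq_sum_range]
  simp only [Nat.add_sub_cancel_left]
  have := sum_geometric_two_le (j - (i + 2))
  nlinarith

/-- The invariant of the greedy choice of good offsets. -/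
def Inv (p : ℕ) (u : ℤ) (M H D ρ l : ℕ) : Prop :=
  ∃ (J : ℕ) (G I : Finset ℕ) (𝓦 : Finset (ℕ × ℤ)), J + 1 ≤ (D + 3) ^ l ∧
    G ⊆ range (J + 1) ∧ I ⊆ G ∧ I.card = l + 1 ∧ G.card ≤ (l + 1) * (ρ + 3) ∧
    (∀ i ∈ I, ¬ Bad p u M i) ∧ 𝓦.card ≤ l ∧
    (∀ q B, InL p u H (8 * M * J) q B → (q, B) ∈ 𝓦) ∧
    ∀ Q : ℕ, (∀ q B, InL p u H (8 * M * J) q B → q ≤ p ^ M → q ∣ Q) →
      ∃ Bf : ℕ → ℤ, (∀ i ∈ range (J + 1) \ G, (p : ℤ) ^ ((i + 1) * (8 * M)) ∣ Q * u - Bf i) ∧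
        ∑ i ∈ range (J + 1) \ G, (|Bf i| : ℝ) * (p : ℝ) ^ (8 * M) / (p : ℝ) ^ (i * (8 * M)) ≤
          2 * l * Q

lemma inv_zero {p : ℕ} (hp : p.Prime) {u : ℤ} (hu : ¬ (p : ℤ) ∣ u) {M : ℕ} (hM : 1 ≤ M)
    (H D ρ : ℕ) : Inv p u M H D ρ 0 := by
  refine ⟨0, {0}, {0}, ∅, by simp, by simp, by simp, by simp, by simp, ?_, by simp, ?_, ?_⟩
  · intro i hi
    rw [mem_singleton.1 hi]
    exact not_bad_zero hp hu hM
  · rintro q B ⟨-, -, -, S, -, -, h⟩
    omega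
  · intro Q _
    exact ⟨fun _ => 0, by simp, by simp⟩

lemma inv_succ {p : ℕ} (hp : p.Prime) {u : ℤ} {M H D ρ l : ℕ} (hM : 1 ≤ M) (hMH : 3 * M ≤ H)
    (hρ : H ≤ ρ * M)
    (hTL : ∀ (H' q : ℕ) (B : ℤ), 1 ≤ H' → H' ≤ 8 * M * (D + 3) ^ l → ¬ p ∣ q → q ≤ p ^ H' →
      |B| ≤ (p : ℤ) ^ H' → ¬ (p : ℤ) ^ (D * H') ∣ q * u - B)
    (h : Inv p u M H D ρ l) : Inv p u M H D ρ (l + 1) := by
  classical
  obtain ⟨J, G, I, 𝓦, h1, h2, h3, h4, h5, h6, h7, h8, h9⟩ := h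
  obtain ⟨j, hj1, hj2, hj3, hj4⟩ := next_good (D := D) hp hM J (fun q B => hTL _ q B (by omega) (by
    have : 8 * M * (J + 1) ≤ 8 * M * (D + 3) ^ l := Nat.mul_le_mul_left _ h1
    have : 8 * M * (J + 1) = 8 * M * J + 8 * M := by ring
    omega))
  have hJj : 8 * M * J ≤ 8 * M * j := Nat.mul_le_mul_left _ hj1.le
  have k1 : j + 1 ≤ (D + 3) ^ (l + 1) := by
    rw [pow_succ']; exact hj2.trans (Nat.mul_le_mul_left _ h1)
  have hjI : j ∉ I := fun hh => by have := mem_range.1 (h2 (h3 hh)); omega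
  have k4 : (insert j I).card = l + 1 + 1 := by rw [card_insert_of_notMem hjI, h4]
  have k6 : ∀ i ∈ insert j I, ¬ Bad p u M i := by
    intro i hi
    rcases mem_insert.1 hi with rfl | hi
    · exact hj3
    · exact h6 i hi
  obtain ⟨𝓦', k7, k8⟩ : ∃ 𝓦' : Finset (ℕ × ℤ), 𝓦'.card ≤ l + 1 ∧
      ∀ q B, InL p u H (8 * M * j) q B → (q, B) ∈ 𝓦' := by
    by_cases hn : ∃ q B, InL p u H (8 * M * j) q B ∧ ¬ InL p u H (8 * M * J) q B
    · obtain ⟨q0, B0, a0, b0⟩ := hn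
      refine ⟨insert (q0, B0) 𝓦, (card_insert_le _ _).trans (by omega), fun q B hq => ?_⟩
      by_cases hq' : InL p u H (8 * M * J) q B
      · exact mem_insert_of_mem (h8 q B hq')
      · obtain ⟨rfl, rfl⟩ := inL_step hp.two_le hM hMH hj4 hq a0 hq' b0
        exact mem_insert_self _ _
    · push Not at hn
      exact ⟨𝓦, by omega, fun q B hq => h8 q B (hn q B hq)⟩
  by_cases hl : 8 * M * j < 8 * M * J + 2 * (2 * H + 2) + 2 * M
  · -- short gap
    have hs : j ≤ J + (ρ + 3) := by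
      by_contra hs
      have a1 : 8 * M * (J + (ρ + 3)) ≤ 8 * M * j := Nat.mul_le_mul_left _ (by omega)
      have a2 : 8 * M * (J + (ρ + 3)) = 8 * M * J + 8 * (ρ * M) + 24 * M := by ring
      omega
    refine ⟨j, G ∪ Ioc J j, insert j I, 𝓦', k1, ?_, ?_, k4, ?_, k6, k7, k8, fun Q hQ => ?_⟩
    · intro i hi
      rcases mem_union.1 hi with hi | hi
      · have := mem_range.1 (h2 hi); exact mem_range.2 (by omega)
      · have := mem_Ioc.1 hi; exact mem_range.2 (by omega)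
    · intro i hi
      rcases mem_insert.1 hi with rfl | hi
      · exact mem_union_right _ (mem_Ioc.2 ⟨hj1, le_rfl⟩)
      · exact mem_union_left _ (h3 hi)
    · have := card_union_le G (Ioc J j)
      rw [Nat.card_Ioc] at this
      have e : (l + 1 + 1) * (ρ + 3) = (l + 1) * (ρ + 3) + (ρ + 3) := by ring
      omega
    · obtain ⟨Bf, b1, b2⟩ := h9 Q (fun q B hq => hQ q B (hq.mono hJj))
      have e : range (j + 1) \ (G ∪ Ioc J j) = range (J + 1) \ G := by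
        ext i
        simp only [mem_sdiff, mem_range, mem_union, mem_Ioc, not_or]
        constructor
        · rintro ⟨a, b, c⟩; exact ⟨by omega, b⟩
        · rintro ⟨a, b⟩; exact ⟨by omega, b, by omega⟩
      rw [e]
      refine ⟨Bf, b1, b2.trans ?_⟩
      push_cast
      have : (0 : ℝ) ≤ Q := by positivity
      nlinarith
  · -- long gap
    obtain ⟨n, rfl⟩ : ∃ n, j = J + 1 + n + 1 := by
      refine ⟨j - (J + 2), ?_⟩
      have : ¬ j ≤ J + 1 := by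
        intro hj
        have h3 : 8 * M * j ≤ 8 * M * (J + 1) := Nat.mul_le_mul_left _ hj
        have : 8 * M * (J + 1) = 8 * M * J + 8 * M := by ring
        omega
      omega
    obtain ⟨q0, B0, a0, b0, c0, d0, e0⟩ :=
      gap hp.two_le hM J n (fun k x y => hj4 k (by omega) (by omega))
    have e1 : 8 * M * (J + 1 + n + 1) = 8 * M * (J + 1 + n) + 8 * M := by ring
    have hin : InL p u H (8 * M * (J + 1 + n + 1)) q0 B0 :=
      ⟨a0, b0, c0.trans (Nat.pow_le_pow_right hp.pos (by omega)), _, d0,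
        (pow_dvd_pow _ (by omega)).trans e0, by omega⟩
    refine ⟨J + 1 + n + 1, G ∪ {J + 1, J + 1 + n, J + 1 + n + 1}, insert (J + 1 + n + 1) I, 𝓦',
      k1, ?_, ?_, k4, ?_, k6, k7, k8, fun Q hQ => ?_⟩
    · intro i hi
      rcases mem_union.1 hi with hi | hi
      · have := mem_range.1 (h2 hi); exact mem_range.2 (by omega)
      · simp only [mem_insert, mem_singleton] at hi; exact mem_range.2 (by omega)
    · intro i hi
      rcases mem_insert.1 hi with rfl | hi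
      · exact mem_union_right _ (by simp)
      · exact mem_union_left _ (h3 hi)
    · have := card_union_le G {J + 1, J + 1 + n, J + 1 + n + 1}
      have h3 : ({J + 1, J + 1 + n, J + 1 + n + 1} : Finset ℕ).card ≤ 3 := card_le_three
      have e : (l + 1 + 1) * (ρ + 3) = (l + 1) * (ρ + 3) + (ρ + 3) := by ring
      omega
    · obtain ⟨Bf, b1, b2⟩ := h9 Q (fun q B hq => hQ q B (hq.mono hJj))
      obtain ⟨t, ht⟩ := hQ q0 B0 hin c0
      have e : range (J + 1 + n + 1 + 1) \ (G ∪ {J + 1, J + 1 + n, J + 1 + n + 1}) =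
          (range (J + 1) \ G) ∪ Ico (J + 2) (J + 1 + n) := by
        ext i
        simp only [mem_sdiff, mem_range, mem_union, mem_Ico, not_or, mem_insert, mem_singleton]
        constructor
        · rintro ⟨a, b, c⟩
          by_cases hi : i < J + 1
          · exact Or.inl ⟨hi, b⟩
          · exact Or.inr (by omega)
        · rintro (⟨a, b⟩ | a)
          · exact ⟨by omega, b, by omega⟩
          · exact ⟨by omega, fun hh => by have := mem_range.1 (h2 hh); omega, by omega⟩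
      have hd : Disjoint (range (J + 1) \ G) (Ico (J + 2) (J + 1 + n)) := by
        rw [disjoint_left]
        intro i hi hi'
        have := mem_range.1 (mem_sdiff.1 hi).1
        have := mem_Ico.1 hi'
        omega
      rw [e]
      refine ⟨fun i => if i < J + 1 then Bf i else t * B0, fun i hi => ?_, ?_⟩
      · beta_reduce
        rcases mem_union.1 hi with hi | hi
        · rw [if_pos (mem_range.1 (mem_sdiff.1 hi).1)]
          exact b1 i hi
        · have hi' := mem_Ico.1 hi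
          rw [if_neg (by omega), ht]
          have e2 : ((q0 * t : ℕ) : ℤ) * u - t * B0 = t * (q0 * u - B0) := by push_cast; ring
          rw [e2]
          refine ((pow_dvd_pow _ ?_).trans e0).mul_left _
          have : (i + 1) * (8 * M) ≤ (J + 1 + n) * (8 * M) := Nat.mul_le_mul_right _ (by omega)
          have e3 : (J + 1 + n) * (8 * M) = 8 * M * (J + 1 + n) := by ring
          omega
      · rw [sum_union hd]
        have s1 : ∑ i ∈ range (J + 1) \ G, (|((if i < J + 1 then Bf i else t * B0 : ℤ) : ℝ)|) *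
            (p : ℝ) ^ (8 * M) / (p : ℝ) ^ (i * (8 * M)) ≤ 2 * l * Q := by
          refine le_trans (le_of_eq (sum_congr rfl fun i hi => ?_)) b2
          rw [if_pos (mem_range.1 (mem_sdiff.1 hi).1)]
        have s2 : ∑ i ∈ Ico (J + 2) (J + 1 + n), (|((if i < J + 1 then Bf i else t * B0 : ℤ) : ℝ)|) *
            (p : ℝ) ^ (8 * M) / (p : ℝ) ^ (i * (8 * M)) ≤ 2 * Q := by
          refine le_trans (le_of_eq (sum_congr rfl fun i hi => ?_))
            (run_sum hp.two_le hM J (J + 1 + n) (X := |((t * B0 : ℤ) : ℝ)|) (by positivity) ?_)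
          · rw [if_neg (by have := mem_Ico.1 hi; omega)]
          · have d1 : |(B0 : ℝ)| ≤ (p : ℝ) ^ (8 * M * J + M) := by exact_mod_cast d0
            have d2 : (t : ℝ) ≤ Q := by
              have : t ≤ Q := by rw [ht]; exact Nat.le_mul_of_pos_left _ a0
              exact_mod_cast this
            push_cast
            rw [abs_mul, abs_of_nonneg (by positivity : (0 : ℝ) ≤ t)]
            gcongr
        push_cast at s1 s2 ⊢
        linarith

theorem struct {p : ℕ} (hp : p.Prime) {u : ℤ} (hu : ¬ (p : ℤ) ∣ u) (W R M0 D : ℕ) (hM0 : 1 ≤ M0)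
    (hR : 1 ≤ R)
    (hTL : ∀ (H' q : ℕ) (B : ℤ), 1 ≤ H' → H' ≤ 8 * (M0 * R ^ (W + 1)) * (D + 3) ^ W → ¬ p ∣ q →
      q ≤ p ^ H' → |B| ≤ (p : ℤ) ^ H' → ¬ (p : ℤ) ^ (D * H') ∣ q * u - B) :
    ∃ (s J : ℕ) (G I : Finset ℕ) (Q : ℕ) (Bf : ℕ → ℤ),
      G ⊆ range (J + 1) ∧ I ⊆ G ∧ I.card = W + 1 ∧ G.card ≤ (W + 1) * (3 * R ^ (W + 1) + 3) ∧
      (∀ i ∈ I, ¬ Bad p u (M0 * R ^ (s + 1)) i) ∧ ¬ p ∣ Q ∧ Q ≤ p ^ (W * (M0 * R ^ s)) ∧
      (∀ i ∈ range (J + 1) \ G, (p : ℤ) ^ ((i + 1) * (8 * (M0 * R ^ (s + 1)))) ∣ Q * u - Bf i) ∧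
      ∑ i ∈ range (J + 1) \ G, (|Bf i| : ℝ) * (p : ℝ) ^ (8 * (M0 * R ^ (s + 1))) /
        (p : ℝ) ^ (i * (8 * (M0 * R ^ (s + 1)))) ≤ 2 * W * Q := by
  classical
  set H := 3 * (M0 * R ^ (W + 1)) with hH
  have hmono : ∀ s t, s ≤ t → M0 * R ^ s ≤ M0 * R ^ t := fun s t h =>
    Nat.mul_le_mul_left _ (Nat.pow_le_pow_right hR h)
  have hpos : ∀ s, 1 ≤ M0 * R ^ s := fun s => by
    have := hmono 0 s (Nat.zero_le _); simp at this; omega
  have hinv : ∀ s : Fin (W + 1), Inv p u (M0 * R ^ (s.1 + 1)) H D (3 * R ^ (W + 1)) W := by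
    intro s
    have hs := hmono (s.1 + 1) (W + 1) (by omega)
    have : ∀ l, l ≤ W → Inv p u (M0 * R ^ (s.1 + 1)) H D (3 * R ^ (W + 1)) l := by
      intro l
      induction l with
      | zero => intro _; exact inv_zero hp hu (hpos _) _ _ _
      | succ l ih =>
        intro hl
        refine inv_succ hp (hpos _) (by omega) ?_ (fun H' q B a b => hTL H' q B a (b.trans ?_))
          (ih (by omega))
        · have h1 := hmono 0 (s.1 + 1) (Nat.zero_le _)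
          calc H = 3 * R ^ (W + 1) * (M0 * R ^ 0) := by rw [hH]; ring
            _ ≤ _ := Nat.mul_le_mul_left _ h1
        · exact Nat.mul_le_mul (Nat.mul_le_mul_left _ hs)
            (Nat.pow_le_pow_right (by omega) (by omega))
    exact this W le_rfl
  choose J G I 𝓦 h1 h2 h3 h4 h5 h6 h7 h8 h9 using hinv
  by_cases hb : ∀ s : Fin (W + 1), ∃ q B, InL p u H (8 * (M0 * R ^ (s.1 + 1)) * J s) q B ∧
      q ≤ p ^ (M0 * R ^ (s.1 + 1)) ∧ p ^ (M0 * R ^ s.1) < q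
  · exfalso
    choose q B a b c using hb
    obtain ⟨s0, -, hs0⟩ := exists_max_image (univ : Finset (Fin (W + 1)))
      (fun s => 8 * (M0 * R ^ (s.1 + 1)) * J s) univ_nonempty
    have hlt : ∀ s t : Fin (W + 1), s < t → q s < q t := fun s t hst =>
      ((b s).trans (Nat.pow_le_pow_right hp.pos (hmono _ _ (by exact hst)))).trans_lt (c t)
    have := card_le_card_of_injOn (s := (univ : Finset (Fin (W + 1)))) (t := 𝓦 s0)
      (fun s => (q s, B s)) (fun s _ => h8 s0 _ _ ((a s).mono (hs0 s (mem_univ _))))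
      (fun s _ t _ hst => by
        have hq : q s = q t := congrArg Prod.fst hst
        rcases lt_trichotomy s t with h | h | h
        · exact absurd hq (hlt s t h).ne
        · exact h
        · exact absurd hq (hlt t s h).ne')
    have h7' := h7 s0
    simp at this
    omega
  · push Not at hb
    obtain ⟨s, hs⟩ := hb
    set T := (𝓦 s).filter (fun ρ => InL p u H (8 * (M0 * R ^ (s.1 + 1)) * J s) ρ.1 ρ.2 ∧
      ρ.1 ≤ p ^ (M0 * R ^ (s.1 + 1))) with hT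
    obtain ⟨Bf, b1, b2⟩ := h9 s (∏ ρ ∈ T, ρ.1) (fun q B a b =>
      dvd_prod_of_mem (fun ρ : ℕ × ℤ => ρ.1) (a := (q, B)) (mem_filter.2 ⟨h8 s q B a, a, b⟩))
    refine ⟨s.1, J s, G s, I s, ∏ ρ ∈ T, ρ.1, Bf, h2 s, h3 s, h4 s, h5 s, h6 s, ?_, ?_, b1, b2⟩
    · refine hp.prime.not_dvd_finsetProd (fun ρ hρ => ?_)
      obtain ⟨-, ⟨-, b, -, S, -, e, -⟩, -⟩ := mem_filter.1 hρ
      exact not_dvd_of_cop hp b (by omega) e
    · calc ∏ ρ ∈ T, ρ.1 ≤ (p ^ (M0 * R ^ s.1)) ^ T.card :=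
            prod_le_pow_card _ _ _ (fun ρ hρ => by
              obtain ⟨-, a, b⟩ := mem_filter.1 hρ
              exact hs _ _ a b)
        _ ≤ (p ^ (M0 * R ^ s.1)) ^ W := Nat.pow_le_pow_right (pow_pos hp.pos _)
            ((card_filter_le _ _).trans (h7 s))
        _ = _ := by rw [← pow_mul, mul_comm]

end Pool.Agent.MP_5a7e96_nt.H37
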