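import Pool.Agent.MP_5a7e96_nt.H37.Sum
import Pool.Agent.MP_5a7e96_nt.H37.Struct

/-!
Languages of digit windows, the fibre bound at a good offset and the carry computation.
-/

namespace Pool.Agent.MP_5a7e96_nt.H37

open Finset

/-- A family of sets of digit windows closed under taking sub-windows. -/
structure Lang (p : ℕ) (F : ℕ → Finset ℕ) : Prop where
  lt : ∀ t, ∀ x ∈ F t, x < p ^ t
  lo : ∀ t s, ∀ x ∈ F (t + s), x % p ^ t ∈ F t
  hi : ∀ t s, ∀ x ∈ F (t + s), x / p ^ t ∈ F s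

/-- Exponential growth rate at most `η`. -/
def Ent (F : ℕ → Finset ℕ) (η : ℝ) : Prop :=
  ∃ C : ℝ, 1 ≤ C ∧ ∀ t, ((F t).card : ℝ) ≤ C * Real.exp (η * t)

open Classical in
/-- Windows that are compatible with `u x` avoiding the block. -/
noncomputable def nxt (p w ω u : ℕ) (F : ℕ → Finset ℕ) (t : ℕ) : Finset ℕ :=
  (F t).filter (fun x => ∃ c < u, Av p w ω (u * x + c) t)

lemma mem_nxt {p w ω u : ℕ} {F : ℕ → Finset ℕ} {t x : ℕ} :
    x ∈ nxt p w ω u F t ↔ x ∈ F t ∧ ∃ c < u, Av p w ω (u * x + c) t := by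
  simp [nxt]

lemma Av.congr {p w ω y y' t : ℕ} (h : Av p w ω y t) (e : y % p ^ t = y' % p ^ t) :
    Av p w ω y' t := fun j hj => by rw [← win_of_mod hj e]; exact h j hj

lemma Av.mono {p w ω y t s : ℕ} (h : Av p w ω y t) (e : s ≤ t) : Av p w ω y s :=
  fun j hj => h j (hj.trans e)

lemma Av.div {p w ω y t s : ℕ} (h : Av p w ω y (t + s)) : Av p w ω (y / p ^ t) s := fun j hj => by
  rw [Nat.div_div_eq_div_mul, ← pow_add]
  exact h _ (by omega)

lemma Lang.nxt {p : ℕ} (hp : 0 < p) {F : ℕ → Finset ℕ} (hF : Lang p F) (w ω u : ℕ) :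
    Lang p (nxt p w ω u F) where
  lt t x hx := hF.lt t x (mem_nxt.1 hx).1
  lo t s x hx := by
    obtain ⟨h1, c, h2, h3⟩ := mem_nxt.1 hx
    refine mem_nxt.2 ⟨hF.lo t s x h1, c, h2, (h3.mono (Nat.le_add_right _ _)).congr ?_⟩
    exact (((Nat.mod_modEq x (p ^ t)).symm).mul_left u).add_right c
  hi t s x hx := by
    obtain ⟨h1, c, h2, h3⟩ := mem_nxt.1 hx
    have hb : 0 < p ^ t := pow_pos hp t
    refine mem_nxt.2 ⟨hF.hi t s x h1, (u * (x % p ^ t) + c) / p ^ t, ?_, ?_⟩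
    · rw [Nat.div_lt_iff_lt_mul hb]
      have : u * (x % p ^ t + 1) ≤ u * p ^ t := Nat.mul_le_mul_left _ (Nat.mod_lt _ hb)
      rw [mul_add] at this
      omega
    · have e : u * x + c = (u * (x % p ^ t) + c) + p ^ t * (u * (x / p ^ t)) := by
        conv_lhs => rw [← Nat.mod_add_div x (p ^ t)]
        ring
      have := h3.div
      rwa [e, Nat.add_mul_div_left _ _ hb, add_comm] at this

lemma Lang.card_add {p : ℕ} {F : ℕ → Finset ℕ} (hF : Lang p F) (t s : ℕ) :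
    (F (t + s)).card ≤ (F t).card * (F s).card := by
  rw [← card_product]
  refine card_le_card_of_injOn (fun x => (x % p ^ t, x / p ^ t))
    (fun x hx => mem_coe.2 (mem_product.2 ⟨hF.lo t s x hx, hF.hi t s x hx⟩)) fun x _ y _ h => ?_
  obtain ⟨h1, h2⟩ := Prod.mk.inj h
  rw [← Nat.mod_add_div x (p ^ t), ← Nat.mod_add_div y (p ^ t), h1, h2]

lemma Lang.card_le {p : ℕ} {F : ℕ → Finset ℕ} (hF : Lang p F) (t : ℕ) : (F t).card ≤ p ^ t := by
  rw [← card_range (p ^ t)]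
  exact card_le_card fun x hx => mem_range.2 (hF.lt t x hx)

lemma Lang.card_mul {p : ℕ} {F : ℕ → Finset ℕ} (hF : Lang p F) (L n : ℕ) :
    (F (n * L)).card ≤ (F L).card ^ n := by
  induction n with
  | zero => simpa using hF.card_le 0
  | succ n ih =>
    rw [add_mul, one_mul, pow_succ]
    exact (hF.card_add _ _).trans (Nat.mul_le_mul_right _ ih)

lemma Lang.ent_of_mul {p : ℕ} (hp : 1 ≤ p) {F : ℕ → Finset ℕ} (hF : Lang p F) {η C : ℝ}
    (hη : 0 ≤ η) (hC : 0 ≤ C) {L J : ℕ} (hL : 1 ≤ L)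
    (h : ∀ n, J ≤ n → ((F (n * L)).card : ℝ) ≤ C * Real.exp (η * (n * L))) : Ent F η := by
  have hp1 : (1 : ℝ) ≤ p := by exact_mod_cast hp
  have b1 : (1 : ℝ) ≤ (p : ℝ) ^ (J * L) := one_le_pow₀ hp1
  have b2 : 0 ≤ C * (p : ℝ) ^ L := by positivity
  refine ⟨C * (p : ℝ) ^ L + (p : ℝ) ^ (J * L), by linarith, fun t => ?_⟩
  have e1 : 1 ≤ Real.exp (η * t) := Real.one_le_exp (by positivity)
  by_cases ht : J ≤ t / L
  · have h1 := hF.card_add (t / L * L) (t % L)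
    rw [Nat.div_add_mod'] at h1
    have h2 : ((F (t % L)).card : ℝ) ≤ (p : ℝ) ^ L := by
      exact_mod_cast (hF.card_le _).trans (Nat.pow_le_pow_right hp (Nat.mod_lt _ hL).le)
    have h3 : Real.exp (η * ((t / L : ℕ) * L)) ≤ Real.exp (η * t) := by
      refine Real.exp_le_exp.2 (mul_le_mul_of_nonneg_left ?_ hη)
      exact_mod_cast Nat.div_mul_le_self t L
    have h4 := (h _ ht).trans (mul_le_mul_of_nonneg_left h3 hC)
    calc ((F t).card : ℝ) ≤ (F (t / L * L)).card * (F (t % L)).card := by exact_mod_cast h1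
      _ ≤ C * Real.exp (η * t) * (p : ℝ) ^ L := by gcongr
      _ ≤ _ := by nlinarith
  · have h1 : t ≤ J * L := by
      have := (Nat.div_lt_iff_lt_mul hL).1 (not_le.1 ht)
      omega
    have h2 : ((F t).card : ℝ) ≤ (p : ℝ) ^ (J * L) := by
      exact_mod_cast (hF.card_le _).trans (Nat.pow_le_pow_right hp h1)
    nlinarith

lemma Ent.mono {F F' : ℕ → Finset ℕ} {η η' : ℝ} (h : Ent F η) (hF : ∀ t, F' t ⊆ F t)
    (hη : η ≤ η') : Ent F' η' := by
  obtain ⟨C, h1, h2⟩ := h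
  refine ⟨C, h1, fun t => le_trans ?_ ((h2 t).trans ?_)⟩
  · exact_mod_cast card_le_card (hF t)
  · gcongr

lemma Lang.win {p : ℕ} {F : ℕ → Finset ℕ} (hF : Lang p F) {t s k x : ℕ} (h : s + k ≤ t)
    (hx : x ∈ F t) : x / p ^ s % p ^ k ∈ F k := by
  obtain ⟨r, rfl⟩ : ∃ r, t = s + (k + r) := ⟨t - (s + k), by omega⟩
  exact hF.lo _ _ _ (hF.hi _ _ _ hx)

lemma class_card {p : ℕ} (hp : p.Prime) {F : ℕ → Finset ℕ} (hF : Lang p F) {u : ℤ} {M i : ℕ}
    (hg : ¬ Bad p u M i) {X : ℝ} (hX1 : 1 ≤ X) (hX : ∀ k ≤ 7 * M, ((F k).card : ℝ) ≤ X)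
    (Z : Finset ℕ) (hZ : Z ⊆ F (8 * M))
    (h : ∀ z ∈ Z, ∀ z' ∈ Z, ∃ e : ℤ, 4 * |e| < (p : ℤ) ^ (8 * M * i) ∧
      (p : ℤ) ^ (8 * M * i + 8 * M) ∣ u * ((z : ℤ) - z') - e) : (Z.card : ℝ) ≤ X := by
  classical
  by_cases h1 : Z.card ≤ 1
  · exact le_trans (by exact_mod_cast h1) hX1
  have hne : Z.Nonempty := card_pos.1 (by omega)
  set z0 := Z.min' hne with hz0
  have hz0Z : z0 ∈ Z := min'_mem _ _
  have hmin : ∀ z ∈ Z, z0 ≤ z := fun z hz => min'_le _ _ hz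
  obtain ⟨z1, hz1, hz10⟩ := exists_mem_ne (by omega : 1 < Z.card) z0
  choose! e he1 he2 using fun z hz => h z hz z0 hz0Z
  have hlt : ∀ z ∈ Z, z < p ^ (8 * M) := fun z hz => hF.lt _ _ (hZ hz)
  have hd : ∀ z ∈ Z, |(z : ℤ) - z0| ≤ (p : ℤ) ^ (8 * M) := fun z hz => by
    have a1 : (z : ℤ) < (p : ℤ) ^ (8 * M) := by exact_mod_cast hlt z hz
    have a2 : (z0 : ℤ) ≤ z := by exact_mod_cast hmin z hz
    rw [abs_of_nonneg (by linarith)]
    have : (0 : ℤ) ≤ z0 := by positivity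
    linarith
  have hpar : ∀ z ∈ Z, ((z : ℤ) - z0) * e z1 = ((z1 : ℤ) - z0) * e z := by
    intro z hz
    rw [← sub_eq_zero]
    apply Int.eq_zero_of_abs_lt_dvd (m := (p : ℤ) ^ (8 * M * i + 8 * M))
    · have : ((z : ℤ) - z0) * e z1 - ((z1 : ℤ) - z0) * e z =
          ((z1 : ℤ) - z0) * (u * ((z : ℤ) - z0) - e z) -
            ((z : ℤ) - z0) * (u * ((z1 : ℤ) - z0) - e z1) := by ring
      rw [this]
      exact dvd_sub ((he2 z hz).mul_left _) ((he2 z1 hz1).mul_left _)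
    · have a1 := mul_le_mul_of_nonneg_right (hd z hz) (abs_nonneg (e z1))
      have a2 := mul_le_mul_of_nonneg_right (hd z1 hz1) (abs_nonneg (e z))
      have a3 := abs_sub (((z : ℤ) - z0) * e z1) (((z1 : ℤ) - z0) * e z)
      rw [abs_mul, abs_mul] at a3
      have a4 : (0 : ℤ) < (p : ℤ) ^ (8 * M) := pow_pos (by exact_mod_cast hp.pos) _
      have a5 := mul_lt_mul_of_pos_left (he1 z hz) a4
      have a6 := mul_lt_mul_of_pos_left (he1 z1 hz1) a4
      have a7 := mul_nonneg a4.le (abs_nonneg (e z))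
      have a8 := mul_nonneg a4.le (abs_nonneg (e z1))
      rw [pow_add]
      linarith
  have hd1 : (0 : ℤ) < (z1 : ℤ) - z0 := by
    have := hmin z1 hz1
    omega
  obtain ⟨q', B, hc, hq', hB⟩ := Int.exists_gcd_one (m := (z1 : ℤ) - z0) (n := e z1)
    (Int.gcd_pos_of_ne_zero_left _ hd1.ne')
  generalize hgg : (Int.gcd ((z1 : ℤ) - z0) (e z1) : ℤ) = g at hq' hB
  have hg0 : 0 < g := by
    rw [← hgg]; exact_mod_cast Int.gcd_pos_of_ne_zero_left _ hd1.ne'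
  have hq0 : 0 < q' := by
    rw [hq'] at hd1
    exact (pos_iff_pos_of_mul_pos hd1).2 hg0
  obtain ⟨q, rfl⟩ := Int.eq_ofNat_of_zero_le hq0.le
  have hq : 0 < q := by exact_mod_cast hq0
  have hcop : IsCoprime (q : ℤ) B := Int.isCoprime_iff_gcd_eq_one.2 hc
  have ht : ∀ z ∈ Z, ∃ t : ℕ, z = z0 + t * q ∧ e z = t * B := by
    intro z hz
    have a1 : ((z : ℤ) - z0) * B = q * e z := by
      have := hpar z hz
      rw [hq', hB] at this
      apply mul_right_cancel₀ hg0.ne'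
      linarith
    obtain ⟨t, a2⟩ : (q : ℤ) ∣ (z : ℤ) - z0 := hcop.dvd_of_dvd_mul_right ⟨_, a1⟩
    have a3 : 0 ≤ t := by
      have := hmin z hz
      have a4 : (0 : ℤ) ≤ q * t := by rw [← a2]; omega
      exact nonneg_of_mul_nonneg_right a4 hq0
    obtain ⟨t, rfl⟩ := Int.eq_ofNat_of_zero_le a3
    refine ⟨t, ?_, ?_⟩
    · have : (z : ℤ) = z0 + t * q := by linarith
      exact_mod_cast this
    · rw [a2] at a1
      apply mul_left_cancel₀ hq0.ne'
      linarith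
  choose! t ht1 ht2 using ht
  have hex : ∃ τ, ∃ z ∈ Z, ¬ p ^ (τ + 1) ∣ t z := by
    refine ⟨t z1, z1, hz1, Nat.not_dvd_of_pos_of_lt ?_ ?_⟩
    · rcases Nat.eq_zero_or_pos (t z1) with h0 | h0
      · have := ht1 z1 hz1
        rw [h0] at this
        omega
      · exact h0
    · exact (Nat.lt_pow_self hp.one_lt).trans (Nat.pow_lt_pow_right hp.one_lt (by omega))
  obtain ⟨τ, ⟨z2, hz2, hz2'⟩, hall⟩ : ∃ τ, (∃ z ∈ Z, ¬ p ^ (τ + 1) ∣ t z) ∧
      ∀ z ∈ Z, p ^ τ ∣ t z := by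
    refine ⟨Nat.find hex, Nat.find_spec hex, fun z hz => ?_⟩
    rcases Nat.eq_zero_or_pos (Nat.find hex) with h0 | h0
    · rw [h0]; simp
    · have := Nat.find_min hex (m := Nat.find hex - 1) (by omega)
      push Not at this
      have := this z hz
      rwa [Nat.sub_add_cancel h0] at this
  choose! t' ht' using hall
  have hb : ∀ z ∈ Z, p ^ τ * t' z * q < p ^ (8 * M) := fun z hz => by
    have a1 := ht1 z hz
    have a2 := hlt z hz
    rw [ht' z hz] at a1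
    omega
  have hp2 : ¬ p ∣ t' z2 := fun hh => hz2' (by
    rw [ht' z2 hz2, pow_succ]; exact Nat.mul_dvd_mul_left _ hh)
  have hτ : τ < 8 * M := by
    have a1 : 0 < t' z2 := Nat.pos_of_ne_zero fun h0 => hp2 (by rw [h0]; simp)
    have a2 : p ^ τ * 1 * 1 ≤ p ^ τ * t' z2 * q :=
      Nat.mul_le_mul (Nat.mul_le_mul_left _ a1) hq
    exact (Nat.pow_lt_pow_iff_right hp.one_lt).1 (by have := hb z2 hz2; omega)
  have hdiv : (p : ℤ) ^ (8 * M * i + (8 * M - τ)) ∣ q * u - B := by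
    have a1 := he2 z2 hz2
    have a2 : u * ((z2 : ℤ) - z0) - e z2 = (p : ℤ) ^ τ * (t' z2 * (q * u - B)) := by
      have a3 : (z2 : ℤ) = z0 + t z2 * q := by exact_mod_cast ht1 z2 hz2
      have a4 : (t z2 : ℤ) = (p : ℤ) ^ τ * t' z2 := by exact_mod_cast ht' z2 hz2
      rw [ht2 z2 hz2, a3, a4]; ring
    rw [a2, show 8 * M * i + 8 * M = τ + (8 * M * i + (8 * M - τ)) by omega, pow_add] at a1
    have a5 := (mul_dvd_mul_iff_left (pow_ne_zero τ (by exact_mod_cast hp.pos.ne'))).1 a1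
    refine IsCoprime.dvd_of_dvd_mul_left (IsCoprime.pow_left ?_) a5
    exact Nat.isCoprime_iff_coprime.2 ((Nat.Prime.coprime_iff_not_dvd hp).2 hp2)
  have hpq : ¬ p ∣ q := not_dvd_of_cop hp hcop (by omega) hdiv
  have hsm : ∀ z ∈ Z, t' z < p ^ (7 * M) := by
    intro z hz
    by_contra hh
    push Not at hh
    have a1 := hb z hz
    have a2 : p ^ τ * p ^ (7 * M) * 1 ≤ p ^ τ * t' z * q := by gcongr; exact hq
    have a3 : τ + 7 * M < 8 * M :=
      (Nat.pow_lt_pow_iff_right hp.one_lt).1 (by rw [pow_add]; omega)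
    have a4 : 1 * p ^ (7 * M) * q ≤ p ^ τ * t' z * q := by
      gcongr; exact Nat.one_le_pow _ _ hp.pos
    refine hg ⟨q, B, hq, hcop, ?_, ?_, (pow_dvd_pow _ (by omega)).trans hdiv⟩
    · refine Nat.le_of_mul_le_mul_left (c := p ^ (7 * M)) ?_ (pow_pos hp.pos _)
      rw [← pow_add, show 7 * M + M = 8 * M by ring]
      rw [one_mul] at a4
      omega
    · have a5 := he1 z hz
      rw [ht2 z hz, abs_mul, abs_of_nonneg (by positivity : (0 : ℤ) ≤ t z)] at a5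
      have a6 : p ^ (7 * M) ≤ t z := by
        rw [ht' z hz]
        exact hh.trans (Nat.le_mul_of_pos_left _ (pow_pos hp.pos _))
      have a7 : (p : ℤ) ^ (7 * M) ≤ t z := by exact_mod_cast a6
      have a8 := mul_le_mul_of_nonneg_left a7 (abs_nonneg B)
      have a9 : (0 : ℤ) ≤ t z * |B| := by positivity
      linarith
  refine le_trans ?_ (hX (min (7 * M) (8 * M - τ)) (min_le_left _ _))
  have hk : ∀ z ∈ Z, t' z < p ^ min (7 * M) (8 * M - τ) := by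
    intro z hz
    rcases le_total (7 * M) (8 * M - τ) with a | a
    · rw [min_eq_left a]; exact hsm z hz
    · rw [min_eq_right a]
      refine Nat.lt_of_mul_lt_mul_left (a := p ^ τ) ?_
      rw [← pow_add, show τ + (8 * M - τ) = 8 * M by omega]
      exact lt_of_le_of_lt (Nat.le_mul_of_pos_right _ hq) (hb z hz)
  have hz : ∀ z ∈ Z, z / p ^ τ = z0 / p ^ τ + t' z * q := fun z hz => by
    conv_lhs => rw [ht1 z hz, ht' z hz, mul_assoc]
    exact Nat.add_mul_div_left _ _ (pow_pos hp.pos _)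
  exact_mod_cast card_le_card_of_injOn (fun z => z / p ^ τ % p ^ min (7 * M) (8 * M - τ))
    (fun z hz => mem_coe.2 (hF.win (by omega) (hZ hz))) fun z hz1 z' hz2 hzz => by
      simp only at hzz
      rw [hz z hz1, hz z' hz2] at hzz
      have a1 := Nat.ModEq.cancel_right_of_coprime
        (Nat.Coprime.pow_left _ ((Nat.Prime.coprime_iff_not_dvd hp).2 hpq))
        (Nat.ModEq.add_left_cancel' _ hzz)
      have a2 := Nat.ModEq.eq_of_lt_of_lt a1 (hk z hz1) (hk z' hz2)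
      rw [ht1 z hz1, ht1 z' hz2, ht' z hz1, ht' z' hz2, a2]

lemma fibre {p : ℕ} (hp : p.Prime) {F : ℕ → Finset ℕ} (hF : Lang p F) {u M i : ℕ}
    (hg : ¬ Bad p u M i) {X : ℝ} (hX1 : 1 ≤ X) (hX : ∀ k ≤ 7 * M, ((F k).card : ℝ) ≤ X) (v : ℕ) :
    ((cell (F (8 * M)) (fun z => u * z / (p ^ (8 * M)) ^ i) p (8 * M) v).card : ℝ) ≤ 4 * X := by
  set b := (p ^ (8 * M)) ^ i with hb
  have hb0 : 0 < b := pow_pos (pow_pos hp.pos _) _
  rw [card_eq_sum_card_fiberwise (f := fun z => 4 * (u * z % b) / b) (t := range 4) (fun z _ => by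
    have := Nat.mod_lt (u * z) hb0
    exact mem_coe.2 (mem_range.2 ((Nat.div_lt_iff_lt_mul hb0).2 (by omega)))), Nat.cast_sum]
  refine (sum_le_sum (g := fun _ => X) fun κ _ => class_card hp hF hg hX1 hX _
    ((filter_subset _ _).trans (filter_subset _ _)) fun z hz z' hz' => ?_).trans (by simp)
  obtain ⟨a1, a2⟩ := mem_filter.1 hz
  obtain ⟨b1, b2⟩ := mem_filter.1 hz'
  have a3 := (mem_filter.1 a1).2
  have b3 := (mem_filter.1 b1).2
  have hbz : (p : ℤ) ^ (8 * M * i) = b := by rw [hb, pow_mul]; push_cast; rfl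
  refine ⟨((u * z % b : ℕ) : ℤ) - (u * z' % b : ℕ), ?_, ?_⟩
  · rw [hbz]
    have c1 := Nat.div_add_mod (4 * (u * z % b)) b
    have c2 := Nat.div_add_mod (4 * (u * z' % b)) b
    have c3 := Nat.mod_lt (4 * (u * z % b)) hb0
    have c4 := Nat.mod_lt (4 * (u * z' % b)) hb0
    rw [a2] at c1
    rw [b2] at c2
    rcases abs_cases (((u * z % b : ℕ) : ℤ) - (u * z' % b : ℕ)) with c | c <;> omega
  · have c1 : (b : ℤ) * (u * z / b : ℕ) + (u * z % b : ℕ) = u * z := by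
      exact_mod_cast Nat.div_add_mod (u * z) b
    have c2 : (b : ℤ) * (u * z' / b : ℕ) + (u * z' % b : ℕ) = u * z' := by
      exact_mod_cast Nat.div_add_mod (u * z') b
    have c3 : ((p ^ (8 * M) : ℕ) : ℤ) ∣ ((u * z / b : ℕ) : ℤ) - (u * z' / b : ℕ) :=
      Nat.modEq_iff_dvd.1 (b3.trans a3.symm)
    have c4 : (u : ℤ) * ((z : ℤ) - z') - (((u * z % b : ℕ) : ℤ) - (u * z' % b : ℕ)) =
        b * (((u * z / b : ℕ) : ℤ) - (u * z' / b : ℕ)) := by linarith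
    rw [c4, pow_add, hbz]
    exact mul_dvd_mul_left _ (by exact_mod_cast c3)

lemma mod_of_blocks (b : ℕ) {x y : ℕ} : ∀ k, (∀ i < k, y / b ^ i % b = x / b ^ i % b) →
    y % b ^ k = x % b ^ k := by
  intro k
  induction k with
  | zero => simp [Nat.mod_one]
  | succ k ih =>
    intro h
    rw [Nat.mod_pow_succ, Nat.mod_pow_succ, ih fun i hi => h i (by omega), h k (by omega)]

lemma expand (b x j : ℕ) : ∀ J, J ≤ j → x % b ^ (j + 1) =
    x % b ^ (j - J) + ∑ i ∈ range (J + 1), b ^ (j - i) * (x / b ^ (j - i) % b) := by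
  intro J
  induction J with
  | zero => intro _; simp [Nat.mod_pow_succ]
  | succ J ih =>
    intro h
    rw [ih (by omega), sum_range_succ _ (J + 1), show j - J = j - (J + 1) + 1 by omega,
      Nat.mod_pow_succ]
    ring

lemma carry {b : ℕ} (hb : 0 < b) (u c x Q : ℕ) {J j : ℕ} (hJ : J ≤ j) (G : Finset ℕ)
    (hG : G ⊆ range (J + 1)) (Bf : ℕ → ℤ) {X : ℝ}
    (h1 : ∀ i ∈ range (J + 1) \ G, (b : ℤ) ^ (i + 1) ∣ Q * u - Bf i)
    (h2 : ∑ i ∈ range (J + 1) \ G, (|Bf i| : ℝ) * b / (b : ℝ) ^ i ≤ X) :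
    ∃ e : ℤ, (|e| : ℝ) ≤ Q * (1 + G.card) + X ∧
      (b : ℤ) ∣ Q * ((((u * x + c) / b ^ j : ℕ) : ℤ) - ((u * (x % b ^ (j - J)) + c) / b ^ j : ℕ) -
        (∑ i ∈ G, u * (x / b ^ (j - i) % b) / b ^ i : ℕ)) - e := by
  set z : ℕ → ℕ := fun i => x / b ^ (j - i) % b with hz
  set T := u * x + c with hT
  set P := u * (x % b ^ (j - J)) + c with hP
  have hb' : (0 : ℝ) < b := by exact_mod_cast hb
  have hi : ∀ i ∈ range (J + 1), (b : ℤ) ^ (j - i) * b ^ i = b ^ j := fun i hi => by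
    rw [← pow_add, Nat.sub_add_cancel (by have := mem_range.1 hi; omega)]
  have e1 : (T : ℤ) = P + ∑ i ∈ range (J + 1), (b : ℤ) ^ (j - i) * (u * z i) +
      b ^ (j + 1) * (u * (x / b ^ (j + 1) : ℕ)) := by
    have a1 := Nat.mod_add_div x (b ^ (j + 1))
    rw [expand b x j J hJ] at a1
    have a2 : T = P + ∑ i ∈ range (J + 1), b ^ (j - i) * (u * z i) +
        b ^ (j + 1) * (u * (x / b ^ (j + 1))) := by
      rw [hT, hP]
      conv_lhs => rw [← a1]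
      rw [mul_add, mul_add, mul_sum, sum_congr rfl fun i _ => mul_left_comm _ _ _]
      ring
    exact_mod_cast a2
  have e2 : ∑ i ∈ G, (b : ℤ) ^ (j - i) * (u * z i) = b ^ j * (∑ i ∈ G, u * z i / b ^ i : ℕ) +
      ∑ i ∈ G, (b : ℤ) ^ (j - i) * (u * z i % b ^ i : ℕ) := by
    rw [Nat.cast_sum, mul_sum, ← sum_add_distrib]
    refine sum_congr rfl fun i hi' => ?_
    have : (b : ℤ) ^ i * (u * z i / b ^ i : ℕ) + (u * z i % b ^ i : ℕ) = u * z i := by
      exact_mod_cast Nat.div_add_mod (u * z i) (b ^ i)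
    rw [← hi i (hG hi'), ← this]
    ring
  have e3 : (b : ℤ) ^ (j + 1) ∣ Q * ∑ i ∈ range (J + 1) \ G, (b : ℤ) ^ (j - i) * (u * z i) -
      ∑ i ∈ range (J + 1) \ G, (b : ℤ) ^ (j - i) * (Bf i * z i) := by
    rw [mul_sum, ← sum_sub_distrib]
    refine dvd_sum fun i hi' => ?_
    have : Q * ((b : ℤ) ^ (j - i) * (u * z i)) - (b : ℤ) ^ (j - i) * (Bf i * z i) =
        (b : ℤ) ^ (j - i) * (Q * u - Bf i) * z i := by ring
    rw [this, pow_succ, ← hi i (mem_sdiff.1 hi').1, mul_assoc, ← pow_succ]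
    exact (mul_dvd_mul_left _ (h1 i hi')).mul_right _
  obtain ⟨k, hk⟩ := e3
  have e4 : (b : ℤ) ^ j * (T / b ^ j : ℕ) + (T % b ^ j : ℕ) = T := by
    exact_mod_cast Nat.div_add_mod T (b ^ j)
  have e5 : (b : ℤ) ^ j * (P / b ^ j : ℕ) + (P % b ^ j : ℕ) = P := by
    exact_mod_cast Nat.div_add_mod P (b ^ j)
  rw [← sum_sdiff hG, e2] at e1
  refine ⟨Q * (((T / b ^ j : ℕ) : ℤ) - (P / b ^ j : ℕ) - (∑ i ∈ G, u * z i / b ^ i : ℕ)) -
    b * (k + Q * (u * (x / b ^ (j + 1) : ℕ))), ?_, ⟨_, sub_sub_cancel _ _⟩⟩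
  generalize he : Q * (((T / b ^ j : ℕ) : ℤ) - (P / b ^ j : ℕ) -
    (∑ i ∈ G, u * z i / b ^ i : ℕ)) - b * (k + Q * (u * (x / b ^ (j + 1) : ℕ))) = e
  have e6 : (b : ℤ) ^ j * e = Q * (((P % b ^ j : ℕ) : ℤ) - (T % b ^ j : ℕ) +
      ∑ i ∈ G, (b : ℤ) ^ (j - i) * (u * z i % b ^ i : ℕ)) +
      ∑ i ∈ range (J + 1) \ G, (b : ℤ) ^ (j - i) * (Bf i * z i) := by
    rw [← he]
    linear_combination Q * e4 - Q * e5 + Q * e1 + hk
  have f1 : |((P % b ^ j : ℕ) : ℤ) - (T % b ^ j : ℕ)| ≤ (b : ℤ) ^ j := by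
    have a1 : ((P % b ^ j : ℕ) : ℤ) < (b : ℤ) ^ j := by exact_mod_cast Nat.mod_lt _ (pow_pos hb _)
    have a2 : ((T % b ^ j : ℕ) : ℤ) < (b : ℤ) ^ j := by exact_mod_cast Nat.mod_lt _ (pow_pos hb _)
    have a3 : (0 : ℤ) ≤ (P % b ^ j : ℕ) := by positivity
    have a4 : (0 : ℤ) ≤ (T % b ^ j : ℕ) := by positivity
    rw [abs_le]; constructor <;> linarith
  have f2 : |∑ i ∈ G, (b : ℤ) ^ (j - i) * (u * z i % b ^ i : ℕ)| ≤ G.card * (b : ℤ) ^ j := by
    rw [abs_of_nonneg (sum_nonneg fun i _ => by positivity), ← nsmul_eq_mul, ← sum_const]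
    refine sum_le_sum fun i hi' => ?_
    rw [← hi i (hG hi')]
    have : ((u * z i % b ^ i : ℕ) : ℤ) < (b : ℤ) ^ i := by
      exact_mod_cast Nat.mod_lt _ (pow_pos hb _)
    exact mul_le_mul_of_nonneg_left this.le (by positivity)
  have f3 : ((|∑ i ∈ range (J + 1) \ G, (b : ℤ) ^ (j - i) * (Bf i * z i)| : ℤ) : ℝ) ≤
      X * (b : ℝ) ^ j := by
    refine le_trans ?_ (mul_le_mul_of_nonneg_right h2 (by positivity))
    push_cast
    rw [sum_mul]
    refine (abs_sum_le_sum_abs _ _).trans (sum_le_sum fun i hi' => ?_)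
    have a1 : (b : ℝ) ^ (j - i) * b ^ i = b ^ j := by exact_mod_cast hi i (mem_sdiff.1 hi').1
    have a2 : (z i : ℝ) ≤ b := by exact_mod_cast (Nat.mod_lt _ hb).le
    rw [← a1, abs_mul, abs_mul, abs_of_nonneg (by positivity : (0 : ℝ) ≤ (b : ℝ) ^ (j - i)),
      abs_of_nonneg (by positivity : (0 : ℝ) ≤ z i)]
    calc _ ≤ (b : ℝ) ^ (j - i) * (|(Bf i : ℝ)| * b) := by gcongr
      _ = _ := by field_simp
  have f4 : (b : ℤ) ^ j * |e| ≤ Q * ((b : ℤ) ^ j + G.card * (b : ℤ) ^ j) +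
      |∑ i ∈ range (J + 1) \ G, (b : ℤ) ^ (j - i) * (Bf i * z i)| := by
    rw [← abs_of_nonneg (by positivity : (0 : ℤ) ≤ (b : ℤ) ^ j), ← abs_mul, e6]
    refine (abs_add_le _ _).trans (add_le_add_left ?_ _)
    rw [abs_mul, abs_of_nonneg (by positivity : (0 : ℤ) ≤ Q),
      abs_of_nonneg (by positivity : (0 : ℤ) ≤ (b : ℤ) ^ j)]
    exact mul_le_mul_of_nonneg_left ((abs_add_le _ _).trans (add_le_add f1 f2)) (by positivity)
  have f5 : (b : ℝ) ^ j * |(e : ℝ)| ≤ Q * ((b : ℝ) ^ j + G.card * (b : ℝ) ^ j) +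
      ((|∑ i ∈ range (J + 1) \ G, (b : ℤ) ^ (j - i) * (Bf i * z i)| : ℤ) : ℝ) := by
    exact_mod_cast f4
  refine le_of_mul_le_mul_left ?_ (pow_pos hb' j)
  linarith

end Pool.Agent.MP_5a7e96_nt.H37
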