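import Pool.Agent.MP_5a7e96_nt.H37.Step

/-!
Iteration of the entropy decrement and the Hausdorff dimension of the exceptional sets.
-/

namespace Pool.Agent.MP_5a7e96_nt.H37

open Finset Filter Topology MeasureTheory
open scoped ENNReal NNReal

/-- The language attached to a list of exponents. -/
noncomputable def lang (p w ω a : ℕ) : List ℕ → ℕ → Finset ℕ
  | [] => fun t => range (p ^ t)
  | m :: l => nxt p w ω (a ^ m) (lang p w ω a l)

lemma lang_lang {p : ℕ} (hp : 0 < p) (w ω a : ℕ) : ∀ l, Lang p (lang p w ω a l)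
  | [] =>
    { lt := fun _ _ hx => mem_range.1 hx
      lo := fun _ _ _ _ => mem_range.2 (Nat.mod_lt _ (pow_pos hp _))
      hi := fun t s x hx => mem_range.2 ((Nat.div_lt_iff_lt_mul (pow_pos hp _)).2 (by
        rw [← pow_add, add_comm]; exact mem_range.1 hx)) }
  | _ :: l => (lang_lang hp w ω a l).nxt hp _ _ _

lemma cover {p a : ℕ} (hp : p.Prime) (ha : 2 ≤ a) (hpa : ¬ p ∣ a) {w ω : ℕ} (hw : 1 ≤ w)
    (hω : ω < p ^ w) {δ : ℝ} (hδ : 0 < δ) (V : ℕ → ℕ → ℕ) (hV : ∀ T t, V T t < p ^ t)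
    (h : ∀ m0, ∃ m, m0 ≤ m ∧ ∃ T, ∀ T', T ≤ T' → ∀ t, ∃ c < a ^ m,
      Av p w ω (a ^ m * V T' t + c) t) :
    ∃ l T, Ent (lang p w ω a l) δ ∧ ∀ t, V T t ∈ lang p w ω a l t := by
  obtain ⟨ε, hε, hdec⟩ := decrement hp ha hpa hw hω hδ
  have key : ∀ n : ℕ, ∃ l T, Ent (lang p w ω a l) (max δ (p - n * ε)) ∧
      ∀ T', T ≤ T' → ∀ t, V T' t ∈ lang p w ω a l t := by
    intro n
    induction n with
    | zero =>
      refine ⟨[], 0, ⟨1, le_rfl, fun t => ?_⟩, fun T' _ t => mem_range.2 (hV T' t)⟩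
      simp only [lang, card_range, one_mul, Nat.cast_zero, zero_mul, sub_zero, Nat.cast_pow]
      rw [mul_comm, Real.exp_nat_mul]
      refine pow_le_pow_left₀ (by positivity) ?_ _
      linarith [Real.add_one_le_exp (max δ (p : ℝ)), le_max_right δ (p : ℝ)]
    | succ n ih =>
      obtain ⟨l, T, h1, h2⟩ := ih
      rcases le_total (p - n * ε) δ with hc | hc
      · rw [max_eq_left hc] at h1
        exact ⟨l, T, h1.mono (fun _ => subset_rfl) (le_max_left _ _), h2⟩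
      · rw [max_eq_right hc] at h1
        obtain ⟨m0, hm0⟩ := hdec _ _ (lang_lang hp.pos w ω a l) hc h1
        obtain ⟨m, hm, T1, hT1⟩ := h m0
        refine ⟨m :: l, max T T1, (hm0 m hm).mono (fun _ => subset_rfl)
          (le_trans (le_of_eq (by push_cast; ring)) (le_max_right _ _)), fun T' hT' t => ?_⟩
        exact mem_nxt.2 ⟨h2 T' (le_of_max_le_left hT') t, hT1 T' (le_of_max_le_right hT') t⟩
  obtain ⟨n, hn⟩ := exists_nat_ge ((p : ℝ) / ε)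
  obtain ⟨l, T, h1, h2⟩ := key n
  rw [div_le_iff₀ hε] at hn
  rw [max_eq_left (by linarith)] at h1
  exact ⟨l, T, h1, h2 T le_rfl⟩

lemma exists_word {p g v ω : ℕ} (hp : 0 < p) (hv : v ≤ g) (hω : ω < p ^ v) : ∀ n : ℕ,
    ∃ Ω, Ω < p ^ (n * g) ∧ ∀ r < n, Ω / p ^ (r * g) % p ^ v = ω := by
  have hg : ω < p ^ g := hω.trans_le (Nat.pow_le_pow_right hp hv)
  intro n
  induction n with
  | zero => exact ⟨0, by simp, by simp⟩
  | succ n ih =>
    obtain ⟨Ω, h1, h2⟩ := ih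
    refine ⟨ω + p ^ g * Ω, ?_, fun r hr => ?_⟩
    · have : p ^ g * (Ω + 1) ≤ p ^ g * p ^ (n * g) := Nat.mul_le_mul_left _ h1
      rw [← pow_add, mul_add] at this
      rw [add_mul, one_mul, add_comm (n * g)]
      omega
    · rcases r with _ | r
      · obtain ⟨k, rfl⟩ := Nat.exists_eq_add_of_le hv
        rw [zero_mul, pow_zero, Nat.div_one, pow_add, mul_assoc, Nat.add_mul_mod_self_left,
          Nat.mod_eq_of_lt hω]
      · rw [add_mul, one_mul, add_comm (r * g), pow_add, ← Nat.div_div_eq_div_mul,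
          Nat.add_mul_div_left _ _ (pow_pos hp _), Nat.div_eq_of_lt hg, zero_add]
        exact h2 r (by omega)

lemma cover_aligned {p a : ℕ} (hp : p.Prime) (ha : 2 ≤ a) (hpa : ¬ p ∣ a) {e w ω : ℕ} (he : 0 < e)
    (hω : ω < (p ^ e) ^ w) {δ : ℝ} (hδ : 0 < δ) :
    ∃ F : List ℕ → ℕ → Finset ℕ, ∀ V : ℕ → ℕ → ℕ, (∀ T t, V T t < p ^ t) →
      (∀ m0, ∃ m, m0 ≤ m ∧ ∃ T, ∀ T', T ≤ T' → ∀ t, ∃ c < a ^ m, ∃ ρ, ∀ j, j + e * w ≤ t →
        e ∣ j + ρ → (a ^ m * V T' t + c) / p ^ j % p ^ (e * w) ≠ ω) →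
      ∃ l T, Ent (F l) δ ∧ ∀ t, V T t ∈ F l t := by
  rw [← pow_mul] at hω
  obtain ⟨Ω, h1, h2⟩ := exists_word (g := e * w + 1) hp.pos (Nat.le_succ _) hω e
  refine ⟨lang p (e * (e * w + 1)) Ω a, fun V hV h =>
    cover hp ha hpa (w := e * (e * w + 1)) (Nat.mul_pos he (Nat.succ_pos _)) h1 hδ V hV fun m0 => ?_⟩
  obtain ⟨m, hm, T, hT⟩ := h m0
  refine ⟨m, hm, T, fun T' hT' t => ?_⟩
  obtain ⟨c, hc, ρ, hρ⟩ := hT T' hT' t
  refine ⟨c, hc, fun j hj hj' => ?_⟩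
  obtain ⟨r, hr, hr'⟩ : ∃ r < e, e ∣ j + ρ + r := by
    refine ⟨(e - 1) * (j + ρ) % e, Nat.mod_lt _ he, ?_⟩
    rw [Nat.dvd_iff_mod_eq_zero, Nat.add_mod_mod]
    obtain ⟨e, rfl⟩ := Nat.exists_eq_add_of_le' he
    rw [Nat.add_sub_cancel, show j + ρ + e * (j + ρ) = (e + 1) * (j + ρ) by ring, Nat.mul_mod_right]
  have h3 : r * (e * w + 1) + e * w ≤ e * (e * w + 1) := by
    have : (r + 1) * (e * w + 1) ≤ e * (e * w + 1) := Nat.mul_le_mul_right _ hr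
    rw [add_mul] at this
    omega
  refine hρ (j + r * (e * w + 1)) (by omega) ?_ ?_
  · rw [show j + r * (e * w + 1) + ρ = j + ρ + r + e * (r * w) by ring]
    exact dvd_add hr' (dvd_mul_right _ _)
  · rw [pow_add, ← Nat.div_div_eq_div_mul, ← h2 r hr]
    exact win_of_mod h3 (by rw [hj', Nat.mod_eq_of_lt h1])

lemma dimH_le_of_cover {X : Type*} [MetricSpace X] {p : ℕ} (hp : 2 ≤ p) {F : ℕ → Finset ℕ}
    {d : ℝ≥0} (hF : Ent F (d * Real.log p)) (s : Set X) (V : X → ℕ → ℕ)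
    (h1 : ∀ x ∈ s, ∀ t, V x t ∈ F t)
    (h2 : ∀ x ∈ s, ∀ y ∈ s, ∀ t, V x t = V y t → dist x y ≤ (1 / (p : ℝ)) ^ t) : dimH s ≤ d := by
  borelize X
  obtain ⟨C, hC, hF⟩ := hF
  have hp0 : (0 : ℝ) < p := by exact_mod_cast (by omega : 0 < p)
  have hp1 : (1 : ℝ) < p := by exact_mod_cast hp
  have hd : ∀ t (i : F t), Metric.ediam {x ∈ s | V x t = i} ≤ ENNReal.ofReal ((1 / (p : ℝ)) ^ t) :=
    fun t i => Metric.ediam_le_of_forall_dist_le fun x hx y hy =>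
      h2 x hx.1 y hy.1 t (hx.2.trans hy.2.symm)
  have h3 := Measure.hausdorffMeasure_le_liminf_sum (d : ℝ) s (l := atTop)
    (fun t : ℕ => ENNReal.ofReal ((1 / (p : ℝ)) ^ t)) (by
      rw [← ENNReal.ofReal_zero]
      exact ENNReal.tendsto_ofReal (tendsto_pow_atTop_nhds_zero_of_lt_one (by positivity)
        ((div_lt_one hp0).2 hp1)))
    (fun t (i : F t) => {x ∈ s | V x t = i}) (Eventually.of_forall hd)
    (Eventually.of_forall fun t x hx => Set.mem_iUnion.2 ⟨⟨V x t, h1 x hx t⟩, hx, rfl⟩)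
  refine dimH_le_of_hausdorffMeasure_ne_top (ne_top_of_le_ne_top
    (ENNReal.ofReal_ne_top (r := C)) (h3.trans (liminf_le_of_frequently_le'
      (Frequently.of_forall fun t => ?_))))
  refine (sum_le_sum fun i _ => ENNReal.rpow_le_rpow (hd t i) d.2).trans ?_
  rw [sum_const, card_univ, Fintype.card_coe, nsmul_eq_mul,
    ENNReal.ofReal_rpow_of_nonneg (by positivity) d.2, ← ENNReal.ofReal_natCast,
    ← ENNReal.ofReal_mul (by positivity)]
  refine ENNReal.ofReal_le_ofReal ((mul_le_mul_of_nonneg_right (hF t) (by positivity)).trans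
    (le_of_eq ?_))
  rw [Real.rpow_def_of_pos (by positivity), mul_assoc, ← Real.exp_add, Real.log_pow, one_div,
    Real.log_inv]
  simp only [NNReal.val_eq_coe]
  rw [show (d : ℝ) * Real.log p * t + t * -Real.log p * d = 0 by ring, Real.exp_zero, mul_one]

lemma dimH_zero {X : Type*} [MetricSpace X] {p a : ℕ} (hp : p.Prime) (ha : 2 ≤ a) (hpa : ¬ p ∣ a)
    {e w ω : ℕ} (he : 0 < e) (hω : ω < (p ^ e) ^ w) (s : Set X) (V : X → ℕ → ℕ → ℕ)
    (N : X → ℕ → ℕ) (hV : ∀ x T t, V x T t < p ^ t)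
    (h : ∀ x ∈ s, ∀ m0, ∃ m, m0 ≤ m ∧ ∃ T, ∀ T', T ≤ T' → ∀ t, ∃ c < a ^ m, ∃ ρ, ∀ j,
      j + e * w ≤ t → e ∣ j + ρ → (a ^ m * V x T' t + c) / p ^ j % p ^ (e * w) ≠ ω)
    (h2 : ∀ x ∈ s, ∀ y ∈ s, ∀ T t, N x T = N y T → V x T t = V y T t →
      dist x y ≤ (1 / (p : ℝ)) ^ t) : dimH s = 0 := by
  refine le_antisymm (ENNReal.le_of_forall_pos_le_add fun d hd _ => ?_) zero_le
  rw [zero_add]
  obtain ⟨F, hF⟩ := cover_aligned hp ha hpa he hω (δ := d * Real.log p)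
    (mul_pos hd (Real.log_pos (by exact_mod_cast hp.one_lt)))
  have h3 : s ⊆ ⋃ i : {l // Ent (F l) (d * Real.log p)} × ℕ × ℕ,
      {x ∈ s | N x i.2.1 = i.2.2 ∧ ∀ t, V x i.2.1 t ∈ F i.1 t} := by
    intro x hx
    obtain ⟨l, T, a1, a2⟩ := hF (V x) (hV x) (h x hx)
    exact Set.mem_iUnion.2 ⟨(⟨l, a1⟩, T, N x T), hx, rfl, a2⟩
  refine (dimH_mono h3).trans ?_
  rw [dimH_iUnion]
  exact iSup_le fun i => dimH_le_of_cover hp.two_le i.1.2 _ (fun x => V x i.2.1)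
    (fun x hx => hx.2.2) fun x hx y hy t => h2 x hx.1 y hy.1 _ t (hx.2.1.trans hy.2.1.symm)

lemma appr_mul_mod {p : ℕ} [Fact p.Prime] (x : ℤ_[p]) (u : ℕ) {n t : ℕ} (h : n ≤ t) :
    u * x.appr t % p ^ n = (x * u).appr n := by
  rw [← Nat.mod_eq_of_lt (PadicInt.appr_lt (x * (u : ℤ_[p])) n), ← ZMod.natCast_eq_natCast_iff']
  refine PadicInt.zmod_congr_of_sub_mem_span n (x * (u : ℤ_[p])) _ _ ?_ (PadicInt.appr_spec n _)
  have := Ideal.mem_span_singleton.1 (PadicInt.appr_spec t x)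
  rw [Ideal.mem_span_singleton, show x * u - ((u * x.appr t : ℕ) : ℤ_[p]) =
    (x - x.appr t) * u by push_cast; ring]
  exact ((pow_dvd_pow _ h).trans this).mul_right _

theorem padic {p : ℕ} [Fact p.Prime] {a : ℕ} (ha : 2 ≤ a) (hpa : ¬ p ∣ a) {e w ω : ℕ} (he : 0 < e)
    (hω : ω < (p ^ e) ^ w) :
    dimH {x : ℤ_[p] | {k : ℕ | {j : ℕ |
      (x * (a : ℤ_[p]) ^ k).appr (e * (j + w)) / (p ^ e) ^ j = ω}.Finite}.Infinite} = 0 := by
  have hp : p.Prime := Fact.out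
  refine dimH_zero hp ha hpa he hω _ (fun x T t => x.appr (T + t) / p ^ T)
    (fun x T => x.appr T) (fun x T t => ?_) (fun x hx m0 => ?_) fun x _ y _ T t h1 h2 => ?_
  · rw [Nat.div_lt_iff_lt_mul (pow_pos hp.pos _), ← pow_add, add_comm t]
    exact PadicInt.appr_lt _ _
  · obtain ⟨m, hm, hm0⟩ := Set.Infinite.exists_gt hx m0
    obtain ⟨T, hT⟩ := Set.Finite.bddAbove hm
    refine ⟨m, hm0.le, e * (T + 1), fun T' hT' t => ?_⟩
    have hb : 0 < p ^ T' := pow_pos hp.pos _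
    refine ⟨a ^ m * (x.appr (T' + t) % p ^ T') / p ^ T', ?_, T', fun j hj ⟨i, hi⟩ hh => ?_⟩
    · rw [Nat.div_lt_iff_lt_mul hb]
      exact Nat.mul_lt_mul_of_pos_left (Nat.mod_lt _ hb) (pow_pos (by omega) _)
    · have e1 : a ^ m * (x.appr (T' + t) / p ^ T') + a ^ m * (x.appr (T' + t) % p ^ T') / p ^ T' =
          a ^ m * x.appr (T' + t) / p ^ T' := by
        conv_rhs => rw [← Nat.div_add_mod (x.appr (T' + t)) (p ^ T'), mul_add, mul_left_comm,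
          Nat.mul_add_div hb]
      beta_reduce at hh
      rw [e1, Nat.div_div_eq_div_mul, ← pow_add, ← Nat.mod_mul_right_div_self, ← pow_add,
        appr_mul_mod x _ (by omega), add_comm T', hi, ← mul_add, pow_mul] at hh
      push_cast at hh
      have a1 : i ≤ T := hT hh
      have a2 : e * i ≤ e * T := Nat.mul_le_mul_left _ a1
      rw [mul_add] at hT'
      omega
  · have a1 : ∀ z : ℤ_[p], z.appr (T + t) % p ^ T = z.appr T := fun z => by
      simpa using appr_mul_mod z 1 (Nat.le_add_right T t)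
    have a2 : x.appr (T + t) = y.appr (T + t) := by
      rw [← Nat.div_add_mod (x.appr (T + t)) (p ^ T), ← Nat.div_add_mod (y.appr (T + t)) (p ^ T),
        a1, a1]
      beta_reduce at h1 h2
      rw [h1, h2]
    have a3 := Ideal.sub_mem _ (PadicInt.appr_spec (T + t) x) (PadicInt.appr_spec (T + t) y)
    rw [a2, sub_sub_sub_cancel_right] at a3
    have a4 : x - y ∈ Ideal.span {(p : ℤ_[p]) ^ t} := Ideal.mem_span_singleton.2
      ((pow_dvd_pow _ (Nat.le_add_left t T)).trans (Ideal.mem_span_singleton.1 a3))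
    rw [dist_eq_norm, one_div, inv_pow, ← zpow_natCast, ← zpow_neg]
    exact (PadicInt.norm_le_pow_iff_mem_span_pow _ _).2 a4

theorem real {p : ℕ} (hp : p.Prime) {a : ℕ} (ha : 2 ≤ a) (hpa : ¬ p ∣ a) {e w ω : ℕ} (he : 0 < e)
    (hω : ω < (p ^ e) ^ w) :
    dimH {x : ℝ | 0 ≤ x ∧ {k : ℕ | {j : ℕ |
      ⌊x * (a : ℝ) ^ k * ((p : ℝ) ^ e) ^ j⌋₊ % (p ^ e) ^ w = ω}.Finite}.Infinite} = 0 := by
  have hp0 : (0 : ℝ) < p := by exact_mod_cast hp.pos
  have hfl : ∀ (y : ℝ) (i j : ℕ), ⌊y * (p : ℝ) ^ (i + j)⌋₊ / p ^ j = ⌊y * (p : ℝ) ^ i⌋₊ := by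
    intro y i j
    rw [← Nat.floor_div_natCast]
    congr 1
    push_cast
    rw [pow_add]
    field_simp
  refine dimH_zero hp ha hpa he hω _ (fun x T t => ⌊x * (p : ℝ) ^ (T + t)⌋₊ % p ^ t)
    (fun x T => ⌊x * (p : ℝ) ^ T⌋₊) (fun x T t => Nat.mod_lt _ (pow_pos hp.pos _))
    (fun x hx m0 => ?_) fun x hx y hy T t h1 h2 => ?_
  · obtain ⟨m, hm, hm0⟩ := Set.Infinite.exists_gt hx.2 m0
    obtain ⟨T, hT⟩ := Set.Finite.bddAbove hm
    refine ⟨m, hm0.le, e * (T + 1), fun T' hT' t => ?_⟩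
    have hy0 : 0 ≤ x * (p : ℝ) ^ (T' + t) := mul_nonneg hx.1 (by positivity)
    generalize hy : x * (p : ℝ) ^ (T' + t) = y at hy0
    have ha0 : (0 : ℝ) < (a ^ m : ℕ) := by positivity
    have b1 := Nat.floor_le hy0
    have b2 := Nat.lt_floor_add_one y
    refine ⟨⌊((a ^ m : ℕ) : ℝ) * (y - ⌊y⌋₊)⌋₊, ?_, (e - 1) * (T' + t), fun j hj hd hh => ?_⟩
    · rw [Nat.floor_lt (mul_nonneg ha0.le (by linarith))]
      exact mul_lt_of_lt_one_right ha0 (by linarith)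
    · have e1 : a ^ m * ⌊y⌋₊ + ⌊((a ^ m : ℕ) : ℝ) * (y - ⌊y⌋₊)⌋₊ = ⌊((a ^ m : ℕ) : ℝ) * y⌋₊ := by
        rw [add_comm, ← Nat.floor_add_natCast (mul_nonneg ha0.le (by linarith))]
        congr 1
        push_cast
        ring
      obtain ⟨i, hi⟩ : e ∣ T' + t - j := by
        refine (Nat.dvd_add_iff_right hd).2 ?_
        obtain ⟨e, rfl⟩ := Nat.exists_eq_add_of_le' he
        rw [Nat.add_sub_cancel, show j + e * (T' + t) + (T' + t - j) = e * (T' + t) + (T' + t) by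
          omega]
        exact ⟨T' + t, by ring⟩
      rw [win_of_mod (b := a ^ m * ⌊y⌋₊ + ⌊((a ^ m : ℕ) : ℝ) * (y - ⌊y⌋₊)⌋₊) hj
        (((Nat.mod_modEq _ _).mul_left _).add_right _), e1, ← hy,
        show T' + t = e * i + j by omega, ← mul_assoc, hfl, mul_comm _ x, pow_mul, pow_mul] at hh
      push_cast at hh
      have a1 : i ≤ T := hT hh
      have a2 : e * i ≤ e * T := Nat.mul_le_mul_left _ a1
      rw [mul_add] at hT'
      omega
  · have a2 : ⌊x * (p : ℝ) ^ (T + t)⌋₊ = ⌊y * (p : ℝ) ^ (T + t)⌋₊ := by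
      rw [← Nat.div_add_mod ⌊x * (p : ℝ) ^ (T + t)⌋₊ (p ^ t),
        ← Nat.div_add_mod ⌊y * (p : ℝ) ^ (T + t)⌋₊ (p ^ t), hfl, hfl]
      beta_reduce at h1 h2
      rw [h1, h2]
    have hb : (0 : ℝ) < (p : ℝ) ^ (T + t) := by positivity
    have b1 := Nat.floor_le (mul_nonneg hx.1 hb.le)
    have b2 := Nat.lt_floor_add_one (x * (p : ℝ) ^ (T + t))
    have b3 := Nat.floor_le (mul_nonneg hy.1 hb.le)
    have b4 := Nat.lt_floor_add_one (y * (p : ℝ) ^ (T + t))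
    rw [a2] at b1 b2
    have b5 : |x - y| * (p : ℝ) ^ (T + t) ≤ 1 := by
      rw [← abs_of_pos hb, ← abs_mul, sub_mul, abs_le]
      constructor <;> linarith
    rw [Real.dist_eq, one_div, inv_pow, ← one_div, le_div_iff₀ (by positivity)]
    refine le_trans (mul_le_mul_of_nonneg_left (pow_le_pow_right₀ ?_ (Nat.le_add_left t T))
      (abs_nonneg _)) b5
    exact_mod_cast hp.pos

end Pool.Agent.MP_5a7e96_nt.H37
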