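import Mathlib

/-!
Counting tools: a conditional form of Shearer's inequality and a supermartingale bound on trees.
-/

namespace Pool.Agent.MP_5a7e96_nt.H37

open Finset

lemma sum_inv_le {α γ : Type*} [DecidableEq γ] (S : Finset α) (κ : α → γ) (T : Finset γ)
    (hT : ∀ x ∈ S, κ x ∈ T) (n : α → ℕ)
    (hn : ∀ x ∈ S, (S.filter (fun y => κ y = κ x)).card ≤ n x) :
    ∑ x ∈ S, 1 / (n x : ℝ) ≤ T.card := by
  rw [← sum_fiberwise_of_maps_to hT, card_eq_sum_ones, Nat.cast_sum]
  refine sum_le_sum fun t _ => ?_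
  rcases (S.filter (fun y => κ y = t)).eq_empty_or_nonempty with h | h
  · rw [h]; simp
  · have hc : (0 : ℝ) < (S.filter (fun y => κ y = t)).card := by exact_mod_cast h.card_pos
    calc ∑ x ∈ S.filter (fun y => κ y = t), 1 / (n x : ℝ)
        ≤ ∑ x ∈ S.filter (fun y => κ y = t), 1 / ((S.filter (fun y => κ y = t)).card : ℝ) := by
          refine sum_le_sum fun x hx => ?_
          obtain ⟨h1, h2⟩ := mem_filter.1 hx
          have := hn x h1
          rw [h2] at this
          exact one_div_le_one_div_of_le hc (by exact_mod_cast this)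
      _ = ((1 : ℕ) : ℝ) := by rw [sum_const, nsmul_eq_mul]; field_simp; simp

lemma sum_log_le {α : Type*} (S : Finset α) (f : α → ℝ) (hf : ∀ x ∈ S, 0 < f x)
    (h : ∑ x ∈ S, f x ≤ S.card) : ∑ x ∈ S, Real.log (f x) ≤ 0 := by
  have : ∑ x ∈ S, Real.log (f x) ≤ ∑ x ∈ S, (f x - 1) :=
    sum_le_sum fun x hx => Real.log_le_sub_one_of_pos (hf x hx)
  rw [sum_sub_distrib] at this
  simp only [sum_const, nsmul_eq_mul, mul_one] at this
  linarith

section Shearer

variable {α β : Type*} [DecidableEq β] (S : Finset α) (c : ℕ → α → β)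

/-- Number of elements of `S` that agree with `x` on the coordinates in `I`. -/
def cnt (I : Finset ℕ) (x : α) : ℕ := (S.filter (fun y => ∀ i ∈ I, c i y = c i x)).card

/-- Minus the entropy of the coordinates in `I`, up to normalisation. -/
noncomputable def ent (I : Finset ℕ) : ℝ := ∑ x ∈ S, Real.log (cnt S c I x)

lemma cnt_pos (I : Finset ℕ) {x : α} (hx : x ∈ S) : (0 : ℝ) < cnt S c I x := by
  have : 0 < cnt S c I x := card_pos.2 ⟨x, mem_filter.2 ⟨hx, fun _ _ => rfl⟩⟩
  exact_mod_cast this

lemma cnt_congr (I : Finset ℕ) {x y : α} (h : ∀ i ∈ I, c i x = c i y) :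
    cnt S c I x = cnt S c I y := by
  unfold cnt
  congr 1
  exact filter_congr fun z _ => forall₂_congr fun i hi => by rw [h i hi]

lemma cnt_eq_sum (I : Finset ℕ) (x : α) :
    (cnt S c I x : ℝ) = ∑ y ∈ S, if ∀ i ∈ I, c i y = c i x then (1 : ℝ) else 0 := by
  simp [cnt]

lemma ent_submod {T U : Finset ℕ} (hTU : T ⊆ U) (k : ℕ) :
    ent S c U - ent S c (insert k U) ≤ ent S c T - ent S c (insert k T) := by
  classical
  have key : ∑ x ∈ S, ((cnt S c U x : ℝ) * cnt S c (insert k T) x /
      (cnt S c (insert k U) x * cnt S c T x)) ≤ S.card := by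
    have e1 : ∀ x ∈ S, ((cnt S c U x : ℝ) * cnt S c (insert k T) x /
        (cnt S c (insert k U) x * cnt S c T x)) = ∑ y ∈ S, ∑ z ∈ S,
          if (∀ i ∈ U, c i y = c i x) ∧ (∀ i ∈ insert k T, c i z = c i x) then
            1 / (cnt S c (insert k U) x : ℝ) * (1 / cnt S c T y) else 0 := by
      intro x _
      rw [cnt_eq_sum S c U x, cnt_eq_sum S c (insert k T) x, sum_mul_sum, sum_div]
      refine sum_congr rfl fun y _ => ?_
      rw [sum_div]
      refine sum_congr rfl fun z _ => ?_
      by_cases h1 : ∀ i ∈ U, c i y = c i x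
      · by_cases h2 : ∀ i ∈ insert k T, c i z = c i x
        · rw [if_pos h1, if_pos h2, if_pos ⟨h1, h2⟩,
            cnt_congr S c T (x := y) (y := x) (fun i hi => h1 i (hTU hi))]
          rw [one_mul, one_div_mul_one_div]
        · rw [if_neg h2, if_neg (fun h => h2 (And.right h))]; simp
      · rw [if_neg h1, zero_mul, zero_div, if_neg (fun h => h1 (And.left h))]
    rw [sum_congr rfl e1, sum_comm, card_eq_sum_ones, Nat.cast_sum]
    refine sum_le_sum fun y hy => ?_
    rw [sum_comm]
    have e2 : ∀ z ∈ S, (∑ x ∈ S,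
        if (∀ i ∈ U, c i y = c i x) ∧ (∀ i ∈ insert k T, c i z = c i x) then
          1 / (cnt S c (insert k U) x : ℝ) * (1 / cnt S c T y) else 0) ≤
        (if ∀ i ∈ T, c i z = c i y then (1 : ℝ) else 0) * (1 / cnt S c T y) := by
      intro z _
      rw [← sum_filter, ← sum_mul]
      refine mul_le_mul_of_nonneg_right ?_ (by positivity)
      split_ifs with h
      · have := sum_inv_le (S.filter fun x =>
          (∀ i ∈ U, c i y = c i x) ∧ (∀ i ∈ insert k T, c i z = c i x)) (fun _ => ()) {()}
          (by simp) (cnt S c (insert k U)) (fun x hx => card_le_card fun x' hx' => by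
            obtain ⟨-, a1, a2⟩ := mem_filter.1 hx
            obtain ⟨b0, b1, b2⟩ := mem_filter.1 (mem_filter.1 hx').1
            refine mem_filter.2 ⟨b0, fun i hi => ?_⟩
            rcases mem_insert.1 hi with rfl | hi
            · rw [← a2 _ (mem_insert_self _ _), ← b2 _ (mem_insert_self _ _)]
            · rw [← a1 i hi, ← b1 i hi])
        simpa using this
      · rw [filter_eq_empty_iff.2, sum_empty]
        rintro x - ⟨a1, a2⟩
        exact h fun i hi => by rw [a1 i (hTU hi), a2 i (mem_insert_of_mem hi)]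
    refine (sum_le_sum e2).trans ?_
    rw [← sum_mul, ← cnt_eq_sum]
    have := cnt_pos S c T hy
    rw [mul_one_div_cancel this.ne']
    simp
  have := sum_log_le S _ (fun x hx => by
    have := cnt_pos S c U hx
    have := cnt_pos S c (insert k T) hx
    have := cnt_pos S c (insert k U) hx
    have := cnt_pos S c T hx
    positivity) key
  rw [sum_congr rfl (g := fun x => Real.log (cnt S c U x) + Real.log (cnt S c (insert k T) x) -
    (Real.log (cnt S c (insert k U) x) + Real.log (cnt S c T x)))] at this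
  · simp only [sum_sub_distrib, sum_add_distrib] at this
    unfold ent
    linarith
  · intro x hx
    have h1 := (cnt_pos S c U hx).ne'
    have h2 := (cnt_pos S c (insert k T) hx).ne'
    have h3 := (cnt_pos S c (insert k U) hx).ne'
    have h4 := (cnt_pos S c T hx).ne'
    rw [Real.log_div (mul_ne_zero h1 h2) (mul_ne_zero h3 h4), Real.log_mul h1 h2,
      Real.log_mul h3 h4]

lemma ent_chain (b : ℕ) (G : Finset ℕ) : (∀ k ∈ G, b ≤ k) →
    ∑ k ∈ G, (ent S c (range k) - ent S c (range (k + 1))) ≤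
      ent S c (range b) - ent S c (range b ∪ G) := by
  induction G using Finset.induction_on_max with
  | empty => simp
  | insert k G hk ih =>
    intro hb
    rw [sum_insert (fun h => lt_irrefl _ (hk k h)), union_insert, range_add_one]
    have h1 := ih fun i hi => hb i (mem_insert_of_mem hi)
    have h2 := ent_submod S c (T := range b ∪ G) (U := range k) (fun i hi => by
      have := hb k (mem_insert_self _ _)
      rcases mem_union.1 hi with hi | hi
      · exact mem_range.2 (by have := mem_range.1 hi; omega)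
      · exact mem_range.2 (hk i hi)) k
    linarith

lemma ent_bound {γ : Type*} [DecidableEq γ] (T U : Finset ℕ) (κ : α → γ) (K : ℝ) (hK : 0 < K)
    (hκ : ∀ x y, (∀ i ∈ T, c i y = c i x) → κ y = κ x → ∀ i ∈ U, c i y = c i x)
    (h : ∀ x ∈ S, ∃ T' : Finset γ, (T'.card : ℝ) ≤ K ∧
      ∀ y ∈ S, (∀ i ∈ T, c i y = c i x) → κ y ∈ T') :
    ent S c T - ent S c U ≤ S.card * Real.log K := by
  have key : ∑ x ∈ S, (cnt S c T x : ℝ) / (cnt S c U x * K) ≤ S.card := by
    have e1 : ∀ x ∈ S, (cnt S c T x : ℝ) / (cnt S c U x * K) =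
        ∑ y ∈ S, if ∀ i ∈ T, c i x = c i y then 1 / (cnt S c U x : ℝ) * (1 / K) else 0 := by
      intro x _
      rw [cnt_eq_sum S c T x, sum_div]
      refine sum_congr rfl fun y _ => ?_
      by_cases h1 : ∀ i ∈ T, c i y = c i x
      · rw [if_pos h1, if_pos (fun i hi => (h1 i hi).symm), one_div_mul_one_div]
      · rw [if_neg h1, if_neg (fun h => h1 fun i hi => (h i hi).symm)]; simp
    rw [sum_congr rfl e1, sum_comm, card_eq_sum_ones, Nat.cast_sum]
    refine sum_le_sum fun y hy => ?_
    obtain ⟨T', h1, h2⟩ := h y hy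
    rw [← sum_filter, ← sum_mul]
    have := sum_inv_le (S.filter fun x => ∀ i ∈ T, c i x = c i y) κ T'
      (fun x hx => h2 x (mem_filter.1 hx).1 (mem_filter.1 hx).2) (cnt S c U)
      (fun x hx => card_le_card fun x' hx' => by
        obtain ⟨a1, a2⟩ := mem_filter.1 hx'
        obtain ⟨a3, a4⟩ := mem_filter.1 a1
        refine mem_filter.2 ⟨a3, hκ x x' (fun i hi => ?_) a2⟩
        rw [a4 i hi, (mem_filter.1 hx).2 i hi])
    rw [mul_one_div, div_le_iff₀ hK]
    push_cast
    linarith
  have := sum_log_le S _ (fun x hx => by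
    have := cnt_pos S c U hx
    have := cnt_pos S c T hx
    positivity) key
  rw [sum_congr rfl (g := fun x => Real.log (cnt S c T x) -
    (Real.log (cnt S c U x) + Real.log K))] at this
  · simp only [sum_sub_distrib, sum_add_distrib, sum_const, nsmul_eq_mul] at this
    unfold ent
    linarith
  · intro x hx
    have h1 := (cnt_pos S c U hx).ne'
    have h4 := (cnt_pos S c T hx).ne'
    rw [Real.log_div h4 (mul_ne_zero h1 hK.ne'), Real.log_mul h1 hK.ne']

theorem shearer (hS : S.Nonempty) (n J : ℕ) (hJ : J ≤ n) (G : Finset ℕ) (hG : G ⊆ range (J + 1))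
    (A : Finset β) (hA0 : A.Nonempty) (hA : ∀ x ∈ S, ∀ k < n, c k x ∈ A)
    (hinj : ∀ x ∈ S, ∀ y ∈ S, (∀ k < n, c k y = c k x) → y = x) (K : ℝ) (hK : 0 < K)
    (h : ∀ j, J ≤ j → j < n → ∀ x ∈ S, ∃ T' : Finset (G → β), (T'.card : ℝ) ≤ K ∧
      ∀ y ∈ S, (∀ i < j - J, c i y = c i x) → (fun i : G => c (j - i) y) ∈ T') :
    G.card * Real.log S.card ≤ (n - J : ℝ) * Real.log K + G.card * J * Real.log A.card := by
  classical
  have hSc : (0 : ℝ) < S.card := by exact_mod_cast hS.card_pos
  have hAc : (0 : ℝ) < A.card := by exact_mod_cast hA0.card_pos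
  set hh : ℕ → ℝ := fun k => ent S c (range k) - ent S c (range (k + 1)) with hhh
  have h1 : ∀ k < n, hh k ≤ S.card * Real.log A.card := fun k hk =>
    ent_bound S c _ _ (c k) _ hAc (fun x y a b i hi => by
      rw [range_add_one] at hi
      rcases mem_insert.1 hi with rfl | hi
      · exact b
      · exact a i hi) (fun x _ => ⟨A, le_rfl, fun y hy _ => hA y hy k hk⟩)
  have h2 : ∑ k ∈ range n, hh k = S.card * Real.log S.card := by
    rw [hhh, sum_range_sub' (fun k => ent S c (range k))]
    have e1 : ent S c (range 0) = S.card * Real.log S.card := by simp [ent, cnt]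
    have e2 : ent S c (range n) = 0 := by
      refine sum_eq_zero fun x hx => ?_
      have : cnt S c (range n) x = 1 := by
        refine card_eq_one.2 ⟨x, eq_singleton_iff_unique_mem.2
          ⟨mem_filter.2 ⟨hx, fun _ _ => rfl⟩, fun y hy => ?_⟩⟩
        obtain ⟨a, b⟩ := mem_filter.1 hy
        exact hinj x hx y a fun k hk => b k (mem_range.2 hk)
      rw [this]; simp
    rw [e1, e2, sub_zero]
  have h3 : ∀ j ∈ Ico J n, ∑ i ∈ G, hh (j - i) ≤ S.card * Real.log K := by
    intro j hj
    obtain ⟨j1, j2⟩ := mem_Ico.1 hj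
    have hi : ∀ i ∈ G, i ≤ J := fun i hi => by have := mem_range.1 (hG hi); omega
    rw [← sum_image (s := G) (g := fun i => j - i) (f := hh) (fun a ha b hb hab => by
      have := hi a ha; have := hi b hb; simp only at hab; omega)]
    refine (ent_chain S c (j - J) _ fun k hk => ?_).trans
      (ent_bound S c _ _ (fun y (i : G) => c (j - i) y) K hK (fun x y a b i hi => ?_)
        fun x hx => ?_)
    · obtain ⟨i, a, rfl⟩ := mem_image.1 hk
      have := hi i a
      omega
    · rcases mem_union.1 hi with hi | hi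
      · exact a i hi
      · obtain ⟨i, a, rfl⟩ := mem_image.1 hi
        exact congrFun b ⟨i, a⟩
    · obtain ⟨T', a, b⟩ := h j j1 j2 x hx
      exact ⟨T', a, fun y hy hy' => b y hy fun i hi => hy' i (mem_range.2 hi)⟩
  have h4 : ∀ i ∈ G, S.card * Real.log S.card ≤
      ∑ j ∈ Ico J n, hh (j - i) + J * (S.card * Real.log A.card) := by
    intro i hi
    have hiJ : i ≤ J := by have := mem_range.1 (hG hi); omega
    have a1 : ∑ j ∈ Ico J n, (S.card * Real.log A.card - hh (j - i)) ≤
        ∑ k ∈ range n, (S.card * Real.log A.card - hh k) := by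
      rw [← sum_image (s := Ico J n) (g := fun j => j - i)
        (f := fun k => S.card * Real.log A.card - hh k) (fun a ha b hb hab => by
          have := mem_Ico.1 (mem_coe.1 ha); have := mem_Ico.1 (mem_coe.1 hb)
          simp only at hab; omega)]
      refine sum_le_sum_of_subset_of_nonneg (fun k hk => ?_) fun k hk _ =>
        sub_nonneg.2 (h1 k (mem_range.1 hk))
      obtain ⟨j, a, rfl⟩ := mem_image.1 hk
      have := mem_Ico.1 a
      exact mem_range.2 (by omega)
    clear_value hh
    rw [sum_sub_distrib, sum_sub_distrib, h2, sum_const, sum_const, Nat.card_Ico, card_range,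
      nsmul_eq_mul, nsmul_eq_mul, Nat.cast_sub hJ] at a1
    linarith
  have h5 := sum_le_sum h4
  have h6 := sum_le_sum h3
  rw [sum_add_distrib, sum_comm, sum_const, sum_const, nsmul_eq_mul, nsmul_eq_mul] at h5
  rw [sum_const, Nat.card_Ico, nsmul_eq_mul, Nat.cast_sub hJ] at h6
  refine le_of_mul_le_mul_left ?_ hSc
  nlinarith

end Shearer

lemma tree {Ω γ : Type*} [DecidableEq γ] (X : Finset Ω) (π : ℕ → Ω → γ) (f : ℕ → Ω → ℝ)
    (M : ℝ) (hf : ∀ k x, 0 ≤ f k x) (hM : 0 ≤ M) (n : ℕ)
    (hm : ∀ k k', k < k' → ∀ x ∈ X, ∀ y ∈ X, π k' x = π k' y → f k x = f k y)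
    (hc : ∀ k, ∀ x ∈ X, ∑ y ∈ X.filter (fun y => π k y = π k x), f k y ≤
      M * (X.filter (fun y => π k y = π k x)).card) :
    ∑ x ∈ X, ∏ k ∈ range n, f k x ≤ X.card * M ^ n := by
  induction n with
  | zero => simp
  | succ n ih =>
    simp only [prod_range_succ]
    have h1 : ∑ x ∈ X, (∏ k ∈ range n, f k x) * f n x ≤ M * ∑ x ∈ X, ∏ k ∈ range n, f k x := by
      rw [← sum_fiberwise_of_maps_to (t := X.image (π n)) (fun x hx => mem_image_of_mem _ hx),
        ← sum_fiberwise_of_maps_to (s := X) (t := X.image (π n))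
          (fun x hx => mem_image_of_mem _ hx), mul_sum]
      refine sum_le_sum fun t ht => ?_
      obtain ⟨x, hx, rfl⟩ := mem_image.1 ht
      have e : ∀ y ∈ X.filter (fun y => π n y = π n x),
          ∏ k ∈ range n, f k y = ∏ k ∈ range n, f k x := fun y hy =>
        prod_congr rfl fun k hk => hm k n (mem_range.1 hk) y (mem_filter.1 hy).1 x hx
          (mem_filter.1 hy).2
      rw [sum_congr rfl fun y hy => by rw [e y hy], sum_congr rfl e, ← mul_sum, sum_const,
        nsmul_eq_mul]
      have h0 : 0 ≤ ∏ k ∈ range n, f k x := prod_nonneg fun k _ => hf k x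
      have := mul_le_mul_of_nonneg_left (hc n x hx) h0
      linarith
    refine h1.trans ?_
    rw [pow_succ]
    have := mul_le_mul_of_nonneg_left ih hM
    linarith

lemma sum_update {ι α : Type*} [Fintype ι] [DecidableEq ι] (B : ι → Finset α) (l : ι)
    (G : (ι → α) → ℝ) :
    ∑ g ∈ Fintype.piFinset B, ∑ b ∈ B l, G (Function.update g l b) =
      (B l).card * ∑ g ∈ Fintype.piFinset B, G g := by
  have hu : ∀ g ∈ Fintype.piFinset B, ∀ b ∈ B l, Function.update g l b ∈ Fintype.piFinset B := by
    intro g hg b hb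
    rw [Fintype.mem_piFinset] at hg ⊢
    intro i
    by_cases h : i = l
    · subst h; simpa using hb
    · rw [Function.update_of_ne h]; exact hg i
  have e : ((B l).card : ℝ) * ∑ g ∈ Fintype.piFinset B, G g =
      ∑ g ∈ Fintype.piFinset B, ∑ b ∈ B l, G g := by
    rw [mul_sum]; simp
  rw [e, ← sum_product', ← sum_product']
  refine sum_nbij' (fun x => (Function.update x.1 l x.2, x.1 l))
    (fun x => (Function.update x.1 l x.2, x.1 l)) ?_ ?_ ?_ ?_ ?_
  · intro x hx
    obtain ⟨a, b⟩ := mem_product.1 hx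
    exact mem_product.2 ⟨hu _ a _ b, Fintype.mem_piFinset.1 a l⟩
  · intro x hx
    obtain ⟨a, b⟩ := mem_product.1 hx
    exact mem_product.2 ⟨hu _ a _ b, Fintype.mem_piFinset.1 a l⟩
  · intro x _; simp
  · intro x _; simp
  · intro x _; rfl

end Pool.Agent.MP_5a7e96_nt.H37
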