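import Mathlib

/-!
A `p`-adic bound for a linear form in two logarithms: `v_p(q a^m - B) ≤ C H (log m)^2` when
`q, |B| ≤ p^H` and `H log m` is small compared with `m`.
-/

namespace Pool.Agent.MP_5a7e96_nt.H37

open Finset Polynomial

lemma diff_dvd (p : ℕ) (b : ℤ) (hb : (p : ℤ) ∣ b - 1) (d : ℕ) :
    ∀ (k : ℕ) (P : ℤ[X]), P.degree < k → ∀ z : ℕ,
      (p : ℤ) ^ (d - k) ∣ (fwdDiff 1)^[d] (fun z : ℕ => P.eval (z : ℤ) * b ^ z) z := by
  induction d with
  | zero => intro k P _ z; simp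
  | succ d ih =>
    intro k P hP z
    rcases Nat.eq_zero_or_pos k with rfl | hk
    · have h0 : P = 0 := by
        rw [← degree_eq_bot]
        simpa [Nat.WithBot.lt_zero_iff] using hP
      subst h0
      have : (fun z : ℕ => (0 : ℤ[X]).eval (z : ℤ) * b ^ z) = (0 : ℤ) • (fun _ : ℕ => (0 : ℤ)) := by
        funext z; simp
      rw [this, fwdDiff_iter_const_smul]
      simp
    · obtain ⟨k, rfl⟩ : ∃ k', k = k' + 1 := ⟨k - 1, by omega⟩
      have e : fwdDiff 1 (fun z : ℕ => P.eval (z : ℤ) * b ^ z) =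
          (fun z : ℕ => (taylor 1 P - P).eval (z : ℤ) * b ^ z) +
            (b - 1) • (fun z : ℕ => (taylor 1 P).eval (z : ℤ) * b ^ z) := by
        funext z
        simp only [fwdDiff, Pi.add_apply, Pi.smul_apply, smul_eq_mul, eval_sub, taylor_eval]
        push_cast
        ring
      have h1 : (taylor 1 P - P).degree < k := by
        by_cases h0 : P = 0
        · subst h0; simp
        · have h2 : (taylor 1 P - P).degree < (taylor 1 P).degree :=
            degree_sub_lt_left (degree_taylor P 1) (by simpa using h0) (leadingCoeff_taylor _ _)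
          rw [degree_taylor] at h2
          have h3 : P.degree ≤ k := by
            rw [degree_eq_natDegree h0] at hP ⊢
            exact_mod_cast Nat.lt_succ_iff.1 (by exact_mod_cast hP)
          exact lt_of_lt_of_le h2 h3
      have h2 : (taylor 1 P).degree < ((k + 1 : ℕ) : WithBot ℕ) := by rwa [degree_taylor]
      rw [Function.iterate_succ_apply, e, fwdDiff_iter_add, fwdDiff_iter_const_smul]
      simp only [Pi.add_apply, Pi.smul_apply, smul_eq_mul]
      refine dvd_add ?_ ?_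
      · have := ih k _ h1 z
        rwa [show d + 1 - (k + 1) = d - k by omega]
      · have := mul_dvd_mul hb (ih (k + 1) _ h2 z)
        rw [← pow_succ'] at this
        exact (pow_dvd_pow _ (by omega)).trans this

lemma dvd_of_diff (M : ℤ) (D : ℕ) : ∀ G : ℕ → ℤ, (∀ z, M ∣ (fwdDiff 1)^[D] G z) →
    (∀ z < D, M ∣ G z) → ∀ z, M ∣ G z := by
  induction D with
  | zero => intro G h _ z; simpa using h z
  | succ D ih =>
    intro G h h0 z
    have h1 : ∀ z, M ∣ fwdDiff 1 G z := ih _ (fun z => by simpa using h z) fun z hz =>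
      dvd_sub (h0 _ (by omega)) (h0 _ (by omega))
    induction z with
    | zero => exact h0 0 (by omega)
    | succ z ihz =>
      have := dvd_add (h1 z) ihz
      simpa [fwdDiff] using this

lemma coeff_prod_sum {ι : Type*} (s : Finset ι) (f : ι → ℚ[X]) (n : ι → ℕ)
    (h : ∀ i ∈ s, (f i).natDegree ≤ n i) :
    (∏ i ∈ s, f i).natDegree ≤ ∑ i ∈ s, n i ∧
      (∏ i ∈ s, f i).coeff (∑ i ∈ s, n i) = ∏ i ∈ s, (f i).coeff (n i) := by
  classical
  induction s using Finset.induction_on with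
  | empty => simp
  | insert a s ha ih =>
    obtain ⟨h1, h2⟩ := ih fun i hi => h i (mem_insert_of_mem hi)
    have h3 := h a (mem_insert_self a s)
    rw [prod_insert ha, sum_insert ha, prod_insert ha]
    exact ⟨natDegree_mul_le.trans (add_le_add h3 h1), by
      rw [coeff_mul_add_eq_of_natDegree_le h3 h1, h2]⟩

/-- Laurent's zero lemma on `G_a × G_m`. -/
lemma zero_lemma (a : ℚ) (ha : 1 < a) (K L : ℕ) (Q : Fin L → ℚ[X])
    (hQ : ∀ l, (Q l).natDegree ≤ K) (𝒳 : Finset ℚ) (hX : K * L < #𝒳)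
    (hv : ∀ x ∈ 𝒳, ∃ y : ℚ, y ≠ 0 ∧ ∀ j < L, ∑ l, (Q l).eval (x + j) * (a ^ j * y) ^ (l : ℕ) = 0) :
    ∀ l, Q l = 0 := by
  classical
  by_contra hne
  push Not at hne
  set I : Finset (Fin L) := {l | Q l ≠ 0} with hI
  set t := #I with ht
  have htL : t ≤ L := by simpa using card_le_univ I
  let e : Fin t → Fin L := fun i => (I.equivFin.symm i : Fin L)
  have he : Function.Injective e := fun i j h => I.equivFin.symm.injective (Subtype.ext h)
  have heI : ∀ i, Q (e i) ≠ 0 := fun i => by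
    have := (I.equivFin.symm i).2
    exact (mem_filter.1 this).2
  have hsum : ∀ g : Fin L → ℚ, (∀ l, Q l = 0 → g l = 0) → ∑ l, g l = ∑ i, g (e i) := by
    intro g hg
    rw [← sum_subset (subset_univ I) (fun l _ hl => hg l (by simpa [hI] using hl)),
      ← sum_coe_sort I, ← Equiv.sum_comp I.equivFin.symm]
  let Mx : Matrix (Fin t) (Fin t) ℚ[X] := fun j i =>
    taylor ((j : ℕ) : ℚ) (Q (e i)) * C ((a ^ (e i : ℕ)) ^ (j : ℕ))
  have hdeg : ∀ j i, (Mx j i).natDegree ≤ (Q (e i)).natDegree := fun j i =>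
    (natDegree_mul_C_le _ _).trans (natDegree_taylor _ _).le
  have hD0 : Mx.det = 0 := by
    refine eq_zero_of_natDegree_lt_card_of_eval_eq_zero' _ 𝒳 (fun x hx => ?_) ?_
    · obtain ⟨y, hy, hxy⟩ := hv x hx
      have : Mx.det.eval x = (Mx.map (evalRingHom x)).det := by
        rw [← coe_evalRingHom, RingHom.map_det, RingHom.mapMatrix_apply]
      rw [this, ← Matrix.exists_mulVec_eq_zero_iff]
      obtain ⟨l0, hl0⟩ := hne
      refine ⟨fun i => y ^ (e i : ℕ), fun h => ?_, ?_⟩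
      · have := congrFun h (I.equivFin ⟨l0, by simpa [hI] using hl0⟩)
        exact pow_ne_zero _ hy this
      · funext j
        have h1 := hxy j (lt_of_lt_of_le j.2 htL)
        rw [hsum _ (fun l hl => by simp [hl])] at h1
        rw [Pi.zero_apply, ← h1]
        simp only [Matrix.mulVec, dotProduct, Matrix.map_apply, Mx, coe_evalRingHom, eval_mul,
          eval_C, taylor_eval]
        refine sum_congr rfl fun i _ => ?_
        rw [mul_pow, ← pow_mul, ← pow_mul, mul_comm (j : ℕ)]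
        ring
    · refine lt_of_le_of_lt ?_ hX
      rw [Matrix.det_apply]
      refine natDegree_sum_le_of_forall_le _ _ fun σ _ => (natDegree_smul_le _ _).trans ?_
      refine (coeff_prod_sum univ (fun i => Mx (σ i) i) (fun _ => K)
        fun i _ => (hdeg _ _).trans (hQ _)).1.trans ?_
      simp only [sum_const, card_univ, Fintype.card_fin, smul_eq_mul]
      rw [mul_comm]
      exact Nat.mul_le_mul_left _ htL
  have hc : Mx.det.coeff (∑ i, (Q (e i)).natDegree) =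
      (∏ i, (Q (e i)).leadingCoeff) * (Matrix.vandermonde fun i => a ^ (e i : ℕ)).det := by
    rw [← Matrix.det_transpose (Matrix.vandermonde _), Matrix.det_apply, Matrix.det_apply,
      finsetSum_coeff, mul_sum]
    refine sum_congr rfl fun σ _ => ?_
    rw [coeff_smul, (coeff_prod_sum univ (fun i => Mx (σ i) i) (fun i => (Q (e i)).natDegree)
      fun i _ => hdeg _ _).2, mul_smul_comm, ← prod_mul_distrib]
    congr 1
    refine prod_congr rfl fun i _ => ?_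
    simp only [Mx, coeff_mul_C, coeff_taylor_natDegree, Matrix.transpose_apply,
      Matrix.vandermonde_apply]
  rw [hD0, coeff_zero] at hc
  refine (mul_ne_zero (prod_ne_zero_iff.2 fun i _ => leadingCoeff_ne_zero.2 (heI i))
    (Matrix.det_vandermonde_ne_zero_iff.2 fun i j h => he (Fin.ext ?_))) hc.symm
  exact pow_right_injective₀ (by linarith) ha.ne' h

lemma aux_fun (p a : ℕ) (hp : 0 < p) (ha : (p : ℤ) ∣ (a : ℤ) - 1) (K L X U : ℕ)
    (hN : (p ^ U) ^ (U + K) < (2 ^ X) ^ (K * L)) :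
    ∃ e : Fin K × Fin L → ℤ, e ≠ 0 ∧ (∀ i, |e i| ≤ 2 ^ X) ∧
      ∀ z : ℕ, (p : ℤ) ^ U ∣ ∑ i, e i * (z : ℤ) ^ (i.1 : ℕ) * (a : ℤ) ^ ((i.2 : ℕ) * z) := by
  classical
  have : NeZero (p ^ U) := ⟨by positivity⟩
  let F : (Fin K × Fin L → ℤ) → ℕ → ℤ := fun e z =>
    ∑ i, e i * (z : ℤ) ^ (i.1 : ℕ) * (a : ℤ) ^ ((i.2 : ℕ) * z)
  let g : (Fin K × Fin L → Fin (2 ^ X)) → (Fin (U + K) → ZMod (p ^ U)) := fun c d =>
    (F (fun i => ((c i : ℕ) : ℤ)) d : ℤ)
  obtain ⟨c, c', hne, hcc⟩ := Fintype.exists_ne_map_eq_of_card_lt g (by simpa using hN)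
  refine ⟨fun i => ((c i : ℕ) : ℤ) - ((c' i : ℕ) : ℤ), fun h => hne ?_, fun i => ?_, ?_⟩
  · funext i
    have := congrFun h i
    simp only [Pi.zero_apply, sub_eq_zero, Nat.cast_inj] at this
    exact Fin.ext this
  · have h1 : ((c i : ℕ) : ℤ) < 2 ^ X := by exact_mod_cast (c i).2
    have h2 : ((c' i : ℕ) : ℤ) < 2 ^ X := by exact_mod_cast (c' i).2
    have h3 : (0 : ℤ) ≤ ((c i : ℕ) : ℤ) := Nat.cast_nonneg _
    have h4 : (0 : ℤ) ≤ ((c' i : ℕ) : ℤ) := Nat.cast_nonneg _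
    simp only [abs_le]
    constructor <;> linarith
  · refine dvd_of_diff _ (U + K) (F fun i => ((c i : ℕ) : ℤ) - ((c' i : ℕ) : ℤ)) (fun z => ?_)
      fun z hz => ?_
    · have e1 : (F fun i => ((c i : ℕ) : ℤ) - ((c' i : ℕ) : ℤ)) = ∑ i : Fin K × Fin L,
          (((c i : ℕ) : ℤ) - ((c' i : ℕ) : ℤ)) • fun z : ℕ =>
            (Polynomial.X ^ (i.1 : ℕ) : ℤ[X]).eval (z : ℤ) * ((a : ℤ) ^ (i.2 : ℕ)) ^ z := by
        funext z
        simp only [F, Finset.sum_apply, Pi.smul_apply, smul_eq_mul, eval_pow, eval_X, ← pow_mul,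
          mul_assoc]
      rw [e1, fwdDiff_iter_finsetSum, Finset.sum_apply]
      refine dvd_sum fun i _ => ?_
      rw [fwdDiff_iter_const_smul, Pi.smul_apply, smul_eq_mul]
      refine Dvd.dvd.mul_left ?_ _
      have := diff_dvd p ((a : ℤ) ^ (i.2 : ℕ)) (ha.trans (by simpa using sub_dvd_pow_sub_pow (a : ℤ) 1 i.2))
        (U + K) K (Polynomial.X ^ (i.1 : ℕ)) (by rw [degree_X_pow]; exact_mod_cast i.1.2) z
      rwa [Nat.add_sub_cancel] at this
    · have h1 := congrFun hcc ⟨z, hz⟩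
      simp only [g] at h1
      rw [ZMod.intCast_eq_intCast_iff_dvd_sub] at h1
      have e1 : F (fun i => ((c i : ℕ) : ℤ) - ((c' i : ℕ) : ℤ)) z =
          -(F (fun i => ((c' i : ℕ) : ℤ)) z - F (fun i => ((c i : ℕ) : ℤ)) z) := by
        simp only [F, sub_mul, sum_sub_distrib]; ring
      rw [e1, dvd_neg]
      exact_mod_cast h1

lemma two_log_core (p a γ : ℕ) (hp : 2 ≤ p) (ha : 2 ≤ a) (hpa : (p : ℤ) ∣ (a : ℤ) - 1)
    (hγ : 1 ≤ γ) (hpγ : p ≤ 2 ^ γ) (haγ : a ≤ 2 ^ γ) (m ℓ H q : ℕ) (B : ℤ) (hm : m < 2 ^ ℓ)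
    (hH : 1 ≤ H) (hℓ : 1 ≤ ℓ) (hC : 784 * γ ^ 3 * H * ℓ ≤ m) (hq0 : q ≠ 0) (hB0 : B ≠ 0)
    (hq : q ≤ 2 ^ (γ * H)) (hB : |B| ≤ 2 ^ (γ * H)) :
    ¬ (p : ℤ) ^ (600000 * γ ^ 6 * H * ℓ ^ 2) ∣ q * (a : ℤ) ^ m - B := by
  classical
  intro hdvd
  obtain ⟨L, hL⟩ : ∃ L, L = 4 * γ * (4 * ℓ + 3) := ⟨_, rfl⟩
  obtain ⟨S, hS⟩ : ∃ S, S = 27 * γ ^ 2 * L := ⟨_, rfl⟩
  obtain ⟨R, hR⟩ : ∃ R, R = H * S := ⟨_, rfl⟩
  obtain ⟨K, hK⟩ : ∃ K, K = 27 * γ ^ 2 * R := ⟨_, rfl⟩
  obtain ⟨X, hX⟩ : ∃ X, X = K * (2 * ℓ) + γ * L * (R + L + H * S) + K + L + 1 := ⟨_, rfl⟩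
  have hγ2 : 1 ≤ γ ^ 2 := Nat.one_le_pow _ _ hγ
  have hL1 : 28 ≤ L := by
    rw [hL]; exact Nat.mul_le_mul (show 4 ≤ 4 * γ by omega) (show 7 ≤ 4 * ℓ + 3 by omega)
  have hL2 : L ≤ 28 * γ * ℓ := by
    calc L ≤ 4 * γ * (7 * ℓ) := by rw [hL]; exact Nat.mul_le_mul_left _ (by omega)
      _ = _ := by ring
  have hLS : 27 * L ≤ S := by rw [hS]; exact Nat.mul_le_mul_right _ (by omega)
  have hSR : S ≤ R := by rw [hR]; exact Nat.le_mul_of_pos_left _ hH
  have hRK : 27 * R ≤ K := by rw [hK]; exact Nat.mul_le_mul_right _ (by omega)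
  have hRL : R + L ≤ m := by
    have h1 : R + L ≤ 28 * γ ^ 2 * H * L := by
      have : L ≤ γ ^ 2 * H * L := Nat.le_mul_of_pos_left _ (by positivity)
      calc R + L ≤ H * (27 * γ ^ 2 * L) + γ ^ 2 * H * L := by rw [hR, hS]; omega
        _ = _ := by ring
    calc R + L ≤ 28 * γ ^ 2 * H * (28 * γ * ℓ) := h1.trans (Nat.mul_le_mul_left _ hL2)
      _ = 784 * γ ^ 3 * H * ℓ := by ring
      _ ≤ m := hC
  have hKL : 2 * γ * (2 * X + K) < K * L := by
    have h1 : K * L = 2 * (2 * γ * K * (4 * ℓ + 3)) := by rw [hL]; ring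
    have h2 : 2 * (4 * γ * (γ * L * (R + L + H * S)) + 4 * γ * (L + 1)) < K * L := by
      have h3 : 8 * γ ^ 2 * (R + L + H * S) + 16 * γ < K := by
        rw [← hR, hK]
        have a1 : γ ≤ γ ^ 2 := Nat.le_self_pow (by norm_num) γ
        have a2 : γ ^ 2 * (27 * L) ≤ γ ^ 2 * R := Nat.mul_le_mul_left _ (by omega)
        have a3 : γ ^ 2 * 28 ≤ γ ^ 2 * L := Nat.mul_le_mul_left _ hL1
        have a4 : 8 * γ ^ 2 * (R + L + R) = 16 * (γ ^ 2 * R) + 8 * (γ ^ 2 * L) := by ring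
        have a5 : 27 * γ ^ 2 * R = 27 * (γ ^ 2 * R) := by ring
        have a6 : γ ^ 2 * (27 * L) = 27 * (γ ^ 2 * L) := by ring
        omega
      have a1 := Nat.mul_lt_mul_of_pos_right h3 (show 0 < L by omega)
      have a2 : γ * 1 ≤ γ * L := Nat.mul_le_mul_left _ (by omega)
      linarith
    rw [hX]
    linarith
  have hXN : 2 * X ≤ 600000 * γ ^ 6 * H * ℓ ^ 2 := by
    have h1 : 2 * X ≤ K * L := by
      have : 1 * (2 * X + K) ≤ 2 * γ * (2 * X + K) := Nat.mul_le_mul_right _ (by omega)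
      omega
    have h2 : K * L = 729 * γ ^ 4 * H * (L * L) := by rw [hK, hR, hS]; ring
    have h3 : L * L ≤ (28 * γ * ℓ) * (28 * γ * ℓ) := Nat.mul_le_mul hL2 hL2
    have h4 : 729 * γ ^ 4 * H * (L * L) ≤ 729 * γ ^ 4 * H * ((28 * γ * ℓ) * (28 * γ * ℓ)) :=
      Nat.mul_le_mul_left _ h3
    have h5 : 0 ≤ γ ^ 6 * H * ℓ ^ 2 := Nat.zero_le _
    linarith
  obtain ⟨e, he0, heX, heF⟩ := aux_fun p a (by omega) hpa K L X (2 * X) (by
    calc (p ^ (2 * X)) ^ (2 * X + K) ≤ ((2 ^ γ) ^ (2 * X)) ^ (2 * X + K) := by gcongr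
      _ = 2 ^ (X * (2 * γ * (2 * X + K))) := by rw [← pow_mul, ← pow_mul]; congr 1; ring
      _ < 2 ^ (X * (K * L)) := Nat.pow_lt_pow_right (by norm_num)
          (Nat.mul_lt_mul_of_pos_left hKL (by omega))
      _ = (2 ^ X) ^ (K * L) := by rw [pow_mul])
  have hmod : (B : ℤ) ≡ q * (a : ℤ) ^ m [ZMOD (p : ℤ) ^ (2 * X)] :=
    Int.modEq_iff_dvd.2 ((pow_dvd_pow _ hXN).trans hdvd)
  have hG : ∀ r < R + L, ∀ s < S, ∑ i : Fin K × Fin L, e i * ((r + m * s : ℕ) : ℤ) ^ (i.1 : ℕ) *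
      ((a : ℤ) ^ ((i.2 : ℕ) * r) * B ^ ((i.2 : ℕ) * s) * (q : ℤ) ^ ((L - i.2) * s)) = 0 := by
    intro r hr s hs
    refine Int.eq_zero_of_abs_lt_dvd (m := (p : ℤ) ^ (2 * X)) ?_ ?_
    · have h1 := (heF (r + m * s)).mul_left ((q : ℤ) ^ (L * s))
      rw [mul_sum] at h1
      refine (Int.modEq_zero_iff_dvd.1 (Int.ModEq.trans (Int.ModEq.sum fun i _ => ?_)
        (Int.modEq_zero_iff_dvd.2 h1)))
      have h2 : (q : ℤ) ^ (L * s) * (e i * ((r + m * s : ℕ) : ℤ) ^ (i.1 : ℕ) *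
          (a : ℤ) ^ ((i.2 : ℕ) * (r + m * s))) = e i * ((r + m * s : ℕ) : ℤ) ^ (i.1 : ℕ) *
          ((a : ℤ) ^ ((i.2 : ℕ) * r) * (q * (a : ℤ) ^ m) ^ ((i.2 : ℕ) * s) *
            (q : ℤ) ^ ((L - i.2) * s)) := by
        have h3 : L * s = (i.2 : ℕ) * s + (L - i.2) * s := by
          rw [← add_mul, Nat.add_sub_cancel' i.2.2.le]
        rw [h3, pow_add, mul_pow, ← pow_mul, mul_add, pow_add]
        ring
      rw [h2]
      exact (((hmod.pow _).mul_left _).mul_right _).mul_left _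
    · have hz : ((r + m * s : ℕ) : ℤ) ≤ 2 ^ (2 * ℓ) := by
        have h1 : r + m * s ≤ m * m := by
          have : m * (s + 1) ≤ m * m := Nat.mul_le_mul_left _ (by omega)
          rw [mul_add] at this
          omega
        have h2 : m * m ≤ 2 ^ (2 * ℓ) := by
          rw [two_mul, pow_add]; exact Nat.mul_le_mul hm.le hm.le
        exact_mod_cast h1.trans h2
      have hterm : ∀ i : Fin K × Fin L, |e i * ((r + m * s : ℕ) : ℤ) ^ (i.1 : ℕ) *
          ((a : ℤ) ^ ((i.2 : ℕ) * r) * B ^ ((i.2 : ℕ) * s) * (q : ℤ) ^ ((L - i.2) * s))| ≤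
          2 ^ (X + (K * (2 * ℓ) + γ * L * (R + L + H * S))) := by
        intro i
        have ha' : (a : ℤ) ≤ 2 ^ γ := by exact_mod_cast haγ
        have hq' : (q : ℤ) ≤ 2 ^ (γ * H) := by exact_mod_cast hq
        simp only [abs_mul, abs_pow, Nat.abs_cast]
        calc |e i| * ((r + m * s : ℕ) : ℤ) ^ (i.1 : ℕ) * ((a : ℤ) ^ ((i.2 : ℕ) * r) *
              |B| ^ ((i.2 : ℕ) * s) * (q : ℤ) ^ ((L - i.2) * s))
            ≤ 2 ^ X * (2 ^ (2 * ℓ)) ^ (i.1 : ℕ) * ((2 ^ γ) ^ ((i.2 : ℕ) * r) *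
              (2 ^ (γ * H)) ^ ((i.2 : ℕ) * s) * (2 ^ (γ * H)) ^ ((L - i.2) * s)) := by
              gcongr
              exact heX i
          _ = 2 ^ (X + (2 * ℓ * i.1 + γ * ((i.2 : ℕ) * r) +
              γ * H * (((i.2 : ℕ) + (L - i.2)) * s))) := by
              simp only [← pow_mul, ← pow_add]; congr 1; ring
          _ ≤ _ := by
              refine pow_le_pow_right₀ (by norm_num) ?_
              rw [Nat.add_sub_cancel' i.2.2.le]
              have h1 : 2 * ℓ * i.1 ≤ 2 * ℓ * K := Nat.mul_le_mul_left _ i.1.2.le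
              have h2 : γ * ((i.2 : ℕ) * r) ≤ γ * (L * (R + L)) :=
                Nat.mul_le_mul_left _ (Nat.mul_le_mul i.2.2.le hr.le)
              have h3 : γ * H * (L * s) ≤ γ * H * (L * S) :=
                Nat.mul_le_mul_left _ (Nat.mul_le_mul_left _ hs.le)
              linarith
      refine lt_of_le_of_lt ((abs_sum_le_sum_abs _ _).trans (sum_le_card_nsmul _ _ _
        fun i _ => hterm i)) ?_
      have hcard : ((K * L : ℕ) : ℤ) ≤ 2 ^ (K + L) := by
        rw [pow_add]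
        exact_mod_cast Nat.mul_le_mul Nat.lt_two_pow_self.le Nat.lt_two_pow_self.le
      simp only [card_univ, Fintype.card_prod, Fintype.card_fin, nsmul_eq_mul]
      calc ((K * L : ℕ) : ℤ) * 2 ^ (X + (K * (2 * ℓ) + γ * L * (R + L + H * S)))
          ≤ 2 ^ (K + L) * 2 ^ (X + (K * (2 * ℓ) + γ * L * (R + L + H * S))) := by gcongr
        _ < 2 ^ (2 * X) := by
            rw [← pow_add]; exact pow_lt_pow_right₀ (by norm_num) (by omega)
        _ ≤ (p : ℤ) ^ (2 * X) := by gcongr; exact_mod_cast hp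
  let Q : Fin L → ℚ[X] := fun l => ∑ k : Fin K, C (e (k, l) : ℚ) * Polynomial.X ^ (k : ℕ)
  have hQ := zero_lemma (a : ℚ) (by exact_mod_cast ha) (K - 1) L Q (fun l =>
    natDegree_sum_le_of_forall_le _ _ fun k _ => (natDegree_C_mul_X_pow_le _ _).trans
      (by have := k.2; omega))
    ((range R ×ˢ range S).image fun x => ((x.1 + m * x.2 : ℕ) : ℚ)) (by
      rw [card_image_of_injOn]
      · rw [card_product, card_range, card_range]
        have h1 : R * S = K * L := by rw [hK, hS]; ring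
        rw [h1]
        exact Nat.mul_lt_mul_of_pos_right (by omega) (by omega)
      · rintro ⟨r, s⟩ hx ⟨r', s'⟩ hx' h
        simp only [coe_product, coe_range, Set.mem_prod, Set.mem_Iio] at hx hx'
        have h1 : r + m * s = r' + m * s' := Nat.cast_injective (R := ℚ) h
        have h2 : r = r' := by
          have := congrArg (· % m) h1
          simpa [Nat.mod_eq_of_lt (show r < m by omega), Nat.mod_eq_of_lt (show r' < m by omega)]
            using this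
        subst h2
        have h3 : s = s' := Nat.eq_of_mul_eq_mul_left (show 0 < m by omega) (by omega)
        rw [h3]) (by
      intro x hx
      obtain ⟨⟨r, s⟩, hrs, rfl⟩ := mem_image.1 hx
      simp only [mem_product, mem_range] at hrs
      have hq' : (q : ℚ) ≠ 0 := by exact_mod_cast hq0
      have hB' : (B : ℚ) ≠ 0 := by exact_mod_cast hB0
      have ha' : (a : ℚ) ≠ 0 := by positivity
      refine ⟨(a : ℚ) ^ r * ((B : ℚ) / q) ^ s, by positivity, fun j hj => ?_⟩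
      have h1 := hG (r + j) (by omega) s hrs.2
      have h2 := congrArg (Int.cast : ℤ → ℚ) h1
      rw [Fintype.sum_prod_type_right] at h2
      push_cast at h2
      refine mul_left_cancel₀ (pow_ne_zero (L * s) hq') ?_
      rw [mul_zero, ← h2, mul_sum]
      refine sum_congr rfl fun l _ => ?_
      simp only [Q, eval_finsetSum, eval_mul, eval_C, eval_pow, eval_X, sum_mul, mul_sum]
      refine sum_congr rfl fun k _ => ?_
      have h3 : L * s = (l : ℕ) * s + (L - l) * s := by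
        rw [← add_mul, Nat.add_sub_cancel' l.2.le]
      rw [h3, pow_add]
      simp only [mul_pow, div_pow, ← pow_mul, mul_add, pow_add, mul_comm s, mul_comm r, mul_comm j]
      push_cast
      field_simp
      ring)
  refine he0 (funext fun ⟨k, l⟩ => ?_)
  have h1 := congrArg (fun P => P.coeff k) (hQ l)
  simp only [Q, finsetSum_coeff, coeff_C_mul_X_pow, coeff_zero] at h1
  rw [sum_eq_single k (fun k' _ hk => if_neg fun h => hk (Fin.ext h.symm)) (by simp),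
    if_pos rfl] at h1
  exact_mod_cast h1

theorem two_log (p a : ℕ) (hp : p.Prime) (ha : 2 ≤ a) (hpa : ¬ p ∣ a) : ∃ C : ℕ, 1 ≤ C ∧
    ∀ (m ℓ H q : ℕ) (B : ℤ), m < 2 ^ ℓ → 1 ≤ H → 1 ≤ ℓ → C * H * ℓ ≤ m → ¬ p ∣ q → q ≤ p ^ H →
      |B| ≤ (p : ℤ) ^ H → ¬ (p : ℤ) ^ (C * H * ℓ ^ 2) ∣ q * (a : ℤ) ^ m - B := by
  obtain ⟨γ, hγ⟩ : ∃ γ, γ = (a + p) * p := ⟨_, rfl⟩
  have hp2 := hp.two_le
  have hγ1 : 1 ≤ γ := by nlinarith
  have hγ6 : γ ^ 3 ≤ γ ^ 6 := Nat.pow_le_pow_right hγ1 (by norm_num)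
  refine ⟨600000 * γ ^ 6, by have := Nat.one_le_pow 6 _ hγ1; omega,
    fun m ℓ H q B hm hH hℓ hC hq hqH hB hd => ?_⟩
  have hpp : p ^ (p - 1) ≤ 2 ^ γ := by
    calc p ^ (p - 1) ≤ (2 ^ p) ^ p :=
          (Nat.pow_le_pow_left Nat.lt_two_pow_self.le _).trans
            (Nat.pow_le_pow_right (by positivity) (by omega))
      _ ≤ 2 ^ γ := by rw [← pow_mul]; exact Nat.pow_le_pow_right (by norm_num) (by nlinarith)
  have hpI : Prime (p : ℤ) := Nat.prime_iff_prime_int.1 hp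
  have hB0 : B ≠ 0 := by
    rintro rfl
    have h1 : (p : ℤ) ∣ q * (a : ℤ) ^ m := by
      rw [sub_zero] at hd
      exact (dvd_pow_self _ (by positivity)).trans hd
    rcases hpI.dvd_or_dvd h1 with h | h
    · exact hq (by exact_mod_cast h)
    · exact hpa (by exact_mod_cast hpI.dvd_of_dvd_pow h)
  have hq0 : q ≠ 0 := by rintro rfl; exact hq (dvd_zero p)
  refine two_log_core p (a ^ (p - 1)) γ hp2 ?_ ?_ hγ1 ?_ ?_ m ℓ H (q ^ (p - 1)) (B ^ (p - 1)) hm hH
    hℓ ?_ (pow_ne_zero _ hq0) (pow_ne_zero _ hB0) ?_ ?_ ?_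
  · exact ha.trans (Nat.le_self_pow (by omega) a)
  · have h1 := Nat.ModEq.pow_card_sub_one_eq_one hp
      ((Nat.Prime.coprime_iff_not_dvd hp).2 hpa).symm
    exact_mod_cast h1.symm.dvd
  · exact (Nat.le_self_pow (by omega) p).trans hpp
  · calc a ^ (p - 1) ≤ (2 ^ a) ^ p :=
          (Nat.pow_le_pow_left Nat.lt_two_pow_self.le _).trans
            (Nat.pow_le_pow_right (by positivity) (by omega))
      _ ≤ 2 ^ γ := by rw [← pow_mul]; exact Nat.pow_le_pow_right (by norm_num) (by nlinarith)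
  · refine le_trans ?_ hC
    gcongr
    norm_num
  · calc q ^ (p - 1) ≤ (p ^ H) ^ (p - 1) := by gcongr
      _ = (p ^ (p - 1)) ^ H := by rw [← pow_mul, ← pow_mul, mul_comm]
      _ ≤ (2 ^ γ) ^ H := by gcongr
      _ = 2 ^ (γ * H) := by rw [pow_mul]
  · rw [abs_pow]
    calc |B| ^ (p - 1) ≤ ((p : ℤ) ^ H) ^ (p - 1) := by gcongr
      _ = ((p : ℤ) ^ (p - 1)) ^ H := by rw [← pow_mul, ← pow_mul, mul_comm]
      _ ≤ (2 ^ γ) ^ H := by gcongr; exact_mod_cast hpp
      _ = 2 ^ (γ * H) := by rw [pow_mul]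
  · refine hd.trans ?_
    have := sub_dvd_pow_sub_pow ((q : ℤ) * (a : ℤ) ^ m) B (p - 1)
    push_cast
    rwa [mul_pow, ← pow_mul, mul_comm m, pow_mul] at this

end Pool.Agent.MP_5a7e96_nt.H37
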