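import Pool.Agent.MP_5a7e96_nt.H37.Fibre
import Pool.Agent.MP_5a7e96_nt.H37.TwoLog

/-!
The entropy decrement: intersecting a language of entropy at least `δ` with the condition that
`a ^ m x` avoids a block lowers the entropy by a fixed amount, for every large `m`.
-/

namespace Pool.Agent.MP_5a7e96_nt.H37

open Finset

lemma gamma {b Q : ℕ} (hb : 0 < b) (hc : IsCoprime (Q : ℤ) b) (e : ℤ) (P : ℕ) :
    ∃ Γ : ℕ, ∀ Y S : ℕ, (b : ℤ) ∣ Q * ((Y : ℤ) - P - S) - e → Y % b = (Γ + S) % b := by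
  obtain ⟨a, a', h⟩ := hc
  have hb' : (b : ℤ) ≠ 0 := by exact_mod_cast hb.ne'
  obtain ⟨Γ, hΓ⟩ := Int.eq_ofNat_of_zero_le (Int.emod_nonneg (a * e + P) hb')
  refine ⟨Γ, fun Y S ⟨k, hk⟩ => (Nat.modEq_iff_dvd.2 ?_).symm⟩
  have h2 := Int.mul_ediv_add_emod (a * e + P) b
  rw [hΓ] at h2
  refine ⟨a * k + a' * (Y - P - S) + (a * e + P) / b, ?_⟩
  push_cast
  linear_combination a * hk - h2 - ((Y : ℤ) - P - S) * h

lemma count_step {p : ℕ} (hp : p.Prime) {w ω : ℕ} {F : ℕ → Finset ℕ} (hF : Lang p F)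
    (u c L Q E n J : ℕ) (hJ : J ≤ n) (hA : (F L).Nonempty) (G : Finset ℕ)
    (hG : G ⊆ range (J + 1)) (hQ : ¬ p ∣ Q) (Bf : ℕ → ℤ) {X K : ℝ} (hK : 0 < K)
    (h1 : ∀ i ∈ range (J + 1) \ G, ((p ^ L : ℕ) : ℤ) ^ (i + 1) ∣ Q * u - Bf i)
    (h2 : ∑ i ∈ range (J + 1) \ G, (|Bf i| : ℝ) * (p ^ L : ℕ) / ((p ^ L : ℕ) : ℝ) ^ i ≤ X)
    (hE : Q * (1 + G.card) + X ≤ E)
    (hS : ∀ (Γ : ℕ) (T : Finset (G → ℕ)), (∀ z ∈ T, (∀ l, z l ∈ F L) ∧
      Av p w ω (Γ + ∑ l : G, u * z l / (p ^ L) ^ l.1) L) → (T.card : ℝ) ≤ K)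
    (S : Finset ℕ) (hS0 : S.Nonempty) (hS1 : ∀ x ∈ S, x ∈ F (n * L) ∧ Av p w ω (u * x + c) (n * L)) :
    G.card * Real.log S.card ≤
      (n - J : ℝ) * Real.log ((2 * E + 1) * K) + G.card * J * Real.log (F L).card := by
  classical
  have hb : 0 < p ^ L := pow_pos hp.pos L
  have hblk : ∀ x ∈ S, ∀ k < n, x / (p ^ L) ^ k % p ^ L ∈ F L := fun x hx k hk => by
    rw [← pow_mul]
    refine hF.win ?_ (hS1 x hx).1
    have : L * (k + 1) ≤ L * n := Nat.mul_le_mul_left _ hk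
    rw [mul_comm n L]
    exact this
  have hcop : IsCoprime (Q : ℤ) (p ^ L : ℕ) := Nat.isCoprime_iff_coprime.2
    (Nat.Coprime.pow_right _ ((Nat.Prime.coprime_iff_not_dvd hp).2 hQ).symm)
  refine shearer S (fun k x => x / (p ^ L) ^ k % p ^ L) hS0 n J hJ G hG (F L) hA hblk
    (fun x hx y hy h => ?_) _ (by positivity) fun j hj hjn x _ => ?_
  · have := mod_of_blocks (p ^ L) n h
    rwa [← pow_mul, mul_comm L n, Nat.mod_eq_of_lt (hF.lt _ _ (hS1 x hx).1),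
      Nat.mod_eq_of_lt (hF.lt _ _ (hS1 y hy).1)] at this
  · choose Γ hΓ using fun e => gamma hb hcop e ((u * (x % (p ^ L) ^ (j - J)) + c) / (p ^ L) ^ j)
    refine ⟨(Icc (-(E : ℤ)) E).biUnion fun e => (Fintype.piFinset fun _ : G => F L).filter
      fun z => Av p w ω (Γ e + ∑ l : G, u * z l / (p ^ L) ^ l.1) L, ?_, fun y hy hyx => ?_⟩
    · have a1 : (((Icc (-(E : ℤ)) E).biUnion fun e => (Fintype.piFinset fun _ : G => F L).filter
          fun z => Av p w ω (Γ e + ∑ l : G, u * z l / (p ^ L) ^ l.1) L).card : ℝ) ≤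
          ∑ e ∈ Icc (-(E : ℤ)) E, (((Fintype.piFinset fun _ : G => F L).filter
          fun z => Av p w ω (Γ e + ∑ l : G, u * z l / (p ^ L) ^ l.1) L).card : ℝ) := by
        exact_mod_cast card_biUnion_le
      refine a1.trans ((sum_le_sum fun e _ => hS (Γ e) _ fun z hz =>
        ⟨Fintype.mem_piFinset.1 (mem_filter.1 hz).1, (mem_filter.1 hz).2⟩).trans (le_of_eq ?_))
      rw [sum_const, nsmul_eq_mul, Int.card_Icc,
        show ((E : ℤ) + 1 - -(E : ℤ)).toNat = 2 * E + 1 by omega]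
      push_cast
      rfl
    · obtain ⟨e, a1, a2⟩ := carry hb u c y Q hj G hG Bf h1 h2
      rw [mod_of_blocks (p ^ L) (j - J) hyx] at a2
      have a3 := hΓ e _ _ a2
      have a4 : |e| ≤ (E : ℤ) := by exact_mod_cast a1.trans hE
      refine mem_biUnion.2 ⟨e, mem_Icc.2 (abs_le.1 a4), mem_filter.2
        ⟨Fintype.mem_piFinset.2 fun l => hblk y hy _ (by omega), ?_⟩⟩
      rw [sum_coe_sort G (fun i => u * (y / (p ^ L) ^ (j - i) % p ^ L) / (p ^ L) ^ i)]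
      refine Av.congr ?_ a3
      rw [← pow_mul]
      refine ((hS1 y hy).2.mono ?_).div
      have : L * (j + 1) ≤ L * n := Nat.mul_le_mul_left _ hjn
      rw [mul_comm n L]
      exact this

lemma ev_exp {a : ℝ} (ha : 0 < a) (K : ℝ) : ∃ M0 : ℕ, 1 ≤ M0 ∧ ∀ M : ℕ, M0 ≤ M →
    K ≤ Real.exp (a * M) := by
  refine ⟨⌈K / a⌉₊ + 1, by omega, fun M hM => ?_⟩
  have h1 : K / a ≤ M := (Nat.le_ceil _).trans (by exact_mod_cast (by omega : ⌈K / a⌉₊ ≤ M))
  rw [div_le_iff₀ ha] at h1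
  linarith [Real.add_one_le_exp (a * M)]

lemma ev_log (K n : ℕ) : ∃ m0 : ℕ, ∀ m, m0 ≤ m → K * (Nat.log 2 m + 1) ^ n ≤ m := by
  have h := (tendsto_pow_const_div_const_pow_of_one_lt n (one_lt_two (α := ℝ))).eventually
    (gt_mem_nhds (show (0 : ℝ) < 1 / (2 * K + 1) by positivity))
  obtain ⟨l0, hl⟩ := Filter.eventually_atTop.1 h
  refine ⟨2 ^ l0, fun m hm => ?_⟩
  have hm0 : m ≠ 0 := by have := Nat.one_le_two_pow (n := l0); omega
  have h1 : l0 ≤ Nat.log 2 m := Nat.le_log_of_pow_le one_lt_two hm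
  have h2 := hl (Nat.log 2 m + 1) (by omega)
  rw [div_lt_div_iff₀ (by positivity) (by positivity), pow_succ] at h2
  have h3 : (2 : ℝ) ^ Nat.log 2 m ≤ m := by exact_mod_cast Nat.pow_log_le_self 2 hm0
  have h4 : (0 : ℝ) ≤ ((Nat.log 2 m + 1 : ℕ) : ℝ) ^ n := by positivity
  have : (K : ℝ) * ((Nat.log 2 m + 1 : ℕ) : ℝ) ^ n ≤ m := by nlinarith
  exact_mod_cast this

theorem decrement {p a : ℕ} (hp : p.Prime) (ha : 2 ≤ a) (hpa : ¬ p ∣ a) {w ω : ℕ} (hw : 1 ≤ w)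
    (hω : ω < p ^ w) {δ : ℝ} (hδ : 0 < δ) : ∃ ε : ℝ, 0 < ε ∧ ∀ (F : ℕ → Finset ℕ) (η : ℝ),
      Lang p F → δ ≤ η → Ent F η → ∃ m0, ∀ m, m0 ≤ m → Ent (nxt p w ω (a ^ m) F) (η - ε) := by
  classical
  obtain ⟨W, c, K, hc, hK, hsum⟩ := sum_lemma hp hw hω (h := δ / 32) (by positivity)
  obtain ⟨C0, hC0, htl⟩ := two_log p a hp ha hpa
  obtain ⟨R, hR1, hR⟩ : ∃ R : ℕ, 1 ≤ R ∧ (p : ℝ) * W ≤ 2 * c * R := by
    refine ⟨⌈(p : ℝ) * W / (2 * c)⌉₊ + 1, by omega, ?_⟩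
    rw [mul_comm (2 * c), ← div_le_iff₀ (by positivity)]
    push_cast
    linarith [Nat.le_ceil ((p : ℝ) * W / (2 * c))]
  obtain ⟨r, hr⟩ : ∃ r, r = (W + 1) * (3 * R ^ (W + 1) + 3) := ⟨_, rfl⟩
  have hr0 : (0 : ℝ) < r := by rw [hr]; positivity
  obtain ⟨ε, hε0, hε1, hε2⟩ : ∃ ε : ℝ, 0 < ε ∧ ε ≤ δ / 16 ∧ ε ≤ c / (4 * r) :=
    ⟨min (δ / 16) (c / (4 * r)), by positivity, min_le_left _ _, min_le_right _ _⟩
  refine ⟨ε, hε0, fun F η hF hη ⟨C, hC, hent⟩ => ?_⟩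
  have hηε : 0 ≤ η - ε := by linarith
  by_cases hsm : ∃ L : ℕ, 1 ≤ L ∧ ((F L).card : ℝ) ≤ Real.exp ((η - ε) * L)
  · obtain ⟨L, hL, h⟩ := hsm
    refine ⟨0, fun m _ => Ent.mono (hF.ent_of_mul hp.pos hηε zero_le_one hL (J := 0) fun n _ => ?_)
      (fun t x hx => (mem_nxt.1 hx).1) le_rfl⟩
    calc ((F (n * L)).card : ℝ) ≤ ((F L).card : ℝ) ^ n := by exact_mod_cast hF.card_mul L n
      _ ≤ Real.exp ((η - ε) * L) ^ n := by gcongr
      _ = _ := by rw [← Real.exp_nat_mul, one_mul]; congr 1; ring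
  push Not at hsm
  obtain ⟨M1, hM1, h1⟩ := ev_exp (show 0 < δ / 4 by positivity) (4 * C)
  obtain ⟨M2, -, h2⟩ := ev_exp (show 0 < 2 * c by positivity) ((3 + 2 * r + 4 * W) * K)
  obtain ⟨M3, -, h3⟩ := ev_exp (show 0 < 2 * c / r by positivity) C
  obtain ⟨M0, hM0⟩ : ∃ M0, M0 = M1 + M2 + M3 := ⟨_, rfl⟩
  obtain ⟨m0, hm0⟩ := ev_log (C0 * (8 * (M0 * R ^ (W + 1)) * (C0 + 3) ^ W)) (2 * W + 1)
  refine ⟨m0, fun m hm => ?_⟩
  have hu : ¬ (p : ℤ) ∣ ((a ^ m : ℕ) : ℤ) := fun h =>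
    hpa (hp.dvd_of_dvd_pow (Int.natCast_dvd_natCast.1 h))
  obtain ⟨s, J, G, I, Q, Bf, g1, g2, g3, g4, g5, g6, g7, g8, g9⟩ :=
    struct hp hu W R M0 (C0 * (Nat.log 2 m + 1) ^ 2) (by omega) hR1 (fun H q B b1 b2 b3 b4 b5 => by
      have := htl m (Nat.log 2 m + 1) H q B (Nat.lt_pow_succ_log_self one_lt_two m) b1 (by omega)
        (le_trans ?_ (hm0 m hm)) b3 b4 b5
      · rw [show C0 * (Nat.log 2 m + 1) ^ 2 * H = C0 * H * (Nat.log 2 m + 1) ^ 2 by ring]
        exact_mod_cast this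
      · generalize Nat.log 2 m = l at b2 ⊢
        have a1 : C0 * (l + 1) ^ 2 + 3 ≤ (C0 + 3) * (l + 1) ^ 2 := by
          have : 1 ≤ (l + 1) ^ 2 := Nat.one_le_pow _ _ (by omega)
          nlinarith
        calc C0 * H * (l + 1) ≤
            C0 * (8 * (M0 * R ^ (W + 1)) * ((C0 + 3) * (l + 1) ^ 2) ^ W) * (l + 1) := by
              gcongr
              exact b2.trans (by gcongr)
          _ = _ := by rw [mul_pow, ← pow_mul]; ring)
  obtain ⟨M, hM⟩ : ∃ M, M = M0 * R ^ (s + 1) := ⟨_, rfl⟩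
  rw [← hM] at g5 g8 g9
  rw [← hr] at g4
  have hM0M : M0 ≤ M := by rw [hM]; exact Nat.le_mul_of_pos_right _ (pow_pos hR1 _)
  have hM1' : (1 : ℝ) ≤ M := by exact_mod_cast (by omega : 1 ≤ M)
  have hA1 := hsm (8 * M) (by omega)
  have hA0 : (0 : ℝ) < (F (8 * M)).card := (Real.exp_pos _).trans hA1
  have hA : (F (8 * M)).Nonempty := card_pos.1 (by exact_mod_cast hA0)
  have hG0 : (0 : ℝ) < G.card := by
    have := card_le_card g2
    exact_mod_cast (by omega : 0 < G.card)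
  have hGr : (G.card : ℝ) ≤ r := by exact_mod_cast g4
  have hQ0 : 1 ≤ Q := Nat.pos_of_ne_zero fun h => g6 (by rw [h]; simp)
  have hQ1 : (Q : ℝ) ≤ Real.exp (2 * c * M) := by
    have a1 : (Q : ℝ) ≤ (p : ℝ) ^ (W * (M0 * R ^ s)) := by exact_mod_cast g7
    refine a1.trans ((pow_le_pow_left₀ (by positivity)
      (show (p : ℝ) ≤ Real.exp p by linarith [Real.add_one_le_exp (p : ℝ)]) _).trans ?_)
    rw [← Real.exp_nat_mul, Real.exp_le_exp, hM]
    push_cast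
    have := mul_le_mul_of_nonneg_right hR (by positivity : (0 : ℝ) ≤ M0 * R ^ s)
    rw [pow_succ]
    linarith
  have hfib : ∀ i ∈ I, ∀ v, ((cell (F (8 * M)) (fun z => a ^ m * z / (p ^ (8 * M)) ^ i) p
      (8 * M) v).card : ℝ) ≤ Real.exp (-(δ / 32 * (8 * M : ℕ))) * (F (8 * M)).card := by
    intro i hi v
    refine (fibre hp hF (g5 i hi) (X := C * Real.exp (η * (7 * M)))
      (one_le_mul_of_one_le_of_one_le hC (Real.one_le_exp (mul_nonneg (by linarith) (by positivity))))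
      (fun k hk => (hent k).trans ?_) v).trans ?_
    · have : (k : ℝ) ≤ 7 * M := by exact_mod_cast hk
      gcongr
      linarith
    · refine le_trans ?_ (mul_le_mul_of_nonneg_left hA1.le (Real.exp_pos _).le)
      rw [← mul_assoc, ← Real.exp_add]
      refine (mul_le_mul_of_nonneg_right (h1 M (by omega)) (Real.exp_pos _).le).trans ?_
      rw [← Real.exp_add, Real.exp_le_exp]
      push_cast
      nlinarith
  have hlogA : Real.log (F (8 * M)).card ≤ 2 * c / r * M + η * (8 * M) := by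
    rw [Real.log_le_iff_le_exp hA0, Real.exp_add]
    refine (hent _).trans ?_
    push_cast
    exact mul_le_mul_of_nonneg_right (h3 M (by omega)) (Real.exp_pos _).le
  refine (hF.nxt hp.pos w ω (a ^ m)).ent_of_mul hp.pos hηε (L := 8 * M) (J := J)
    (C := (a ^ m : ℕ) * Real.exp (J * (4 * c / r * M))) (by positivity) (by omega) fun n hn => ?_
  have hcov : nxt p w ω (a ^ m) F (n * (8 * M)) ⊆ (range (a ^ m)).biUnion fun c' =>
      (F (n * (8 * M))).filter fun x => Av p w ω (a ^ m * x + c') (n * (8 * M)) := by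
    intro x hx
    obtain ⟨b1, c', b2, b3⟩ := mem_nxt.1 hx
    exact mem_biUnion.2 ⟨c', mem_range.2 b2, mem_filter.2 ⟨b1, b3⟩⟩
  have hcov2 : ((nxt p w ω (a ^ m) F (n * (8 * M))).card : ℝ) ≤ ∑ c' ∈ range (a ^ m),
      (((F (n * (8 * M))).filter fun x => Av p w ω (a ^ m * x + c') (n * (8 * M))).card : ℝ) := by
    exact_mod_cast (card_le_card hcov).trans card_biUnion_le
  refine hcov2.trans ((sum_le_sum (g := fun _ => Real.exp (J * (4 * c / r * M)) *
    Real.exp ((η - ε) * (n * (8 * M : ℕ)))) fun c' _ => ?_).trans (by simp [mul_assoc]))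
  rcases ((F (n * (8 * M))).filter
    fun x => Av p w ω (a ^ m * x + c') (n * (8 * M))).eq_empty_or_nonempty with h0 | h0
  · rw [h0, card_empty, Nat.cast_zero]; positivity
  have key := count_step hp hF (a ^ m) c' (8 * M) Q (Q * (1 + r + 2 * W)) n J hn hA G g1 g6 Bf
    (X := 2 * W * Q) (K := K * Real.exp (-(c * (8 * M : ℕ))) * (F (8 * M)).card ^ G.card)
    (by positivity) (fun i hi => by
      have := g8 i hi
      push_cast
      rw [← pow_mul, mul_comm (8 * M)]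
      exact_mod_cast this) (by
      refine le_trans (le_of_eq (sum_congr rfl fun i _ => ?_)) g9
      push_cast
      rw [← pow_mul, mul_comm (8 * M)]) (by
      push_cast
      have := mul_le_mul_of_nonneg_left hGr (by positivity : (0 : ℝ) ≤ Q)
      linarith) (fun Γ T hT => by
      have := hsum G (F (8 * M)) (fun l z => a ^ m * z / (p ^ (8 * M)) ^ l.1)
        (I.subtype (· ∈ G)) (8 * M) Γ T hA (by
          rw [card_subtype, filter_true_of_mem g2, g3])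
        (fun l hl v => hfib l.1 (mem_subtype.1 hl) v) hT
      rwa [Fintype.card_coe] at this) _ h0 (fun x hx => mem_filter.1 hx)
  have hlogK : Real.log ((2 * ((Q * (1 + r + 2 * W) : ℕ) : ℝ) + 1) *
      (K * Real.exp (-(c * (8 * M : ℕ))) * (F (8 * M)).card ^ G.card)) ≤
      G.card * Real.log (F (8 * M)).card - 4 * c * M := by
    rw [Real.log_le_iff_le_exp (by positivity), sub_eq_add_neg, Real.exp_add, Real.exp_nat_mul,
      Real.exp_log hA0, ← mul_assoc, mul_comm]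
    refine mul_le_mul_of_nonneg_left ?_ (by positivity)
    have a1 : (1 : ℝ) ≤ Q := by exact_mod_cast hQ0
    have a2 : (2 * ((Q * (1 + r + 2 * W) : ℕ) : ℝ) + 1) * K ≤ Q * ((3 + 2 * r + 4 * W) * K) := by
      rw [← mul_assoc]
      refine mul_le_mul_of_nonneg_right ?_ hK.le
      push_cast
      linarith
    have a3 := a2.trans (mul_le_mul hQ1 (h2 M (by omega)) (by positivity) (Real.exp_pos _).le)
    rw [← mul_assoc]
    refine (mul_le_mul_of_nonneg_right a3 (Real.exp_pos _).le).trans (le_of_eq ?_)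
    rw [← Real.exp_add, ← Real.exp_add]
    congr 1
    push_cast
    ring
  have hnJ : (0 : ℝ) ≤ (n : ℝ) - J := sub_nonneg.2 (by exact_mod_cast hn)
  have k1 := key.trans (add_le_add_left (mul_le_mul_of_nonneg_left hlogK hnJ) _)
  rw [← Real.exp_add, ← Real.log_le_iff_le_exp (by exact_mod_cast h0.card_pos)]
  generalize Real.log ((F (n * (8 * M))).filter
    fun x => Av p w ω (a ^ m * x + c') (n * (8 * M))).card = y at k1 ⊢
  generalize Real.log (F (8 * M)).card = α at k1 hlogA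
  have k2 : y ≤ n * α - (n - J) * (4 * c / r * M) := by
    refine le_of_mul_le_mul_left (k1.trans ?_) hG0
    have a1 : G.card * (4 * c / r * M) ≤ 4 * c * M := by
      have := mul_le_mul_of_nonneg_right hGr (by positivity : (0 : ℝ) ≤ 4 * c / r * M)
      refine this.trans (le_of_eq ?_)
      field_simp
    have := mul_le_mul_of_nonneg_left a1 hnJ
    linarith
  have k3 := mul_le_mul_of_nonneg_left hlogA (by positivity : (0 : ℝ) ≤ n)
  have k4 : ε * (n * (8 * M)) ≤ c / (4 * r) * (n * (8 * M)) :=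
    mul_le_mul_of_nonneg_right hε2 (by positivity)
  have k5 : c / (4 * r) * (n * (8 * M)) = n * (2 * c / r * M) := by field_simp; ring
  have k6 : 4 * c / r * M = 2 * (2 * c / r * M) := by ring
  push_cast
  rw [k6] at k2 ⊢
  linarith

end Pool.Agent.MP_5a7e96_nt.H37
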