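import Pool.Agent.MP_5a7e96_nt.H37.Shear

/-!
A sum of many independent variables with linear min-entropy modulo `p ^ L` avoids a given digit
block only with exponentially small probability.
-/

namespace Pool.Agent.MP_5a7e96_nt.H37

open Finset

/-- The lowest `t` base `p` digits of `y` do not contain the block `ω` of length `w`. -/
def Av (p w ω y t : ℕ) : Prop := ∀ j, j + w ≤ t → y / p ^ j % p ^ w ≠ ω

lemma chowla_step {N : ℕ} [NeZero N] (T : Finset (ZMod N)) (hT : T.Nonempty) (hne : T ≠ univ)
    {d : ZMod N} (hd : IsUnit d) : ∃ t ∈ T, t + d ∉ T := by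
  by_contra h
  push Not at h
  obtain ⟨t, ht⟩ := hT
  have h1 : ∀ n : ℕ, t + n * d ∈ T := by
    intro n
    induction n with
    | zero => simpa using ht
    | succ n ih =>
      have := h _ ih
      rwa [show t + (n : ZMod N) * d + d = t + ((n + 1 : ℕ) : ZMod N) * d by push_cast; ring] at this
  refine hne (eq_univ_of_forall fun τ => ?_)
  obtain ⟨v, rfl⟩ := hd
  have := h1 ((τ - t) * (v⁻¹ : (ZMod N)ˣ)).val
  rw [ZMod.natCast_zmod_val, mul_assoc, Units.inv_mul, mul_one] at this
  simpa using this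

lemma window {ι α : Type*} [Fintype ι] [DecidableEq ι] {N : ℕ} [NeZero N] (B : ι → Finset α)
    (hB : ∀ l, (B l).Nonempty) (ψ : ι → α → ZMod N) {θ : ℝ} (hθ : 0 ≤ θ) (I : Finset ι)
    (hI : N ≤ I.card)
    (h : ∀ l ∈ I, ∃ a b : ZMod N, IsUnit (b - a) ∧
      θ * (B l).card ≤ ((B l).filter (fun z => ψ l z = a)).card ∧
      θ * (B l).card ≤ ((B l).filter (fun z => ψ l z = b)).card) (τ : ZMod N) :
    θ ^ N * (Fintype.piFinset B).card ≤
      ((Fintype.piFinset B).filter (fun z => ∑ l, ψ l (z l) = τ)).card := by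
  classical
  set Wt : Finset ι → ZMod N → ℝ := fun s τ =>
    ∑ z ∈ Fintype.piFinset B, if ∑ l ∈ s, ψ l (z l) = τ then (1 : ℝ) else 0 with hWt
  have hW0 : ∀ s τ, 0 ≤ Wt s τ := fun s τ => sum_nonneg fun z _ => by split_ifs <;> norm_num
  have hBc : ∀ l, (0 : ℝ) < (B l).card := fun l => by exact_mod_cast (hB l).card_pos
  have hid : ∀ s l, l ∉ s → ∀ τ, (B l).card * Wt (insert l s) τ = ∑ b ∈ B l, Wt s (τ - ψ l b) := by
    intro s l hl τ
    rw [hWt]
    beta_reduce
    rw [← sum_update B l, sum_comm]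
    refine sum_congr rfl fun b _ => sum_congr rfl fun z _ => ?_
    rw [sum_insert hl, Function.update_self]
    have : ∑ i ∈ s, ψ i (Function.update z l b i) = ∑ i ∈ s, ψ i (z i) :=
      sum_congr rfl fun i hi => by rw [Function.update_of_ne (show i ≠ l from fun h => hl (h ▸ hi))]
    rw [this]
    exact if_congr (by rw [eq_sub_iff_add_eq']) rfl rfl
  have hstep : ∀ s l, l ∉ s → ∀ a : ZMod N,
      θ * (B l).card ≤ ((B l).filter (fun z => ψ l z = a)).card →
      ∀ t, θ * Wt s t ≤ Wt (insert l s) (t + a) := by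
    intro s l hl a ha t
    refine le_of_mul_le_mul_left ?_ (hBc l)
    rw [hid s l hl]
    calc _ = θ * (B l).card * Wt s t := by ring
      _ ≤ ((B l).filter (fun z => ψ l z = a)).card * Wt s t :=
          mul_le_mul_of_nonneg_right ha (hW0 _ _)
      _ = ∑ b ∈ (B l).filter (fun z => ψ l z = a), Wt s (t + a - ψ l b) := by
          rw [sum_congr rfl (g := fun _ => Wt s t) fun b hb => by
            rw [(mem_filter.1 hb).2, add_sub_cancel_right]]
          simp
      _ ≤ _ := sum_le_sum_of_subset_of_nonneg (filter_subset _ _) fun _ _ _ => hW0 _ _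
  have hA : ∀ s : Finset ι, s ⊆ I → ∃ T : Finset (ZMod N), min N (s.card + 1) ≤ T.card ∧
      ∀ τ ∈ T, θ ^ s.card * (Fintype.piFinset B).card ≤ Wt s τ := by
    intro s
    induction s using Finset.induction_on with
    | empty =>
      intro _
      refine ⟨{0}, by simp, fun τ hτ => ?_⟩
      rw [mem_singleton.1 hτ, hWt]
      simp
    | insert l s hl ih =>
      intro hs
      obtain ⟨T, h1, h2⟩ := ih ((subset_insert _ _).trans hs)
      obtain ⟨a, b, hu, ha, hb⟩ := h l (hs (mem_insert_self _ _))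
      refine ⟨T.image (· + a) ∪ T.image (· + b), ?_, fun τ hτ => ?_⟩
      · have c1 : (T.image (· + a)).card = T.card :=
          card_image_of_injective _ (add_left_injective a)
        rw [card_insert_of_notMem hl]
        by_cases hT : T = univ
        · have := card_le_card (subset_union_left (s₁ := T.image (· + a)) (s₂ := T.image (· + b)))
          rw [c1] at this
          have h3 : T.card = N := by rw [hT, card_univ, ZMod.card]
          omega
        · have hN := NeZero.pos N
          obtain ⟨t, ht, ht'⟩ := chowla_step T (card_pos.1 (by omega)) hT hu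
          have h3 : t + b ∉ T.image (· + a) := by
            intro hh
            obtain ⟨t', h4, h5⟩ := mem_image.1 hh
            apply ht'
            rwa [show t + (b - a) = t' by linear_combination -h5]
          have h4 : insert (t + b) (T.image (· + a)) ⊆ T.image (· + a) ∪ T.image (· + b) :=
            insert_subset (mem_union_right _ (mem_image_of_mem _ ht)) subset_union_left
          have := card_le_card h4
          rw [card_insert_of_notMem h3, c1] at this
          omega
      · rw [card_insert_of_notMem hl, pow_succ', mul_assoc]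
        rcases mem_union.1 hτ with hτ | hτ
        · obtain ⟨t, ht, rfl⟩ := mem_image.1 hτ
          exact (mul_le_mul_of_nonneg_left (h2 t ht) hθ).trans (hstep s l hl a ha t)
        · obtain ⟨t, ht, rfl⟩ := mem_image.1 hτ
          exact (mul_le_mul_of_nonneg_left (h2 t ht) hθ).trans (hstep s l hl b hb t)
  obtain ⟨I', hI1, hI2⟩ := exists_subset_card_eq hI
  obtain ⟨T, h1, h2⟩ := hA I' hI1
  have hT : T = univ := eq_univ_of_card T (le_antisymm (card_le_univ T) (by
    rw [ZMod.card]; omega))
  rw [hI2, hT] at h2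
  have hC : ∀ s : Finset ι, ∀ τ, θ ^ N * (Fintype.piFinset B).card ≤ Wt (s ∪ I') τ := by
    intro s
    induction s using Finset.induction_on with
    | empty => intro τ; rw [empty_union]; exact h2 τ (mem_univ _)
    | insert l s _ ih =>
      intro τ
      rw [insert_union]
      by_cases hl : l ∈ s ∪ I'
      · rw [insert_eq_of_mem hl]; exact ih τ
      · refine le_of_mul_le_mul_left ?_ (hBc l)
        rw [hid _ l hl]
        refine le_trans (le_of_eq ?_) (sum_le_sum fun b _ => ih (τ - ψ l b))
        rw [sum_const, nsmul_eq_mul]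
  have := hC univ τ
  rw [union_eq_left.2 (subset_univ _), hWt] at this
  simpa using this

lemma pigeon {α : Type*} {N : ℕ} [NeZero N] (B : Finset α) (f : α → ZMod N) :
    ∃ v, (B.card : ℝ) / N ≤ (B.filter (fun z => f z = v)).card := by
  have hN : (0 : ℝ) < N := by exact_mod_cast NeZero.pos N
  by_contra h
  push Not at h
  have h1 := sum_lt_sum_of_nonempty (s := (univ : Finset (ZMod N))) univ_nonempty fun v _ => h v
  rw [← Nat.cast_sum, ← card_eq_sum_card_fiberwise (fun _ _ => mem_coe.2 (mem_univ _)),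
    sum_const, card_univ, ZMod.card, nsmul_eq_mul, mul_div_cancel₀ _ hN.ne'] at h1
  exact lt_irrefl _ h1

lemma two_classes {α : Type*} {p : ℕ} (hp : p.Prime) (w : ℕ) (B : Finset α) (hB : B.Nonempty)
    (x : α → ℕ) {η : ℝ} (hη : 0 < η)
    (h : ∀ d, ((B.filter (fun b => x b % p = d)).card : ℝ) ≤ (1 - η) * B.card) :
    ∃ a b : ZMod (p ^ w), IsUnit (b - a) ∧
      η / (p ^ w : ℕ) * B.card ≤ (B.filter (fun z => (x z : ZMod (p ^ w)) = a)).card ∧
      η / (p ^ w : ℕ) * B.card ≤ (B.filter (fun z => (x z : ZMod (p ^ w)) = b)).card := by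
  have : NeZero (p ^ w) := ⟨(pow_pos hp.pos _).ne'⟩
  have hN : (0 : ℝ) < (p ^ w : ℕ) := by exact_mod_cast pow_pos hp.pos _
  have hc : (0 : ℝ) < B.card := by exact_mod_cast hB.card_pos
  have hη1 : η ≤ 1 := by
    have h1 := (Nat.cast_nonneg _).trans (h 0)
    have := nonneg_of_mul_nonneg_left h1 hc
    linarith
  obtain ⟨a, ha⟩ := pigeon B (fun z => (x z : ZMod (p ^ w)))
  obtain ⟨z0, hz0⟩ : (B.filter (fun z => (x z : ZMod (p ^ w)) = a)).Nonempty := by
    rw [← card_pos, ← Nat.cast_pos (α := ℝ)]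
    exact lt_of_lt_of_le (by positivity) ha
  set B' := B.filter (fun b => ¬ x b % p = x z0 % p) with hB'
  have h1 : η * B.card ≤ B'.card := by
    have h2 := card_filter_add_card_filter_not (s := B) (fun b => x b % p = x z0 % p)
    have h3 : (((B.filter (fun b => x b % p = x z0 % p)).card : ℝ) + B'.card) = B.card := by
      exact_mod_cast h2
    have := h (x z0 % p)
    linarith
  obtain ⟨b, hb⟩ := pigeon B' (fun z => (x z : ZMod (p ^ w)))
  have h2 : η / (p ^ w : ℕ) * B.card ≤ (B'.filter (fun z => (x z : ZMod (p ^ w)) = b)).card := by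
    refine le_trans ?_ hb
    rw [div_mul_eq_mul_div]
    gcongr
  obtain ⟨z1, hz1⟩ : (B'.filter (fun z => (x z : ZMod (p ^ w)) = b)).Nonempty := by
    rw [← card_pos, ← Nat.cast_pos (α := ℝ)]
    exact lt_of_lt_of_le (by positivity) h2
  refine ⟨a, b, ?_, le_trans ?_ ha, h2.trans ?_⟩
  · rw [← (mem_filter.1 hz0).2, ← (mem_filter.1 hz1).2]
    have h3 := (mem_filter.1 (mem_filter.1 hz1).1).2
    have h4 : ¬ (p : ℤ) ∣ (x z1 : ℤ) - x z0 := fun hh =>
      h3 ((Nat.modEq_iff_dvd.2 hh).symm)
    have h5 : IsCoprime ((p ^ w : ℕ) : ℤ) ((x z1 : ℤ) - x z0) := by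
      push_cast
      exact ((Nat.prime_iff_prime_int.1 hp).irreducible.coprime_iff_not_dvd.2 h4).pow_left
    have := (ZMod.coe_int_isUnit_iff_isCoprime _ _).2 h5
    simpa using this
  · rw [div_mul_eq_mul_div]
    gcongr
    nlinarith
  · exact_mod_cast card_le_card (filter_subset_filter _ (filter_subset _ _))

lemma sqrt_sum {α γ : Type*} [DecidableEq γ] (C : Finset α) (κ : α → γ) (T : Finset γ)
    (hT : ∀ x ∈ C, κ x ∈ T) (n : α → ℕ)
    (hn : ∀ x ∈ C, (C.filter (fun y => κ y = κ x)).card ≤ n x) {c lam : ℝ} (hc : 0 ≤ c)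
    (hl : 0 < lam) :
    ∑ x ∈ C, √(c / n x) ≤ (lam * C.card + c * T.card / lam) / 2 := by
  have h1 : ∀ x ∈ C, √(c / n x) ≤ (lam + c / lam * (1 / n x)) / 2 := by
    intro x _
    have h0 : 0 ≤ c / n x := by positivity
    have e : c / lam * (1 / n x) = (c / n x) / lam := by ring
    have h2 := Real.sq_sqrt h0
    have h3 := sq_nonneg (√(c / n x) - lam)
    rw [e, le_div_iff₀ (by norm_num : (0 : ℝ) < 2), ← sub_le_iff_le_add', le_div_iff₀ hl]
    nlinarith
  refine (sum_le_sum h1).trans ?_
  rw [← sum_div, sum_add_distrib, ← mul_sum, sum_const, nsmul_eq_mul]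
  have h2 := mul_le_mul_of_nonneg_left (sum_inv_le C κ T hT n hn) (by positivity : 0 ≤ c / lam)
  have e : c * T.card / lam = c / lam * T.card := by ring
  rw [e]
  linarith

/-- Elements whose image has residue `r` modulo `p ^ s`. -/
def cell {α : Type*} (A : Finset α) (φ : α → ℕ) (p s r : ℕ) : Finset α :=
  A.filter (fun b => φ b % p ^ s = r)

/-- The cell splits in a nondegenerate way according to the next digit. -/
def ND {α : Type*} (A : Finset α) (φ : α → ℕ) (p : ℕ) (η : ℝ) (s r : ℕ) : Prop :=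
  ∀ d, (((cell A φ p s r).filter (fun b => φ b / p ^ s % p = d)).card : ℝ) ≤
    (1 - η) * (cell A φ p s r).card

lemma mod_of_mod {p s s' a b : ℕ} (h : s ≤ s') (hab : a % p ^ s' = b % p ^ s') :
    a % p ^ s = b % p ^ s :=
  Nat.ModEq.of_dvd (pow_dvd_pow p h) hab

lemma win_of_mod {p s w s' a b : ℕ} (h : s + w ≤ s') (hab : a % p ^ s' = b % p ^ s') :
    a / p ^ s % p ^ w = b / p ^ s % p ^ w := by
  rw [← Nat.mod_mul_right_div_self, ← Nat.mod_mul_right_div_self, ← pow_add, mod_of_mod h hab]

open Classical in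
lemma single {α : Type*} (A : Finset α) (φ : α → ℕ) {p : ℕ} (hp : 1 ≤ p) {h : ℝ} (hh : 0 < h)
    (L : ℕ) (hf : ∀ v, ((cell A φ p L v).card : ℝ) ≤ Real.exp (-(h * L)) * A.card) :
    ((A.filter fun b => (((range L).filter fun s =>
      ND A φ p ((h / 8) ^ 2 / p) s (φ b % p ^ s)).card : ℝ) < h / (8 * p) * L).card : ℝ) ≤
      Real.exp (-(h / 4 * L)) * A.card := by
  have hp0 : (0 : ℝ) < p := by exact_mod_cast hp
  have hp1 : (1 : ℝ) ≤ p := by exact_mod_cast hp
  set η := (h / 8) ^ 2 / p with hη
  set c : ℕ → α → ℕ := fun s b => (cell A φ p s (φ b % p ^ s)).card with hc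
  have hcpos : ∀ s, ∀ b ∈ A, (0 : ℝ) < c s b := fun s b hb => by
    have : 0 < c s b := card_pos.2 ⟨b, mem_filter.2 ⟨hb, rfl⟩⟩
    exact_mod_cast this
  set f : ℕ → α → ℝ := fun s b => √(c s b / c (s + 1) b) *
    (if ND A φ p η s (φ b % p ^ s) then 1 / (p : ℝ) else 1) with hfdef
  have hf0 : ∀ s b, 0 ≤ f s b := fun s b => mul_nonneg (Real.sqrt_nonneg _) (by
    split_ifs <;> positivity)
  have h1 := tree A (fun s b => φ b % p ^ s) f (1 + h / 8) hf0 (by positivity) L
    (fun k k' hk x _ y _ hxy => by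
      simp only [hfdef, hc]
      rw [mod_of_mod hk.le hxy, mod_of_mod (s := k + 1) hk hxy])
    (fun s x hx => by
      change ∑ y ∈ cell A φ p s (φ x % p ^ s), f s y ≤ (1 + h / 8) * c s x
      set C := cell A φ p s (φ x % p ^ s) with hC
      have e1 : ∀ y ∈ C, f s y = √(c s x / c (s + 1) y) *
          (if ND A φ p η s (φ x % p ^ s) then 1 / (p : ℝ) else 1) := fun y hy => by
        simp only [hfdef, hc]
        rw [(mem_filter.1 hy).2]
      have e2 : ∀ C' ⊆ C, ∀ y ∈ C',
          (C'.filter (fun z => φ z / p ^ s % p = φ y / p ^ s % p)).card ≤ c (s + 1) y := by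
        intro C' hC' y hy
        refine card_le_card fun z hz => ?_
        obtain ⟨a1, a2⟩ := mem_filter.1 hz
        obtain ⟨a3, a4⟩ := mem_filter.1 (hC' a1)
        refine mem_filter.2 ⟨a3, ?_⟩
        rw [Nat.mod_pow_succ, Nat.mod_pow_succ, a2, a4, (mem_filter.1 (hC' hy)).2]
      have hcx := hcpos s x hx
      have hCc : (C.card : ℝ) = c s x := rfl
      rw [sum_congr rfl e1, ← sum_mul]
      split_ifs with hnd
      · have := sqrt_sum C (fun z => φ z / p ^ s % p) (range p)
          (fun z _ => mem_range.2 (Nat.mod_lt _ hp)) (c (s + 1)) (e2 C subset_rfl) hcx.le one_pos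
        rw [card_range, hCc] at this
        rw [mul_one_div, div_le_iff₀ hp0]
        have a1 := mul_le_mul_of_nonneg_left hp1 hcx.le
        have a2 : 0 ≤ h / 8 * c s x * p := by positivity
        nlinarith
      · unfold ND at hnd
        push Not at hnd
        obtain ⟨d, hd⟩ := hnd
        rw [← hC, hCc] at hd
        have a1 := sqrt_sum (C.filter fun z => φ z / p ^ s % p = d) (fun z => φ z / p ^ s % p) {d}
          (fun z hz => mem_singleton.2 (mem_filter.1 hz).2) (c (s + 1))
          (e2 _ (filter_subset _ _)) hcx.le one_pos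
        have a2 := sqrt_sum (C.filter fun z => ¬ φ z / p ^ s % p = d) (fun z => φ z / p ^ s % p)
          (range p) (fun z _ => mem_range.2 (Nat.mod_lt _ hp)) (c (s + 1))
          (e2 _ (filter_subset _ _)) hcx.le (lam := p / (h / 8)) (by positivity)
        have a3 : (((C.filter fun z => φ z / p ^ s % p = d).card : ℝ) +
            (C.filter fun z => ¬ φ z / p ^ s % p = d).card) = c s x := by
          rw [← hCc]
          exact_mod_cast card_filter_add_card_filter_not (s := C) _
        rw [← sum_filter_add_sum_filter_not C (fun z => φ z / p ^ s % p = d), mul_one]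
        rw [card_range] at a2
        rw [card_singleton] at a1
        have a4 : ((C.filter fun z => ¬ φ z / p ^ s % p = d).card : ℝ) ≤ η * c s x := by linarith
        have a5 : p / (h / 8) * ((C.filter fun z => ¬ φ z / p ^ s % p = d).card : ℝ) ≤
            p / (h / 8) * (η * c s x) := mul_le_mul_of_nonneg_left a4 (by positivity)
        have a6 : p / (h / 8) * (η * c s x) = h / 8 * c s x := by rw [hη]; field_simp
        have a7 : (c s x : ℝ) * p / (p / (h / 8)) = h / 8 * c s x := by field_simp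
        have a8 : (0 : ℝ) ≤ (C.filter fun z => ¬ φ z / p ^ s % p = d).card := by positivity
        rw [a7] at a2
        push_cast at a1
        linarith)
  have h2 : ∀ b ∈ A, ∀ n, ∏ s ∈ range n, √((c s b : ℝ) / c (s + 1) b) = √(A.card / c n b) := by
    intro b hb n
    induction n with
    | zero =>
      have : c 0 b = A.card := by simp [hc, cell, Nat.mod_one]
      have h0 := hcpos 0 b hb
      rw [this] at h0 ⊢
      simp [div_self h0.ne']
    | succ n ih =>
      rw [prod_range_succ, ih, ← Real.sqrt_mul (by positivity)]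
      have := hcpos n b hb
      congr 1
      field_simp
  have h3 : ∀ b ∈ A.filter fun b => (((range L).filter fun s =>
      ND A φ p η s (φ b % p ^ s)).card : ℝ) < h / (8 * p) * L,
      Real.exp (3 * h / 8 * L) ≤ ∏ s ∈ range L, f s b := by
    intro b hb
    obtain ⟨b1, b2⟩ := mem_filter.1 hb
    simp only [hfdef]
    rw [prod_mul_distrib, h2 b b1, prod_ite, prod_const_one, mul_one, prod_const]
    have a1 : Real.exp (h / 2 * L) ≤ √(A.card / c L b) := by
      apply Real.le_sqrt_of_sq_le
      rw [le_div_iff₀ (hcpos L b b1), ← Real.exp_nat_mul]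
      have := mul_le_mul_of_nonneg_left (hf (φ b % p ^ L)) (Real.exp_pos (h * L)).le
      rw [← mul_assoc, ← Real.exp_add, add_neg_cancel, Real.exp_zero, one_mul] at this
      refine le_trans (le_of_eq ?_) this
      congr 2
      push_cast; ring
    have a2 : Real.exp (-(h / 8 * L)) ≤ (1 / (p : ℝ)) ^ ((range L).filter fun s =>
        ND A φ p η s (φ b % p ^ s)).card := by
      have a3 : Real.exp (-(p : ℝ)) ≤ 1 / p := by
        rw [Real.exp_neg, ← one_div]
        exact one_div_le_one_div_of_le hp0 (by linarith [Real.add_one_le_exp (p : ℝ)])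
      refine le_trans ?_ (pow_le_pow_left₀ (Real.exp_pos _).le a3 _)
      rw [← Real.exp_nat_mul, Real.exp_le_exp]
      have := mul_le_mul_of_nonneg_left b2.le hp0.le
      have e : p * (h / (8 * p) * L) = h / 8 * L := by field_simp
      linarith
    refine le_trans (le_of_eq ?_) (mul_le_mul a1 a2 (Real.exp_pos _).le (Real.sqrt_nonneg _))
    rw [← Real.exp_add]
    congr 1
    ring
  have h4 := (sum_le_sum h3).trans ((sum_le_sum_of_subset_of_nonneg (filter_subset _ _)
    fun b _ _ => prod_nonneg fun s _ => hf0 s b).trans h1)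
  rw [sum_const, nsmul_eq_mul] at h4
  have h5 : (1 + h / 8) ^ L ≤ Real.exp (h / 8 * L) := by
    rw [mul_comm, Real.exp_nat_mul]
    exact pow_le_pow_left₀ (by positivity) (by linarith [Real.add_one_le_exp (h / 8)]) _
  refine le_of_mul_le_mul_right ?_ (Real.exp_pos (3 * h / 8 * L))
  refine h4.trans ((mul_le_mul_of_nonneg_left h5 (by positivity)).trans (le_of_eq ?_))
  rw [mul_right_comm, ← Real.exp_add, mul_comm]
  congr 2
  ring

lemma rich_count {ι : Type*} (I : Finset ι) (P : ι → ℕ → Prop) [∀ l s, Decidable (P l s)]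
    (L N : ℕ) (x : ℝ) (h : ∀ l ∈ I, x ≤ ((range L).filter (fun s => P l s)).card) :
    I.card * x ≤ I.card * ((range L).filter
      (fun s => N ≤ (I.filter (fun l => P l s)).card)).card + N * L := by
  have h1 := sum_le_sum h
  rw [sum_const, nsmul_eq_mul] at h1
  refine h1.trans ?_
  have h2 : ∑ l ∈ I, (((range L).filter (fun s => P l s)).card : ℝ) =
      ∑ s ∈ range L, ((I.filter (fun l => P l s)).card : ℝ) := by
    simp only [card_filter, Nat.cast_sum]
    exact sum_comm
  have h3 : ∀ s ∈ range L, ((I.filter (fun l => P l s)).card : ℝ) ≤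
      I.card * (if N ≤ (I.filter (fun l => P l s)).card then 1 else 0) + N := by
    intro s _
    split_ifs with hs
    · have : ((I.filter (fun l => P l s)).card : ℝ) ≤ I.card := by
        exact_mod_cast card_filter_le _ _
      have : (0 : ℝ) ≤ N := by positivity
      linarith
    · have : ((I.filter (fun l => P l s)).card : ℝ) ≤ N := by exact_mod_cast (not_le.1 hs).le
      linarith
  rw [h2]
  refine (sum_le_sum h3).trans (le_of_eq ?_)
  rw [sum_add_distrib, ← mul_sum]
  simp [mul_comm]

lemma card_coord {ι α : Type*} [Fintype ι] [DecidableEq ι] (A : Finset α) (hA : A.Nonempty) (l : ι)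
    (P : α → Prop) [DecidablePred P] {ε : ℝ} (h : ((A.filter P).card : ℝ) ≤ ε * A.card) :
    (((Fintype.piFinset fun _ : ι => A).filter (fun z => P (z l))).card : ℝ) ≤
      ε * (Fintype.piFinset fun _ : ι => A).card := by
  have hc : (0 : ℝ) < A.card := by exact_mod_cast hA.card_pos
  have := sum_update (fun _ : ι => A) l (fun z => if P (z l) then 1 else 0)
  simp only [Function.update_self, sum_boole, sum_const, nsmul_eq_mul] at this
  refine le_of_mul_le_mul_left ?_ hc
  rw [← this]
  have h0 : (0 : ℝ) ≤ (Fintype.piFinset fun _ : ι => A).card := by positivity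
  have := mul_le_mul_of_nonneg_left h h0
  linarith

open Classical in
lemma class_bound {p : ℕ} (hp : p.Prime) {w ω : ℕ} (hω : ω < p ^ w) {η : ℝ} (hη : 0 < η)
    {ι α : Type*} [Fintype ι] [DecidableEq ι] (A : Finset α) (φ : ι → α → ℕ) (I : Finset ι)
    (L Γ j : ℕ) :
    ∑ z ∈ Fintype.piFinset fun _ : ι => A, ∏ k ∈ range L,
      (if j + k * w + w ≤ L ∧ p ^ w ≤ (I.filter fun l =>
          ND A (φ l) p η (j + k * w) (φ l (z l) % p ^ (j + k * w))).card then
        (if (Γ + ∑ l, φ l (z l)) / p ^ (j + k * w) % p ^ w = ω then (0 : ℝ) else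
          1 + (η / (p ^ w : ℕ)) ^ p ^ w) else 1) ≤ (Fintype.piFinset fun _ : ι => A).card := by
  have : NeZero (p ^ w) := ⟨(pow_pos hp.pos _).ne'⟩
  have hθ : 0 ≤ η / (p ^ w : ℕ) := by positivity
  set c0 := (η / (p ^ w : ℕ)) ^ p ^ w with hc0
  have hc00 : 0 ≤ c0 := by positivity
  have := tree (Fintype.piFinset fun _ : ι => A) (fun k z l => φ l (z l) % p ^ (j + k * w))
    (fun k z => if j + k * w + w ≤ L ∧ p ^ w ≤ (I.filter fun l =>
          ND A (φ l) p η (j + k * w) (φ l (z l) % p ^ (j + k * w))).card then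
        (if (Γ + ∑ l, φ l (z l)) / p ^ (j + k * w) % p ^ w = ω then (0 : ℝ) else 1 + c0) else 1)
    1 (fun k z => by split_ifs <;> positivity) zero_le_one L
    (fun k k' hk x _ y _ hxy => by
      have a1 : j + k * w + w ≤ j + k' * w := by
        have : (k + 1) * w ≤ k' * w := Nat.mul_le_mul_right _ hk
        have e : (k + 1) * w = k * w + w := by ring
        omega
      have a2 : ∀ l, φ l (x l) % p ^ (j + k * w) = φ l (y l) % p ^ (j + k * w) := fun l =>
        mod_of_mod (by omega) (congrFun hxy l)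
      have a3 : (Γ + ∑ l, φ l (x l)) % p ^ (j + k' * w) =
          (Γ + ∑ l, φ l (y l)) % p ^ (j + k' * w) :=
        Nat.ModEq.add_left Γ (Nat.ModEq.sum fun l _ => congrFun hxy l)
      simp only [a2, win_of_mod a1 a3])
    (fun k x hx => by
      set s := j + k * w with hs
      have e1 : (Fintype.piFinset fun _ : ι => A).filter
          (fun y => (fun l => φ l (y l) % p ^ s) = fun l => φ l (x l) % p ^ s) =
          Fintype.piFinset fun l => cell A (φ l) p s (φ l (x l) % p ^ s) := by
        ext y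
        simp only [mem_filter, Fintype.mem_piFinset, cell, funext_iff, forall_and]
      rw [e1, one_mul]
      set B : ι → Finset α := fun l => cell A (φ l) p s (φ l (x l) % p ^ s) with hB
      have hB2 : ∀ y ∈ Fintype.piFinset B, ∀ l, φ l (y l) % p ^ s = φ l (x l) % p ^ s :=
        fun y hy l => (mem_filter.1 (Fintype.mem_piFinset.1 hy l)).2
      by_cases hr : s + w ≤ L ∧ p ^ w ≤ (I.filter fun l =>
          ND A (φ l) p η s (φ l (x l) % p ^ s)).card
      · rw [sum_congr rfl (g := fun y =>
          if (Γ + ∑ l, φ l (y l)) / p ^ s % p ^ w = ω then (0 : ℝ) else 1 + c0) fun y hy => by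
            simp only [hB2 y hy]
            rw [if_pos hr]]
        have a1 := window B (fun l => ⟨x l, mem_filter.2 ⟨Fintype.mem_piFinset.1 hx l, rfl⟩⟩)
          (fun l b => ((φ l b / p ^ s : ℕ) : ZMod (p ^ w))) hθ _ hr.2
          (fun l hl => two_classes hp w (B l)
            ⟨x l, mem_filter.2 ⟨Fintype.mem_piFinset.1 hx l, rfl⟩⟩ (fun b => φ l b / p ^ s) hη
            (mem_filter.1 hl).2)
          ((ω : ZMod (p ^ w)) - (((Γ + ∑ l, φ l (x l) % p ^ s) / p ^ s : ℕ) : ZMod (p ^ w)))
        have a2 : (Fintype.piFinset B).filter (fun z =>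
            ∑ l, ((φ l (z l) / p ^ s : ℕ) : ZMod (p ^ w)) =
              (ω : ZMod (p ^ w)) - (((Γ + ∑ l, φ l (x l) % p ^ s) / p ^ s : ℕ) : ZMod (p ^ w))) ⊆
            (Fintype.piFinset B).filter (fun y => (Γ + ∑ l, φ l (y l)) / p ^ s % p ^ w = ω) := by
          intro z hz
          obtain ⟨z1, z2⟩ := mem_filter.1 hz
          refine mem_filter.2 ⟨z1, ?_⟩
          have b1 : Γ + ∑ l, φ l (z l) =
              (Γ + ∑ l, φ l (x l) % p ^ s) + p ^ s * ∑ l, φ l (z l) / p ^ s := by
            rw [mul_sum, add_assoc, ← sum_add_distrib]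
            congr 1
            exact sum_congr rfl fun l _ => by rw [← hB2 z z1 l, Nat.mod_add_div]
          rw [b1, Nat.add_mul_div_left _ _ (pow_pos hp.pos _), ← Nat.mod_eq_of_lt hω,
            ← ZMod.natCast_eq_natCast_iff', Nat.cast_add, Nat.cast_sum, z2]
          ring
        have a3 : c0 * (Fintype.piFinset B).card ≤ ((Fintype.piFinset B).filter
            (fun y => (Γ + ∑ l, φ l (y l)) / p ^ s % p ^ w = ω)).card :=
          a1.trans (by exact_mod_cast card_le_card a2)
        have a4 : (((Fintype.piFinset B).filter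
            (fun y => (Γ + ∑ l, φ l (y l)) / p ^ s % p ^ w = ω)).card : ℝ) +
            ((Fintype.piFinset B).filter
            (fun y => ¬ (Γ + ∑ l, φ l (y l)) / p ^ s % p ^ w = ω)).card =
            (Fintype.piFinset B).card := by
          exact_mod_cast card_filter_add_card_filter_not (s := Fintype.piFinset B) _
        rw [sum_ite, sum_const_zero, zero_add, sum_const, nsmul_eq_mul]
        have a5 : (0 : ℝ) ≤ (Fintype.piFinset B).card := by positivity
        have a6 := mul_nonneg (mul_nonneg hc00 hc00) a5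
        nlinarith
      · rw [sum_congr rfl (g := fun _ => (1 : ℝ)) fun y hy => by
          simp only [hB2 y hy]
          rw [if_neg hr]]
        simp)
  simpa using this

theorem sum_lemma {p : ℕ} (hp : p.Prime) {w ω : ℕ} (hw : 1 ≤ w) (hω : ω < p ^ w) {h : ℝ}
    (hh : 0 < h) : ∃ (W : ℕ) (c K : ℝ), 0 < c ∧ 0 < K ∧
      ∀ (ι : Type) [Fintype ι] [DecidableEq ι] (A : Finset ℕ) (φ : ι → ℕ → ℕ) (I : Finset ι)
        (L Γ : ℕ) (T : Finset (ι → ℕ)), A.Nonempty → I.card = W + 1 →
        (∀ l ∈ I, ∀ v, ((cell A (φ l) p L v).card : ℝ) ≤ Real.exp (-(h * L)) * A.card) →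
        (∀ z ∈ T, (∀ l, z l ∈ A) ∧ Av p w ω (Γ + ∑ l, φ l (z l)) L) →
        (T.card : ℝ) ≤ K * Real.exp (-(c * L)) * A.card ^ Fintype.card ι := by
  classical
  have hp0 : (0 : ℝ) < p := by exact_mod_cast hp.pos
  have hw0 : (0 : ℝ) < w := by exact_mod_cast hw
  have hN : (0 : ℝ) < (p ^ w : ℕ) := by exact_mod_cast pow_pos hp.pos _
  set η := (h / 8) ^ 2 / p with hη
  have hη0 : 0 < η := by positivity
  set c0 := (η / (p ^ w : ℕ)) ^ p ^ w with hc0
  have hc00 : 0 < c0 := by positivity
  set c1 := Real.log (1 + c0) with hc1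
  have hc10 : 0 < c1 := Real.log_pos (by linarith)
  set c2 := h / (8 * p) with hc2
  have hc20 : 0 < c2 := by positivity
  refine ⟨⌈2 * (p ^ w : ℕ) / c2⌉₊, min (h / 4) (c1 * c2 / (2 * w)),
    (⌈2 * (p ^ w : ℕ) / c2⌉₊ + 1) + w * Real.exp c1, by positivity, by positivity, ?_⟩
  intro ι _ _ A φ I L Γ T hA hI hf hT
  set Ω := Fintype.piFinset fun _ : ι => A with hΩ
  have hΩc : (Ω.card : ℝ) = A.card ^ Fintype.card ι := by simp [hΩ]
  have hI0 : (0 : ℝ) < I.card := by rw [hI]; positivity
  have hI1 : 2 * (p ^ w : ℕ) ≤ c2 * I.card := by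
    rw [hI, mul_comm c2, ← div_le_iff₀ hc20]
    push_cast
    have := Nat.le_ceil (2 * ((p ^ w : ℕ) : ℝ) / c2)
    push_cast at this
    linarith
  set P : ι → ℕ → Prop := fun l b => (((range L).filter fun s =>
    ND A (φ l) p η s (φ l b % p ^ s)).card : ℝ) < c2 * L with hP
  have h1 : ((I.biUnion fun l => Ω.filter (fun z => P l (z l))).card : ℝ) ≤
      I.card * (Real.exp (-(h / 4 * L)) * Ω.card) := by
    have : ((I.biUnion fun l => Ω.filter (fun z => P l (z l))).card : ℝ) ≤
        ∑ l ∈ I, ((Ω.filter (fun z => P l (z l))).card : ℝ) := by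
      exact_mod_cast card_biUnion_le
    refine this.trans ((sum_le_sum fun l hl =>
      card_coord A hA l (P l) (ε := Real.exp (-(h / 4 * L))) ?_).trans (by simp [hΩ]))
    have := single A (φ l) hp.pos hh L (hf l hl)
    convert this
  set T2 := T.filter (fun z => ∀ l ∈ I, ¬ P l (z l)) with hT2
  have hTΩ : T ⊆ Ω := fun z hz => Fintype.mem_piFinset.2 (hT z hz).1
  have h2 : T ⊆ (I.biUnion fun l => Ω.filter (fun z => P l (z l))) ∪ T2 := by
    intro z hz
    by_cases hz2 : ∀ l ∈ I, ¬ P l (z l)
    · exact mem_union_right _ (mem_filter.2 ⟨hz, hz2⟩)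
    · push Not at hz2
      obtain ⟨l, a, b⟩ := hz2
      exact mem_union_left _ (mem_biUnion.2 ⟨l, a, mem_filter.2 ⟨hTΩ hz, b⟩⟩)
  set f : ℕ → (ι → ℕ) → ℝ := fun j z => ∏ k ∈ range L,
      (if j + k * w + w ≤ L ∧ p ^ w ≤ (I.filter fun l =>
          ND A (φ l) p η (j + k * w) (φ l (z l) % p ^ (j + k * w))).card then
        (if (Γ + ∑ l, φ l (z l)) / p ^ (j + k * w) % p ^ w = ω then (0 : ℝ) else 1 + c0) else 1)
    with hfdef
  have hf0 : ∀ j z, 0 ≤ f j z := fun j z => prod_nonneg fun k _ => by split_ifs <;> positivity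
  have h3 : ∀ j, ∑ z ∈ Ω, f j z ≤ Ω.card := fun j => by
    have := class_bound hp hω hη0 A φ I L Γ j
    convert this
  have h4 : ∀ z ∈ T2, Real.exp (c1 * c2 / (2 * w) * L - c1) ≤ ∑ j ∈ range w, f j z := by
    intro z hz
    obtain ⟨z1, z2⟩ := mem_filter.1 hz
    have a1 := rich_count I (fun l s => ND A (φ l) p η s (φ l (z l) % p ^ s)) L (p ^ w) (c2 * L)
      (fun l hl => not_lt.1 (z2 l hl))
    set Ri := (range L).filter (fun s => p ^ w ≤ (I.filter fun l =>
      ND A (φ l) p η s (φ l (z l) % p ^ s)).card) with hRi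
    have a2 : c2 * L / 2 ≤ Ri.card := by
      refine le_of_mul_le_mul_left ?_ hI0
      have := mul_le_mul_of_nonneg_right hI1 (by positivity : (0 : ℝ) ≤ L)
      nlinarith
    have a3 : (Ri.card : ℝ) ≤ (Ri.filter fun s => s + w ≤ L).card + w := by
      have b1 : Ri ⊆ (Ri.filter fun s => s + w ≤ L) ∪ Ico (L - w) L := by
        intro s hs
        by_cases hsw : s + w ≤ L
        · exact mem_union_left _ (mem_filter.2 ⟨hs, hsw⟩)
        · have := mem_range.1 (mem_filter.1 hs).1
          exact mem_union_right _ (mem_Ico.2 (by omega))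
      have b2 := (card_le_card b1).trans (card_union_le _ _)
      rw [Nat.card_Ico] at b2
      have b3 : Ri.card ≤ (Ri.filter fun s => s + w ≤ L).card + w := by omega
      exact_mod_cast b3
    obtain ⟨j, hj, a4⟩ := exists_le_card_fiber_of_nsmul_le_card_of_maps_to
      (s := Ri.filter fun s => s + w ≤ L) (t := range w) (f := fun s => s % w)
      (b := (c2 * L / 2 - w) / w) (fun s _ => mem_range.2 (Nat.mod_lt _ hw))
      (nonempty_range_iff.2 (by omega)) (by
        rw [card_range, nsmul_eq_mul, mul_div_cancel₀ _ hw0.ne']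
        linarith)
    refine le_trans ?_ (single_le_sum (f := fun j => f j z) (fun j _ => hf0 j z) hj)
    have a5 : f j z = (1 + c0) ^ ((range L).filter fun k => j + k * w + w ≤ L ∧
        p ^ w ≤ (I.filter fun l =>
          ND A (φ l) p η (j + k * w) (φ l (z l) % p ^ (j + k * w))).card).card := by
      rw [hfdef]
      beta_reduce
      rw [prod_ite, prod_const_one, mul_one, ← prod_const]
      exact prod_congr rfl fun k hk => if_neg ((hT z z1).2 _ (mem_filter.1 hk).2.1)
    have a6 : (((Ri.filter fun s => s + w ≤ L).filter fun s => s % w = j).card) ≤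
        ((range L).filter fun k => j + k * w + w ≤ L ∧ p ^ w ≤ (I.filter fun l =>
          ND A (φ l) p η (j + k * w) (φ l (z l) % p ^ (j + k * w))).card).card := by
      refine card_le_card_of_injOn (fun s => s / w) (fun s hs => ?_) fun s hs t ht hst => ?_
      · obtain ⟨b1, b2⟩ := mem_filter.1 (mem_coe.1 hs)
        obtain ⟨b3, b4⟩ := mem_filter.1 b1
        obtain ⟨b5, b6⟩ := mem_filter.1 b3
        have e : j + s / w * w = s := by rw [← b2]; exact Nat.mod_add_div' s w
        refine mem_coe.2 (mem_filter.2 ⟨mem_range.2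
          ((Nat.div_le_self _ _).trans_lt (mem_range.1 b5)), ?_⟩)
        beta_reduce
        rw [e]
        exact ⟨b4, b6⟩
      · have b1 := (mem_filter.1 (mem_coe.1 hs)).2
        have b2 := (mem_filter.1 (mem_coe.1 ht)).2
        rw [← Nat.mod_add_div s w, ← Nat.mod_add_div t w, b1, b2]
        simp only at hst
        rw [hst]
    rw [a5, ← Real.exp_log (by linarith : 0 < 1 + c0), ← Real.exp_nat_mul, Real.exp_le_exp, ← hc1]
    have a7 := mul_le_mul_of_nonneg_right (a4.trans (Nat.cast_le.2 a6)) hc10.le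
    refine le_trans (le_of_eq ?_) a7
    field_simp
  have h5 : T2.card * Real.exp (c1 * c2 / (2 * w) * L - c1) ≤ w * Ω.card := by
    have := (sum_le_sum h4).trans (sum_le_sum_of_subset_of_nonneg
      ((filter_subset _ _).trans hTΩ) fun z _ _ => sum_nonneg fun j _ => hf0 j z)
    rw [sum_const, nsmul_eq_mul, sum_comm] at this
    refine this.trans ((sum_le_sum fun j _ => h3 j).trans (by simp))
  have h6 : (T.card : ℝ) ≤ ((I.biUnion fun l => Ω.filter (fun z => P l (z l))).card : ℝ) +
      T2.card := by exact_mod_cast (card_le_card h2).trans (card_union_le _ _)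
  have hL : (0 : ℝ) ≤ L := by positivity
  have hΩ0 : (0 : ℝ) ≤ Ω.card := by positivity
  have h7 : Real.exp (-(h / 4 * L)) ≤ Real.exp (-(min (h / 4) (c1 * c2 / (2 * w)) * L)) :=
    Real.exp_le_exp.2 (neg_le_neg (mul_le_mul_of_nonneg_right (min_le_left _ _) hL))
  have h8 : (T2.card : ℝ) ≤ w * Real.exp c1 *
      Real.exp (-(min (h / 4) (c1 * c2 / (2 * w)) * L)) * Ω.card := by
    refine le_of_mul_le_mul_right (h5.trans ?_) (Real.exp_pos (c1 * c2 / (2 * w) * L - c1))
    have : 1 ≤ Real.exp c1 * Real.exp (-(min (h / 4) (c1 * c2 / (2 * w)) * L)) *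
        Real.exp (c1 * c2 / (2 * w) * L - c1) := by
      rw [← Real.exp_add, ← Real.exp_add]
      apply Real.one_le_exp
      have := mul_le_mul_of_nonneg_right (min_le_right (h / 4) (c1 * c2 / (2 * w))) hL
      linarith
    have := mul_le_mul_of_nonneg_left this (mul_nonneg hw0.le hΩ0)
    linarith
  rw [← hΩc]
  have h9 := mul_le_mul_of_nonneg_left (mul_le_mul_of_nonneg_right h7 hΩ0) hI0.le
  rw [hI] at h9 h1
  push_cast at h9 h1 ⊢
  linarith

end Pool.Agent.MP_5a7e96_nt.H37
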